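import Pool.Agent.Lib.MP_add2b9_al.LocalSpec

/-!
# Polarisation of the form `tr [T,S]^2` and the invariance of rank one matrices
-/

set_option autoImplicit false

namespace Pool.Agent.Lib.MP_add2b9_al.St

open Matrix

section curvature

variable {V : Type*} [AddCommGroup V]

/-- An algebraic curvature form whose sectional values vanish is zero. -/
lemma curvature_zero (D : V → V → V → V → ℂ)
    (a1 : ∀ X X' Y Z W, D (X + X') Y Z W = D X Y Z W + D X' Y Z W)
    (hs : ∀ X Y Z W, D X Y Z W = - D Y X Z W)
    (hp : ∀ X Y Z W, D X Y Z W = D Z W X Y)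
    (hb : ∀ X Y Z W, D X Y Z W + D Y Z X W + D Z X Y W = 0)
    (hk : ∀ X Y, D X Y X Y = 0) : ∀ X Y Z W, D X Y Z W = 0 := by
  have a2 : ∀ X Y Y' Z W, D X (Y + Y') Z W = D X Y Z W + D X Y' Z W := by
    intro X Y Y' Z W
    rw [hs, a1, hs Y X, hs Y' X]
    ring
  have a3 : ∀ X Y Z Z' W, D X Y (Z + Z') W = D X Y Z W + D X Y Z' W := by
    intro X Y Z Z' W
    rw [hp, a1, hp Z W, hp Z' W]
  have a4 : ∀ X Y Z W W', D X Y Z (W + W') = D X Y Z W + D X Y Z W' := by
    intro X Y Z W W'
    rw [hp, a2, hp Z W, hp Z W']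
  have s1 : ∀ X Y W, D X Y X W = 0 := by
    intro X Y W
    have h := hk X (Y + W)
    rw [a2, a4, a4, hk, hk, hp X W X Y] at h
    have : 2 * D X Y X W = 0 := by linear_combination h
    simpa using this
  have s2 : ∀ X Y Z W, D X Y Z W = D Y Z X W := by
    intro X Y Z W
    have h := s1 (X + Z) Y W
    rw [a1, a3, a3, s1, s1] at h
    rw [hs Y Z]
    linear_combination h
  intro X Y Z W
  have h := hb X Y Z W
  rw [← s2 Y Z X W, ← s2 X Y Z W] at h
  have : 3 * D X Y Z W = 0 := by linear_combination h
  simpa using this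

end curvature

variable {n : ℕ}

lemma br_add_left (X X' Y : Mat n) : br (X + X') Y = br X Y + br X' Y := by
  unfold br; noncomm_ring

lemma br_add_right (X Y Y' : Mat n) : br X (Y + Y') = br X Y + br X Y' := by
  unfold br; noncomm_ring

lemma br_smul_left (a : ℂ) (X Y : Mat n) : br (a • X) Y = a • br X Y := by
  unfold br
  rw [smul_mul_assoc, mul_smul_comm, smul_sub]

lemma br_smul_right (a : ℂ) (X Y : Mat n) : br X (a • Y) = a • br X Y := by
  unfold br
  rw [smul_mul_assoc, mul_smul_comm, smul_sub]

lemma br_symm (X Y : Mat n) : br X Y = - br Y X := by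
  unfold br; noncomm_ring

lemma trace_mul_br (A M W : Mat n) : (A * br M W).trace = ((A * M - M * A) * W).trace := by
  unfold br
  rw [mul_sub, trace_sub, sub_mul, trace_sub]
  congr 1
  · rw [mul_assoc]
  · rw [← mul_assoc, trace_mul_cycle]

lemma jacobi_trace (X Y Z W : Mat n) :
    (br X Y * br Z W).trace + (br Y Z * br X W).trace + (br Z X * br Y W).trace = 0 := by
  rw [trace_mul_br, trace_mul_br, trace_mul_br, ← trace_add, ← trace_add, ← add_mul, ← add_mul]
  have : (br X Y * Z - Z * br X Y) + (br Y Z * X - X * br Y Z) + (br Z X * Y - Y * br Z X) = 0 := by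
    unfold br; noncomm_ring
  rw [this]
  simp

/-- The curvature identity: a linear map preserving `tr [T,S]^2` preserves `tr [X,Y][Z,W]`. -/
theorem curvature_identity (P : Mat n →ₗ[ℂ] Mat n)
    (hK : ∀ T S, (br (P T) (P S) * br (P T) (P S)).trace = (br T S * br T S).trace)
    (X Y Z W : Mat n) :
    (br (P X) (P Y) * br (P Z) (P W)).trace = (br X Y * br Z W).trace := by
  have h := curvature_zero
    (fun X Y Z W => (br (P X) (P Y) * br (P Z) (P W)).trace - (br X Y * br Z W).trace)
    (by
      intro X X' Y Z W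
      simp only [map_add, br_add_left, add_mul, trace_add]
      ring)
    (by
      intro X Y Z W
      rw [br_symm (P X) (P Y), br_symm X Y, neg_mul, neg_mul, trace_neg, trace_neg]
      ring)
    (by
      intro X Y Z W
      rw [trace_mul_comm, trace_mul_comm (br X Y)])
    (by
      intro X Y Z W
      have h1 := jacobi_trace (P X) (P Y) (P Z) (P W)
      have h2 := jacobi_trace X Y Z W
      linear_combination h1 - h2)
    (by
      intro X Y
      rw [hK, sub_self])
    X Y Z W
  exact sub_eq_zero.mp h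

end Pool.Agent.Lib.MP_add2b9_al.St
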