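import Mathlib

/-!
# Maps preserving the local spectrum of commutators: definitions
-/

namespace Pool.Agent.Lib.MP_add2b9_al

open Matrix

/-- The local spectrum of the matrix `T` at the vector `x`: the set of all `l` such that `x` has a
nonzero component `y l` in the generalised eigenspace `ker (T - l) ^ n` in the decomposition
`x = ∑ y m` of `x` into vectors `y m ∈ ker (T - m) ^ n`. -/
def localSpectrum {n : ℕ} (T : Matrix (Fin n) (Fin n) ℂ) (x : Fin n → ℂ) : Set ℂ :=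
  {l : ℂ | ∃ y : ℂ →₀ (Fin n → ℂ),
    (∀ m : ℂ, ((T - m • (1 : Matrix (Fin n) (Fin n) ℂ)) ^ n) *ᵥ (y m) = 0) ∧
    (y.sum fun _ v => v) = x ∧ y l ≠ 0}

/-- The set of matrices `T` with `T x₀ ∈ ℂ x₀` and `(T - r) ^ 2 = s` for some `r`, `s`, `s ≠ 0`. -/
def exceptional {n : ℕ} (x0 : Fin n → ℂ) : Set (Matrix (Fin n) (Fin n) ℂ) :=
  {T | (∃ c : ℂ, T *ᵥ x0 = c • x0) ∧
    ∃ r s : ℂ, s ≠ 0 ∧ (T - r • (1 : Matrix (Fin n) (Fin n) ℂ)) ^ 2 =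
      s • (1 : Matrix (Fin n) (Fin n) ℂ)}

/-- Standard form: `φ T = ξ T • A T A⁻¹ + η T • 1` with `A` invertible, `A x₀ = x₀`, `ξ` taking
values in `{1, -1}` and constant off the exceptional set, `η` arbitrary. -/
def IsStandardForm {n : ℕ} (x0 : Fin n → ℂ)
    (φ : Matrix (Fin n) (Fin n) ℂ → Matrix (Fin n) (Fin n) ℂ) : Prop :=
  ∃ (A : Matrix (Fin n) (Fin n) ℂ) (η ξ : Matrix (Fin n) (Fin n) ℂ → ℂ),
    IsUnit A ∧ A *ᵥ x0 = x0 ∧
    (∀ T, ξ T = 1 ∨ ξ T = -1) ∧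
    (∀ T S, T ∉ exceptional x0 → S ∉ exceptional x0 → ξ T = ξ S) ∧
    ∀ T, φ T = ξ T • (A * T * A⁻¹) + η T • (1 : Matrix (Fin n) (Fin n) ℂ)

end Pool.Agent.Lib.MP_add2b9_al
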