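import Pool.Agent.Lib.MP_add2b9_al.E0

/-!
# A polynomial detecting matrices with full simple local spectrum
-/

namespace Pool.Agent.Lib.MP_add2b9_al

open Matrix Polynomial

variable {m : ℕ}

/-- Krylov matrix of the first basis vector -/
def kry {R : Type*} [CommRing R] (Z : Matrix (Fin (m + 2)) (Fin (m + 2)) R) :
    Matrix (Fin (m + 2)) (Fin (m + 2)) R :=
  Matrix.of fun i k => (Z ^ (k : ℕ)) i 0

/-- the detecting polynomial over any commutative ring -/
noncomputable def DR {R : Type*} [CommRing R] (Z : Matrix (Fin (m + 2)) (Fin (m + 2)) R) : R :=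
  (kry Z).det * (aeval Z (derivative Z.charpoly)).det

lemma DR_map {R S : Type*} [CommRing R] [CommRing S] (f : R →+* S)
    (Z : Matrix (Fin (m + 2)) (Fin (m + 2)) R) : DR (Z.map f) = f (DR Z) := by
  unfold DR
  rw [map_mul, RingHom.map_det, RingHom.map_det]
  congr 1
  · congr 1
    ext i k
    have h1 : (Z.map f) ^ (k : ℕ) = (Z ^ (k : ℕ)).map f := by
      have := (map_pow (RingHom.mapMatrix (m := Fin (m + 2)) f) Z (k : ℕ)).symm
      simpa using this
    simp [kry, h1]
  · congr 1
    rw [Matrix.charpoly_map, derivative_map]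
    have h := map_aeval_eq_aeval_map (R := R) (S := Matrix (Fin (m + 2)) (Fin (m + 2)) R) (T := S)
      (U := Matrix (Fin (m + 2)) (Fin (m + 2)) S) (φ := f)
      (ψ := RingHom.mapMatrix (m := Fin (m + 2)) f) (by
        ext r i j
        simp [Matrix.algebraMap_matrix_apply]
        split_ifs <;> simp) (derivative Z.charpoly) Z
    exact h.symm

/-- the detecting polynomial function -/
noncomputable def D (Z : Mat (m + 2)) : ℂ := DR Z

lemma D_linePoly : LinePoly (D (m := m)) := fun v w => by
  refine ⟨DR (lineMat v w), fun t => ?_⟩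
  have h := DR_map (evalRingHom t) (lineMat v w)
  rw [lineMat_map] at h
  exact h

lemma roots_subset (Z : Mat (m + 2)) {l : ℂ} (h : l ∈ localSpectrum Z e0) :
    l ∈ Z.charpoly.roots.toFinset := by
  rw [Multiset.mem_toFinset, mem_roots (Matrix.charpoly_monic Z).ne_zero]
  exact eval_charpoly_of_mem Z e0 h

lemma pow_vecMul {g : Fin (m + 2) → ℂ} {Z : Mat (m + 2)} {l : ℂ} (h : g ᵥ* Z = l • g) (k : ℕ) :
    g ᵥ* (Z ^ k) = l ^ k • g := by
  induction k with
  | zero => simp
  | succ k ih => rw [pow_succ, ← Matrix.vecMul_vecMul, ih, Matrix.smul_vecMul, h, smul_smul,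
      pow_succ]

lemma pow_mulVec {v : Fin (m + 2) → ℂ} {Z : Mat (m + 2)} {l : ℂ} (h : Z *ᵥ v = l • v) (k : ℕ) :
    (Z ^ k) *ᵥ v = l ^ k • v := by
  induction k with
  | zero => simp
  | succ k ih => rw [pow_succ', ← Matrix.mulVec_mulVec, ih, Matrix.mulVec_smul, h, smul_smul,
      pow_succ]

lemma aeval_mulVec_eigen {v : Fin (m + 2) → ℂ} {Z : Mat (m + 2)} {l : ℂ} (h : Z *ᵥ v = l • v)
    (p : ℂ[X]) : (aeval Z p) *ᵥ v = p.eval l • v := by
  induction p using Polynomial.induction_on' with
  | add p q hp hq => rw [map_add, Matrix.add_mulVec, hp, hq, eval_add, add_smul]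
  | monomial k a =>
    rw [aeval_monomial, eval_monomial, Algebra.algebraMap_eq_smul_one, smul_mul_assoc, one_mul,
      Matrix.smul_mulVec, pow_mulVec h, smul_smul]

/-- `D Z ≠ 0` implies that the local spectrum consists of `m + 2` points, namely the roots of the
characteristic polynomial. -/
lemma full_of_D_ne_zero (Z : Mat (m + 2)) (hD : D Z ≠ 0) :
    (Z.charpoly.roots.toFinset : Set ℂ) = localSpectrum Z e0 ∧
      Z.charpoly.roots.toFinset.card = m + 2 := by
  have hD1 : (kry Z).det ≠ 0 := left_ne_zero_of_mul hD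
  have hD2 : (aeval Z (derivative Z.charpoly)).det ≠ 0 := right_ne_zero_of_mul hD
  have hmon := Matrix.charpoly_monic Z
  have hdeg : Z.charpoly.natDegree = m + 2 := by
    rw [Matrix.charpoly_natDegree_eq_dim, Fintype.card_fin]
  constructor
  · ext l
    constructor
    · intro hl
      have hl' : Z.charpoly.eval l = 0 := by
        have := Multiset.mem_toFinset.1 (Finset.mem_coe.1 hl)
        rw [mem_roots hmon.ne_zero] at this
        exact this
      rw [Matrix.eval_charpoly] at hl'
      obtain ⟨g, hg0, hg⟩ := Matrix.exists_vecMul_eq_zero_iff.2 hl'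
      have hgZ : g ᵥ* Z = l • g := by
        rw [Matrix.vecMul_sub, sub_eq_zero] at hg
        rw [← hg]
        ext i
        simp [Matrix.vecMul, dotProduct, Matrix.scalar_apply, Matrix.diagonal_apply, mul_comm]
      apply mem_of_left_eigen Z hgZ
      intro h0
      have hg00 : g 0 = 0 := by simpa [e0] using h0
      apply hD1
      rw [← Matrix.exists_vecMul_eq_zero_iff]
      refine ⟨g, hg0, ?_⟩
      ext k
      have h1 : (g ᵥ* kry Z) k = (g ᵥ* (Z ^ (k : ℕ))) 0 := by
        simp [Matrix.vecMul, dotProduct, kry]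
      rw [h1, pow_vecMul hgZ]
      simp [hg00]
    · intro hl
      exact roots_subset Z hl
  · have hsplit := IsAlgClosed.splits Z.charpoly
    have hsep : Z.charpoly.Separable := by
      rw [Polynomial.Separable, isCoprime_iff_aeval_ne_zero_of_isAlgClosed (k := ℂ) ℂ]
      intro a
      by_contra hcon
      simp only [not_or, not_not] at hcon
      obtain ⟨h1, h2⟩ := hcon
      rw [coe_aeval_eq_eval] at h1 h2
      rw [Matrix.eval_charpoly] at h1
      obtain ⟨v, hv0, hv⟩ := Matrix.exists_mulVec_eq_zero_iff.2 h1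
      have hvZ : Z *ᵥ v = a • v := by
        rw [Matrix.sub_mulVec, sub_eq_zero] at hv
        rw [← hv]
        ext i
        simp [Matrix.mulVec, dotProduct, Matrix.scalar_apply, Matrix.diagonal_apply]
      apply hD2
      rw [← Matrix.exists_mulVec_eq_zero_iff]
      refine ⟨v, hv0, ?_⟩
      rw [aeval_mulVec_eigen hvZ, h2, zero_smul]
    rw [Multiset.toFinset_card_of_nodup (nodup_roots hsep), ← hsplit.natDegree_eq_card_roots, hdeg]

/-- If the local spectrum contains `m + 2` points then they are all the roots of the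
characteristic polynomial. -/
lemma charpoly_eq_of_full (Z : Mat (m + 2)) (s : Finset ℂ) (hs : s.card = m + 2)
    (hsub : ∀ l ∈ s, l ∈ localSpectrum Z e0) :
    Z.charpoly = ∏ l ∈ s, (X - C l) := by
  have hmon := Matrix.charpoly_monic Z
  have hdeg : Z.charpoly.natDegree = m + 2 := by
    rw [Matrix.charpoly_natDegree_eq_dim, Fintype.card_fin]
  have hsplit := IsAlgClosed.splits Z.charpoly
  have hle : s.val ≤ Z.charpoly.roots := by
    rw [Multiset.le_iff_subset s.nodup]
    intro l hl
    rw [mem_roots hmon.ne_zero]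
    exact eval_charpoly_of_mem Z e0 (hsub l hl)
  have heq : s.val = Z.charpoly.roots := by
    apply Multiset.eq_of_le_of_card_le hle
    rw [← hsplit.natDegree_eq_card_roots, hdeg]
    exact le_of_eq hs.symm
  have h1 := hsplit.eq_prod_roots_of_monic hmon
  rw [← heq] at h1
  rw [h1]
  rfl

lemma D_ne_zero_of_full (Z : Mat (m + 2)) (s : Finset ℂ) (hs : s.card = m + 2)
    (hsub : ∀ l ∈ s, l ∈ localSpectrum Z e0) : D Z ≠ 0 := by
  have hprod := charpoly_eq_of_full Z s hs hsub
  have hcop : IsCoprime Z.charpoly (derivative Z.charpoly) := by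
    have : (∏ l ∈ s, (X - C l)).Separable :=
      Polynomial.separable_prod_X_sub_C_iff'.2 (fun a _ b _ h => h)
    rw [hprod]
    exact this
  unfold D DR
  refine mul_ne_zero ?_ ?_
  · intro h0
    obtain ⟨c, hc0, hc⟩ := Matrix.exists_mulVec_eq_zero_iff.2 h0
    -- the polynomial with coefficients c
    set p : ℂ[X] := ∑ k : Fin (m + 2), monomial (k : ℕ) (c k) with hp
    have hpZ : (aeval Z p) *ᵥ e0 = 0 := by
      ext i
      have h1 := congrFun hc i
      rw [hp, map_sum, Matrix.sum_mulVec]
      simp only [aeval_monomial, Algebra.algebraMap_eq_smul_one, smul_mul_assoc, one_mul,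
        Matrix.smul_mulVec, Finset.sum_apply, Pi.smul_apply, smul_eq_mul, Pi.zero_apply]
      rw [Pi.zero_apply] at h1
      rw [← h1]
      simp only [Matrix.mulVec, dotProduct, kry, Matrix.of_apply]
      apply Finset.sum_congr rfl
      intro k _
      have : ∑ x, (Z ^ (k : ℕ)) i x * (e0 : Fin (m + 2) → ℂ) x = (Z ^ (k : ℕ)) i 0 := by
        rw [Finset.sum_eq_single 0]
        · simp [e0]
        · intro b _ hb
          simp [e0, hb]
        · simp
      rw [this, mul_comm]
    have hp0 : p = 0 := by
      by_contra hne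
      have hdeg : p.natDegree < m + 2 := by
        rw [hp]
        refine lt_of_le_of_lt (Polynomial.natDegree_sum_le_of_forall_le _ _ (n := m + 1) ?_)
          (by omega)
        intro k _
        refine le_trans (natDegree_monomial_le _) ?_
        omega
      have hroots : s.val ≤ p.roots := by
        rw [Multiset.le_iff_subset s.nodup]
        intro l hl
        rw [mem_roots hne]
        exact (mem_localSpectrum_iff Z e0 l).1 (hsub l hl) p hpZ
      have h2 := Multiset.card_le_card hroots
      have h3 := Polynomial.card_roots' p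
      have h4 : Multiset.card s.val = m + 2 := hs
      omega
    apply hc0
    ext k
    have h1 := congrArg (fun q => coeff q (k : ℕ)) hp0
    simp only [hp, finsetSum_coeff, coeff_monomial, coeff_zero] at h1
    rw [Finset.sum_eq_single k] at h1
    · simpa using h1
    · intro b _ hb
      rw [if_neg]
      intro h
      exact hb (Fin.ext h)
    · simp
  · intro h0
    obtain ⟨v, hv0, hv⟩ := Matrix.exists_mulVec_eq_zero_iff.2 h0
    apply hv0
    apply eq_zero_of_coprime Z hcop _ hv
    rw [Matrix.aeval_self_charpoly]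
    simp

/-- the trace of the square is determined by the characteristic polynomial -/
lemma trace_sq_eq (Z Z' : Mat (m + 2)) (h : Z.charpoly = Z'.charpoly) :
    (Z * Z).trace = (Z' * Z').trace := by
  have key : ∀ (Y : Mat (m + 2)) (t : ℂ), (Y * Y).charpoly.eval (t * t) =
      Y.charpoly.eval t * ((-1) ^ (m + 2) * Y.charpoly.eval (-t)) := by
    intro Y t
    rw [Matrix.eval_charpoly, Matrix.eval_charpoly, Matrix.eval_charpoly]
    have h1 : Matrix.scalar (Fin (m + 2)) (t * t) - Y * Y =
        (Matrix.scalar (Fin (m + 2)) t - Y) * (-(Matrix.scalar (Fin (m + 2)) (-t) - Y)) := by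
      have e1 : Matrix.scalar (Fin (m + 2)) t * Y = Y * Matrix.scalar (Fin (m + 2)) t :=
        (Matrix.scalar_commute t (fun r => mul_comm _ _) Y)
      have e2 : Matrix.scalar (Fin (m + 2)) (-t) = -Matrix.scalar (Fin (m + 2)) t := by
        rw [map_neg]
      rw [map_mul, e2]
      noncomm_ring
      rw [e1]
      abel
    rw [h1, Matrix.det_mul, Matrix.det_neg, Fintype.card_fin]
  have hch : (Z * Z).charpoly = (Z' * Z').charpoly := by
    apply Polynomial.funext
    intro r
    obtain ⟨t, ht⟩ := IsAlgClosed.exists_pow_nat_eq r (n := 2) (by norm_num)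
    rw [← ht, sq, key, key, h]
  rw [Matrix.trace_eq_neg_charpoly_coeff, Matrix.trace_eq_neg_charpoly_coeff, hch]

/-- preservation of the trace of the square -/
lemma trace_sq_of_localSpectrum_eq (Z Z' : Mat (m + 2)) (hD : D Z ≠ 0)
    (h : localSpectrum Z' e0 = localSpectrum Z e0) : (Z' * Z').trace = (Z * Z).trace := by
  obtain ⟨h1, h2⟩ := full_of_D_ne_zero Z hD
  apply trace_sq_eq
  rw [charpoly_eq_of_full Z _ h2 (fun l hl => by rw [← h1]; exact hl),
    charpoly_eq_of_full Z' _ h2 (fun l hl => by rw [h, ← h1]; exact hl)]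

lemma D_ne_zero_of_localSpectrum_eq (Z Z' : Mat (m + 2)) (hD : D Z ≠ 0)
    (h : localSpectrum Z' e0 = localSpectrum Z e0) : D Z' ≠ 0 := by
  obtain ⟨h1, h2⟩ := full_of_D_ne_zero Z hD
  exact D_ne_zero_of_full Z' _ h2 (fun l hl => by rw [h, ← h1]; exact hl)

/-! ### an explicit pair -/

/-- the diagonal matrix `0, 1, …, m + 1` -/
noncomputable def Tz : Mat (m + 2) := Matrix.diagonal fun i => ((i : ℕ) : ℂ)

/-- solves `[Tz, Sz] = ` cyclic shift -/
noncomputable def Sz : Mat (m + 2) := Matrix.of fun i j =>
  if i = j + 1 then (((i : ℕ) : ℂ) - ((j : ℕ) : ℂ))⁻¹ else 0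

lemma br_Tz_Sz : br (Tz (m := m)) Sz = Matrix.of fun i j => if i = j + 1 then (1 : ℂ) else 0 := by
  ext i j
  simp only [br, Tz, Sz, Matrix.sub_apply, Matrix.diagonal_mul, Matrix.mul_diagonal,
    Matrix.of_apply]
  split_ifs with h
  · have hne : (((i : ℕ) : ℂ) - ((j : ℕ) : ℂ)) ≠ 0 := by
      rw [sub_ne_zero]
      intro h1
      have h2 : (i : ℕ) = (j : ℕ) := by exact_mod_cast h1
      have h3 : i = j := Fin.ext h2
      rw [h3] at h
      have h4 : (1 : Fin (m + 2)) = 0 := by
        have := congrArg (fun x => x - j) h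
        simpa using this.symm
      exact absurd h4 (by simp)
    field_simp
  · simp

lemma D_br_Tz_Sz : D (br (Tz (m := m)) Sz) ≠ 0 := by
  have hprim := Complex.isPrimitiveRoot_exp (m + 2) (by omega)
  apply D_ne_zero_of_full _ (nthRootsFinset (m + 2) (1 : ℂ)) hprim.card_nthRootsFinset
  intro z hz
  rw [mem_nthRootsFinset (by omega)] at hz
  apply mem_of_left_eigen (g := fun i => z ^ (i : ℕ))
  · rw [br_Tz_Sz]
    ext j
    simp only [Matrix.vecMul, dotProduct, Matrix.of_apply, mul_ite, mul_one, mul_zero,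
      Finset.sum_ite_eq', Finset.mem_univ, if_true, Pi.smul_apply, smul_eq_mul]
    by_cases hj : (j : ℕ) + 1 < m + 2
    · have : ((j + 1 : Fin (m + 2)) : ℕ) = j + 1 := by
        rw [Fin.val_add_one_of_lt' hj]
      rw [this, pow_succ, mul_comm]
    · have hj' : (j : ℕ) = m + 1 := by omega
      have : (j + 1 : Fin (m + 2)) = 0 := by
        apply Fin.ext
        rw [Fin.val_add, hj']
        simp
      rw [this, hj']
      simp only [Fin.val_zero, pow_zero]
      rw [← hz]
      ring
  · simp [e0]

end Pool.Agent.Lib.MP_add2b9_al
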