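import Pool.Agent.Lib.MP_add2b9_al.LinePoly

namespace Pool.Agent.Lib.MP_add2b9_al

/-- the base vector -/
def e0 {m : ℕ} : Fin (m + 2) → ℂ := Pi.single 0 1

end Pool.Agent.Lib.MP_add2b9_al
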