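import Pool.Agent.Lib.MP_add2b9_al.Forms
import Pool.Agent.Lib.MP_add2b9_al.E0

/-!
# Matrices `Y` for which `[Y, S]` has a single local eigenvalue at `e₀`, depending linearly on `S`
-/

namespace Pool.Agent.Lib.MP_add2b9_al

open Matrix

variable {m : ℕ}

namespace Five

lemma dot_e0 (f : Fin (m + 2) → ℂ) : f ⬝ᵥ (e0 : Fin (m + 2) → ℂ) = f 0 := by
  simp [e0]

lemma e0_dot (f : Fin (m + 2) → ℂ) : (e0 : Fin (m + 2) → ℂ) ⬝ᵥ f = f 0 := by
  simp [e0]

lemma mulVec_e0 (T : Mat (m + 2)) (i : Fin (m + 2)) : (T *ᵥ e0) i = T i 0 := by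
  simp [e0]

lemma e0_ne_zero : (e0 : Fin (m + 2) → ℂ) ≠ 0 := by
  intro h
  have := congrFun h 0
  simp [e0] at this

/-- powers of `Z - l` on an eigenvector -/
lemma sub_pow_eigen {n : ℕ} (Z : Mat n) {v : Fin n → ℂ} {d : ℂ} (h : Z *ᵥ v = d • v) (l : ℂ) (k : ℕ) :
    ((Z - l • (1 : Mat n)) ^ k) *ᵥ v = (d - l) ^ k • v := by
  induction k with
  | zero => simp
  | succ k ih =>
    rw [pow_succ', ← Matrix.mulVec_mulVec, ih, Matrix.mulVec_smul, Matrix.sub_mulVec,
      Matrix.smul_mulVec, Matrix.one_mulVec, h, ← sub_smul, smul_smul, pow_succ]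

/-- powers of `Z - l` on a left eigenvector -/
lemma left_sub_pow_eigen {n : ℕ} (Z : Mat n) {g : Fin n → ℂ} {d : ℂ} (h : g ᵥ* Z = d • g) (l : ℂ)
    (k : ℕ) : g ᵥ* ((Z - l • (1 : Mat n)) ^ k) = (d - l) ^ k • g := by
  induction k with
  | zero => simp
  | succ k ih =>
    rw [pow_succ, ← Matrix.vecMul_vecMul, ih, Matrix.smul_vecMul, Matrix.vecMul_sub,
      Matrix.vecMul_smul, Matrix.vecMul_one, h, ← sub_smul, smul_smul, pow_succ]

lemma br_vecMulVec {n : ℕ} (Y : Mat n) (u g : Fin n → ℂ) :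
    br Y (vecMulVec u g) = vecMulVec (Y *ᵥ u) g - vecMulVec u (g ᵥ* Y) := by
  unfold br
  rw [Matrix.mul_vecMulVec, Matrix.vecMulVec_mul]

lemma vecMulVec_mulVec' {n : ℕ} (u g v : Fin n → ℂ) : vecMulVec u g *ᵥ v = (g ⬝ᵥ v) • u := by
  ext i
  simp only [Matrix.mulVec, vecMulVec_apply, dotProduct, Finset.sum_mul, Pi.smul_apply, smul_eq_mul]
  apply Finset.sum_congr rfl
  intro j _
  ring

lemma vecMul_vecMulVec' {n : ℕ} (u g v : Fin n → ℂ) : v ᵥ* vecMulVec u g = (v ⬝ᵥ u) • g := by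
  ext i
  simp only [Matrix.vecMul, vecMulVec_apply, dotProduct, Finset.sum_mul, Pi.smul_apply, smul_eq_mul]
  apply Finset.sum_congr rfl
  intro j _
  ring

variable {Y : Mat (m + 2)} {l : Mat (m + 2) →ₗ[ℂ] ℂ}

/-- step (i): `Y e₀` is a multiple of `e₀`. -/
lemma step_i (h : ∀ S, ((br Y S - l S • (1 : Mat (m + 2))) ^ (m + 2)) *ᵥ e0 = 0) :
    ∀ i, i ≠ 0 → Y i 0 = 0 := by
  intro i hi
  by_contra hyi
  -- the discriminant vanishes
  have key : ∀ g : Fin (m + 2) → ℂ, g 0 = 1 →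
      (g ⬝ᵥ (Y *ᵥ e0)) ^ 2 = g ⬝ᵥ (Y *ᵥ (Y *ᵥ e0)) := by
    intro g hg
    set y := Y *ᵥ (e0 : Fin (m + 2) → ℂ) with hy
    set Z := br Y (vecMulVec e0 g) with hZ
    have hge : g ⬝ᵥ (e0 : Fin (m + 2) → ℂ) = 1 := by rw [dot_e0, hg]
    have hZe : Z *ᵥ e0 = y - (g ⬝ᵥ y) • e0 := by
      rw [hZ, br_vecMulVec, Matrix.sub_mulVec, vecMulVec_mulVec', vecMulVec_mulVec', hge,
        ← Matrix.dotProduct_mulVec, one_smul]
    have hZy : Z *ᵥ y = (g ⬝ᵥ y) • y - (g ⬝ᵥ (Y *ᵥ y)) • e0 := by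
      rw [hZ, br_vecMulVec, Matrix.sub_mulVec, vecMulVec_mulVec', vecMulVec_mulVec',
        ← Matrix.dotProduct_mulVec]
    obtain ⟨d, hd⟩ := IsAlgClosed.exists_pow_nat_eq ((g ⬝ᵥ y) ^ 2 - g ⬝ᵥ (Y *ᵥ y)) (n := 2)
      (by norm_num)
    have hZZ : Z *ᵥ (Z *ᵥ e0) = (d ^ 2) • e0 := by
      rw [hZe, Matrix.mulVec_sub, Matrix.mulVec_smul, hZy, hZe, hd]
      rw [smul_sub, smul_smul, sub_smul]
      rw [pow_two]
      abel
    -- the two eigenvectors
    have hev : ∀ c : ℂ, c ^ 2 = d ^ 2 → Z *ᵥ (Z *ᵥ e0 + c • e0) = c • (Z *ᵥ e0 + c • e0) := by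
      intro c hc
      rw [Matrix.mulVec_add, Matrix.mulVec_smul, hZZ, ← hc, smul_add, smul_smul, pow_two]
      abel
    have hne : ∀ c : ℂ, Z *ᵥ e0 + c • (e0 : Fin (m + 2) → ℂ) ≠ 0 := by
      intro c hc
      have h1 := congrFun hc i
      rw [hZe] at h1
      simp only [Pi.add_apply, Pi.sub_apply, Pi.smul_apply, smul_eq_mul, Pi.zero_apply] at h1
      rw [hy, mulVec_e0] at h1
      have h2 : (e0 : Fin (m + 2) → ℂ) i = 0 := by simp [e0, hi]
      rw [h2] at h1
      apply hyi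
      linear_combination h1
    have hpow : ∀ c : ℂ, c ^ 2 = d ^ 2 → c = l (vecMulVec e0 g) := by
      intro c hc
      have h1 := sub_pow_eigen Z (hev c hc) (l (vecMulVec e0 g)) (m + 2)
      have h2 : ((Z - l (vecMulVec e0 g) • (1 : Mat (m + 2))) ^ (m + 2)) *ᵥ
          (Z *ᵥ e0 + c • e0) = 0 := by
        have h3 : Z *ᵥ e0 + c • e0 = (Z + c • (1 : Mat (m + 2))) *ᵥ (e0 : Fin (m + 2) → ℂ) := by
          rw [Matrix.add_mulVec, Matrix.smul_mulVec, Matrix.one_mulVec]
        have h4 : (Z - l (vecMulVec e0 g) • (1 : Mat (m + 2))) ^ (m + 2) *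
            (Z + c • (1 : Mat (m + 2))) = (Z + c • (1 : Mat (m + 2))) *
              (Z - l (vecMulVec e0 g) • (1 : Mat (m + 2))) ^ (m + 2) := by
          apply Commute.pow_left
          have hcz : Commute Z (c • (1 : Mat (m + 2))) := (Commute.one_right Z).smul_right c
          have hlz : Commute (l (vecMulVec e0 g) • (1 : Mat (m + 2))) (Z + c • (1 : Mat (m + 2))) :=
            (Commute.one_left _).smul_left _
          exact ((Commute.refl Z).add_right hcz).sub_left hlz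
        rw [h3, Matrix.mulVec_mulVec, h4, ← Matrix.mulVec_mulVec, hZ, h, Matrix.mulVec_zero]
      rw [h2] at h1
      have h5 := (smul_eq_zero.1 h1.symm).resolve_right (hne c)
      exact sub_eq_zero.1 (eq_zero_of_pow_eq_zero h5)
    have h1 := hpow d rfl
    have h2 := hpow (-d) (by ring)
    have h3 : d = 0 := by
      have h4 : d = -d := by rw [h2]; exact h1
      have h5 : (2 : ℂ) * d = 0 := by linear_combination h4
      exact (mul_eq_zero.1 h5).resolve_left two_ne_zero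
    rw [h3] at hd
    linear_combination -hd
  -- specialise
  set y := Y *ᵥ (e0 : Fin (m + 2) → ℂ) with hy
  have hyi' : y i ≠ 0 := by rw [hy, mulVec_e0]; exact hyi
  set g1 : Fin (m + 2) → ℂ := (y i)⁻¹ • Pi.single i 1 with hg1
  set g0 : Fin (m + 2) → ℂ := Pi.single 0 1 - (y 0) • g1 with hg0
  have e1 : g1 ⬝ᵥ y = 1 := by
    rw [hg1, smul_dotProduct, single_one_dotProduct, smul_eq_mul, inv_mul_cancel₀ hyi']
  have e2 : g0 ⬝ᵥ y = 0 := by
    rw [hg0, sub_dotProduct, smul_dotProduct, e1, single_one_dotProduct, smul_eq_mul, mul_one,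
      sub_self]
  have e3 : g1 0 = 0 := by simp [hg1, hi.symm]
  have e4 : g0 0 = 1 := by simp [hg0, e3]
  have hk : ∀ c : ℂ, c ^ 2 = g0 ⬝ᵥ (Y *ᵥ y) + c * (g1 ⬝ᵥ (Y *ᵥ y)) := by
    intro c
    have h1 := key (g0 + c • g1) (by simp [e3, e4])
    rw [add_dotProduct g0 (c • g1) y, add_dotProduct, smul_dotProduct c g1 y,
      smul_dotProduct c g1, e1, e2, smul_eq_mul, smul_eq_mul, mul_one, zero_add] at h1
    exact h1
  have k0 := hk 0
  have k1 := hk 1
  have k2 := hk (-1)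
  have : (2 : ℂ) = 0 := by linear_combination k1 + k2 - 2 * k0
  exact two_ne_zero this

/-- **Lemma.** -/
theorem five (hl : l ≠ 0)
    (h : ∀ S, ((br Y S - l S • (1 : Mat (m + 2))) ^ (m + 2)) *ᵥ e0 = 0) :
    ∃ (f : Fin (m + 2) → ℂ) (c : ℂ), f ≠ 0 ∧ f ⬝ᵥ (e0 : Fin (m + 2) → ℂ) = 0 ∧
      Y = vecMulVec e0 f + c • 1 ∧ ∀ S, l S = f ⬝ᵥ (S *ᵥ e0) := by
  have hY := step_i h
  set α := Y 0 0 with hα
  set Y1 : Mat (m + 2) := Y - α • 1 with hY1
  have hY1e : Y1 *ᵥ (e0 : Fin (m + 2) → ℂ) = 0 := by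
    ext i
    rw [mulVec_e0, hY1, Matrix.sub_apply, Matrix.smul_apply, Matrix.one_apply]
    by_cases hi : i = 0
    · subst hi; simp [hα]
    · rw [hY i hi]; simp [hi]
  have hYY1 : Y = Y1 + α • 1 := by rw [hY1]; abel
  have hbr : ∀ S, br Y S = br Y1 S := by
    intro S
    rw [hYY1, br_add_scalar_left]
  -- (ii)
  have hl0 : ∀ S : Mat (m + 2), S *ᵥ (e0 : Fin (m + 2) → ℂ) = 0 → l S = 0 := by
    intro S hS
    have h1 := h S
    have h2 : br Y S *ᵥ (e0 : Fin (m + 2) → ℂ) = (0 : ℂ) • e0 := by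
      rw [hbr]
      unfold br
      rw [Matrix.sub_mulVec, ← Matrix.mulVec_mulVec, ← Matrix.mulVec_mulVec, hS, hY1e]
      simp
    rw [sub_pow_eigen _ h2] at h1
    have h3 := (smul_eq_zero.1 h1).resolve_right e0_ne_zero
    have h4 := eq_zero_of_pow_eq_zero h3
    linear_combination -h4
  have hl1 : l 1 = 0 := by
    have h1 := h 1
    have h2 : br Y 1 *ᵥ (e0 : Fin (m + 2) → ℂ) = (0 : ℂ) • e0 := by
      rw [br_one_right]; simp
    rw [sub_pow_eigen _ h2] at h1
    have h3 := (smul_eq_zero.1 h1).resolve_right e0_ne_zero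
    have h4 := eq_zero_of_pow_eq_zero h3
    linear_combination -h4
  set f : Fin (m + 2) → ℂ := fun i => l (vecMulVec (Pi.single i 1) e0) with hf
  have hlf : ∀ S, l S = f ⬝ᵥ (S *ᵥ e0) := by
    intro S
    have h1 : l (S - vecMulVec (S *ᵥ e0) e0) = 0 := by
      apply hl0
      rw [Matrix.sub_mulVec, vecMulVec_mulVec', e0_dot]
      simp [e0]
    rw [map_sub, sub_eq_zero] at h1
    rw [h1]
    have h2 : vecMulVec (S *ᵥ (e0 : Fin (m + 2) → ℂ)) (e0 : Fin (m + 2) → ℂ) =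
        ∑ i, (S *ᵥ (e0 : Fin (m + 2) → ℂ)) i •
          vecMulVec (Pi.single i 1) (e0 : Fin (m + 2) → ℂ) := by
      ext a b
      rw [Matrix.sum_apply]
      simp only [Matrix.smul_apply, vecMulVec_apply, smul_eq_mul]
      rw [Finset.sum_eq_single a]
      · simp
      · intro b _ hb
        simp [Pi.single_apply, hb.symm]
      · simp
    rw [h2, map_sum]
    simp only [map_smul, smul_eq_mul, dotProduct, hf]
    apply Finset.sum_congr rfl
    intro i _
    ring
  have hf0 : f 0 = 0 := by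
    have h1 := hlf 1
    rw [hl1, Matrix.one_mulVec, dot_e0] at h1
    exact h1.symm
  have hfne : f ≠ 0 := by
    intro h0
    apply hl
    ext S
    rw [hlf, h0]
    simp
  -- (iii)
  have hmain : ∀ u : Fin (m + 2) → ℂ, f ⬝ᵥ u ≠ 0 → Y1 *ᵥ u = (f ⬝ᵥ u) • e0 := by
    intro u hu
    obtain ⟨i0, hi0, hui0⟩ : ∃ i0, i0 ≠ 0 ∧ u i0 ≠ 0 := by
      by_contra hcon
      simp only [not_exists, not_and, not_not] at hcon
      apply hu
      rw [dotProduct]
      apply Finset.sum_eq_zero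
      intro i _
      by_cases hi : i = 0
      · rw [hi, hf0, zero_mul]
      · rw [hcon i hi, mul_zero]
    set a := f ⬝ᵥ u with ha
    set w := Y1 *ᵥ u with hw
    -- the value of the functionals `g`
    have hg : ∀ g : Fin (m + 2) → ℂ, g 0 = 1 → g ⬝ᵥ u = 0 → g ⬝ᵥ w = a := by
      intro g hg0 hgu
      have h1 : g ᵥ* (br Y (vecMulVec u g)) = (g ⬝ᵥ w) • g := by
        rw [hbr, br_vecMulVec, Matrix.vecMul_sub, vecMul_vecMulVec', vecMul_vecMulVec', hgu,
          zero_smul, sub_zero]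
      have h2 := left_sub_pow_eigen _ h1 (l (vecMulVec u g)) (m + 2)
      have h3 := h (vecMulVec u g)
      have h4 : g ⬝ᵥ (((br Y (vecMulVec u g) - l (vecMulVec u g) • (1 : Mat (m + 2))) ^ (m + 2)) *ᵥ
          (e0 : Fin (m + 2) → ℂ)) = 0 := by rw [h3, dotProduct_zero]
      rw [Matrix.dotProduct_mulVec, h2, smul_dotProduct, dot_e0, hg0, smul_eq_mul, mul_one] at h4
      have h5 := eq_zero_of_pow_eq_zero h4
      rw [hlf, vecMulVec_mulVec', dot_e0, hg0, one_smul] at h5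
      exact sub_eq_zero.1 h5
    set g0 : Fin (m + 2) → ℂ := Pi.single 0 1 - (u 0 / u i0) • Pi.single i0 1 with hg0
    have g00 : g0 0 = 1 := by simp [hg0, hi0.symm]
    have g0u : g0 ⬝ᵥ u = 0 := by
      rw [hg0, sub_dotProduct, smul_dotProduct, single_one_dotProduct, single_one_dotProduct,
        smul_eq_mul, div_mul_cancel₀ _ hui0, sub_self]
    set β := w i0 / u i0 with hβ
    have hwi : ∀ i, i ≠ 0 → w i = β * u i := by
      intro i hi
      have h1 := hg (g0 + (u i0 • Pi.single i 1 - u i • Pi.single i0 1)) (by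
        simp [g00, hi.symm, hi0.symm]) (by
        rw [add_dotProduct, g0u, sub_dotProduct, smul_dotProduct, smul_dotProduct,
          single_one_dotProduct, single_one_dotProduct, smul_eq_mul, smul_eq_mul]
        ring)
      rw [add_dotProduct, hg g0 g00 g0u, sub_dotProduct, smul_dotProduct, smul_dotProduct,
        single_one_dotProduct, single_one_dotProduct, smul_eq_mul, smul_eq_mul] at h1
      rw [hβ]
      field_simp
      linear_combination h1
    have hw0 : w 0 - β * u 0 = a := by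
      have h1 := hg g0 g00 g0u
      rw [hg0, sub_dotProduct, smul_dotProduct, single_one_dotProduct, single_one_dotProduct,
        smul_eq_mul] at h1
      rw [← h1, hβ]
      field_simp
    have hwe : w = a • e0 + β • u := by
      ext i
      by_cases hi : i = 0
      · subst hi
        simp only [Pi.add_apply, Pi.smul_apply, smul_eq_mul, e0, Pi.single_eq_same]
        linear_combination hw0
      · simp only [Pi.add_apply, Pi.smul_apply, smul_eq_mul, e0]
        rw [hwi i hi]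
        simp [hi]
    -- kill `β`
    set Z := br Y (vecMulVec u g0) with hZ
    have hlZ : l (vecMulVec u g0) = a := by
      rw [hlf, vecMulVec_mulVec', dot_e0, g00, one_smul]
    have hZe : Z *ᵥ e0 = a • e0 + β • u := by
      rw [hZ, hbr, br_vecMulVec, Matrix.sub_mulVec, vecMulVec_mulVec', vecMulVec_mulVec', dot_e0,
        g00, ← Matrix.dotProduct_mulVec, hY1e, dotProduct_zero, zero_smul, one_smul, sub_zero,
        ← hw, hwe]
    have hZu : Z *ᵥ u = (-a) • u := by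
      rw [hZ, hbr, br_vecMulVec, Matrix.sub_mulVec, vecMulVec_mulVec', vecMulVec_mulVec', g0u,
        ← Matrix.dotProduct_mulVec, ← hw, hg g0 g00 g0u, zero_smul, zero_sub, neg_smul]
    have h1 := h (vecMulVec u g0)
    rw [← hZ, hlZ, pow_succ, ← Matrix.mulVec_mulVec, Matrix.sub_mulVec (A := Z),
      Matrix.smul_mulVec, Matrix.one_mulVec, hZe, add_sub_cancel_left, Matrix.mulVec_smul,
      sub_pow_eigen Z hZu, smul_smul] at h1
    have hune : u ≠ 0 := by
      intro h0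
      apply hui0
      rw [h0]; rfl
    have h2 := (smul_eq_zero.1 h1).resolve_right hune
    have h3 : (-a - a) ^ (m + 1) ≠ 0 := by
      apply pow_ne_zero
      intro h0
      apply hu
      have h4 : (2 : ℂ) * a = 0 := by linear_combination -h0
      exact (mul_eq_zero.1 h4).resolve_left two_ne_zero
    have h4 : β = 0 := (mul_eq_zero.1 h2).resolve_right h3
    rw [hwe, h4, zero_smul, add_zero]
  obtain ⟨i1, hi1⟩ := Function.ne_iff.1 hfne
  set u1 : Fin (m + 2) → ℂ := Pi.single i1 1 with hu1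
  have hfu1 : f ⬝ᵥ u1 ≠ 0 := by
    rw [hu1, dotProduct_single_one]; exact hi1
  have hall : ∀ u : Fin (m + 2) → ℂ, Y1 *ᵥ u = (f ⬝ᵥ u) • e0 := by
    intro u
    by_cases hu : f ⬝ᵥ u = 0
    · have h1 := hmain (u + u1) (by rw [dotProduct_add, hu, zero_add]; exact hfu1)
      rw [Matrix.mulVec_add, hmain u1 hfu1, dotProduct_add, add_smul] at h1
      exact add_right_cancel h1
    · exact hmain u hu
  refine ⟨f, α, hfne, by rw [dot_e0, hf0], ?_, hlf⟩
  rw [hYY1]
  congr 1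
  ext i j
  have h1 := congrFun (hall (Pi.single j 1)) i
  rw [Matrix.mulVec_single_one, dotProduct_single_one, Pi.smul_apply, smul_eq_mul] at h1
  rw [vecMulVec_apply]
  have h2 : Y1 i j = f j * (e0 : Fin (m + 2) → ℂ) i := h1
  rw [h2]; ring

end Five

end Pool.Agent.Lib.MP_add2b9_al
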