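import Pool.Agent.Lib.MP_add2b9_al.Disc

/-!
# The bilinear forms `(T, T') ↦ tr([T, S] [T', S])` and their span
-/

namespace Pool.Agent.Lib.MP_add2b9_al

open Matrix Polynomial

variable {m : ℕ}

lemma br_add_left (A B S : Mat m) : br (A + B) S = br A S + br B S := by
  unfold br; noncomm_ring

lemma br_add_right (A S T : Mat m) : br A (S + T) = br A S + br A T := by
  unfold br; noncomm_ring

lemma br_smul_left (c : ℂ) (A S : Mat m) : br (c • A) S = c • br A S := by
  unfold br
  rw [Matrix.smul_mul, Matrix.mul_smul, smul_sub]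

lemma br_smul_right (c : ℂ) (A S : Mat m) : br A (c • S) = c • br A S := by
  unfold br
  rw [Matrix.smul_mul, Matrix.mul_smul, smul_sub]

lemma br_neg (A S : Mat m) : br S A = - br A S := by
  unfold br; noncomm_ring

lemma br_one_left (S : Mat m) : br 1 S = 0 := by
  unfold br; simp

lemma br_one_right (S : Mat m) : br S 1 = 0 := by
  unfold br; simp

lemma br_add_scalar_left (A S : Mat m) (c : ℂ) : br (A + c • 1) S = br A S := by
  rw [br_add_left, br_smul_left, br_one_left, smul_zero, add_zero]

lemma br_add_scalar_right (A S : Mat m) (c : ℂ) : br A (S + c • 1) = br A S := by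
  rw [br_add_right, br_smul_right, br_one_right, smul_zero, add_zero]

/-- commutator with a fixed right argument, as a linear map -/
def brL (S : Mat m) : Mat m →ₗ[ℂ] Mat m where
  toFun T := br T S
  map_add' A B := br_add_left A B S
  map_smul' c A := br_smul_left c A S

/-- commutator with a fixed left argument, as a linear map -/
def brR (T : Mat m) : Mat m →ₗ[ℂ] Mat m where
  toFun S := br T S
  map_add' A B := br_add_right T A B
  map_smul' c A := br_smul_right c T A

@[simp] lemma brL_apply (S T : Mat m) : brL S T = br T S := rfl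
@[simp] lemma brR_apply (S T : Mat m) : brR T S = br T S := rfl

/-- `(T, T') ↦ tr([T, S] [T', S'])` -/
def bt (S S' : Mat m) : LinearMap.BilinForm ℂ (Mat m) :=
  LinearMap.mk₂ ℂ (fun T T' => (br T S * br T' S').trace)
    (fun a b c => by rw [br_add_left, Matrix.add_mul, Matrix.trace_add])
    (fun c a b => by rw [br_smul_left, Matrix.smul_mul, Matrix.trace_smul, smul_eq_mul])
    (fun a b c => by rw [br_add_left, Matrix.mul_add, Matrix.trace_add])
    (fun c a b => by rw [br_smul_left, Matrix.mul_smul, Matrix.trace_smul, smul_eq_mul])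

@[simp] lemma bt_apply (S S' T T' : Mat m) : bt S S' T T' = (br T S * br T' S').trace := rfl

/-- `(T, T') ↦ tr([T, S] [T', S])` -/
def bq (S : Mat m) : LinearMap.BilinForm ℂ (Mat m) := bt S S

@[simp] lemma bq_apply (S T T' : Mat m) : bq S T T' = (br T S * br T' S).trace := rfl

/-- the polar form of `bq` -/
def bp (S S' : Mat m) : LinearMap.BilinForm ℂ (Mat m) := bt S S' + bt S' S

lemma bq_add_smul (A B : Mat m) (t : ℂ) :
    bq (A + t • B) = bq A + t • bp A B + (t ^ 2) • bq B := by
  ext T T'
  simp only [bq_apply, bp, LinearMap.add_apply, LinearMap.smul_apply, bt_apply, smul_eq_mul,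
    br_add_right, br_smul_right, Matrix.add_mul, Matrix.mul_add, Matrix.trace_add,
    Matrix.smul_mul, Matrix.mul_smul, Matrix.trace_smul]
  ring

/-- the span of all forms `bq S` -/
def Q (m : ℕ) : Submodule ℂ (LinearMap.BilinForm ℂ (Mat m)) :=
  Submodule.span ℂ (Set.range bq)

lemma bq_mem (S : Mat m) : bq S ∈ Q m := Submodule.subset_span ⟨S, rfl⟩

lemma bp_mem (S S' : Mat m) : bp S S' ∈ Q m := by
  have h := bq_add_smul S S' 1
  rw [one_smul, one_smul, one_pow, one_smul] at h
  have h2 : bp S S' = bq (S + S') - bq S - bq S' := by rw [h]; abel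
  rw [h2]
  exact Submodule.sub_mem _ (Submodule.sub_mem _ (bq_mem _) (bq_mem _)) (bq_mem _)

lemma Q_symm {b : LinearMap.BilinForm ℂ (Mat m)} (hb : b ∈ Q m) (T T' : Mat m) :
    b T T' = b T' T := by
  induction hb using Submodule.span_induction with
  | mem x hx =>
    obtain ⟨S, rfl⟩ := hx
    rw [bq_apply, bq_apply, Matrix.trace_mul_comm]
  | zero => simp
  | add x y _ _ hx hy => rw [LinearMap.add_apply, LinearMap.add_apply, LinearMap.add_apply,
      LinearMap.add_apply, hx, hy]
  | smul a x _ hx => rw [LinearMap.smul_apply, LinearMap.smul_apply, LinearMap.smul_apply,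
      LinearMap.smul_apply, hx]

lemma Q_one {b : LinearMap.BilinForm ℂ (Mat m)} (hb : b ∈ Q m) (T : Mat m) :
    b 1 T = 0 := by
  induction hb using Submodule.span_induction with
  | mem x hx =>
    obtain ⟨S, rfl⟩ := hx
    rw [bq_apply, br_one_left]
    simp
  | zero => simp
  | add x y _ _ hx hy => rw [LinearMap.add_apply, LinearMap.add_apply, hx, hy, add_zero]
  | smul a x _ hx => rw [LinearMap.smul_apply, LinearMap.smul_apply, hx, smul_zero]

lemma Q_eq_zero {b : LinearMap.BilinForm ℂ (Mat m)} (hb : b ∈ Q m)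
    (h : ∀ T, b T T = 0) : b = 0 := by
  ext T T'
  have h1 := h (T + T')
  simp only [map_add, LinearMap.add_apply] at h1
  rw [h, h, Q_symm hb T' T] at h1
  have h2 : (2 : ℂ) * b T T' = 0 := by linear_combination h1
  have h3 := (mul_eq_zero.1 h2).resolve_left (by norm_num)
  rw [h3]
  rfl

/-- a functional applied to `bq S` is a polynomial function of `S` along lines -/
lemma linePoly_bq (f : LinearMap.BilinForm ℂ (Mat m) →ₗ[ℂ] ℂ) :
    LinePoly (fun S : Mat m => f (bq S)) := fun v w =>
  ⟨C (f (bq v)) + C (f (bp v w)) * X + C (f (bq w)) * X ^ 2, fun t => by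
    show f (bq (v + t • w)) = _
    rw [bq_add_smul, map_add, map_add, map_smul, map_smul]
    simp
    ring⟩

/-- the diagonal of a bilinear form is polynomial along lines -/
lemma linePoly_diag (b : LinearMap.BilinForm ℂ (Mat m)) :
    LinePoly (fun T : Mat m => b T T) := fun v w =>
  ⟨C (b v v) + C (b v w + b w v) * X + C (b w w) * X ^ 2, fun t => by
    show b (v + t • w) (v + t • w) = _
    simp only [map_add, LinearMap.add_apply, map_smul, LinearMap.smul_apply, smul_eq_mul,
      eval_add, eval_mul, eval_C, eval_X, eval_pow]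
    ring⟩

/-- density: the forms `bq S` with `F S ≠ 0` already span `Q`. -/
lemma span_bq_eq {F : Mat m → ℂ} (hF : LinePoly F) (hne : ∃ S, F S ≠ 0) :
    Submodule.span ℂ (bq '' {S | F S ≠ 0}) = Q m := by
  apply le_antisymm
  · exact Submodule.span_mono (Set.image_subset_range _ _)
  · apply Submodule.span_le.2
    rintro _ ⟨S, rfl⟩
    by_contra hS
    obtain ⟨f, hf, hle⟩ := Submodule.exists_le_ker_of_notMem hS
    apply hf
    apply (linePoly_bq f).eq_zero_of hF hne _ S
    intro S' hS'
    exact hle (Submodule.subset_span ⟨S', hS', rfl⟩)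

end Pool.Agent.Lib.MP_add2b9_al
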