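import Pool.Agent.Lib.MP_add2b9_al.RankOne

/-!
# The linear map behind `φ` (Gram argument)
-/

namespace Pool.Agent.Lib.MP_add2b9_al

open Matrix Polynomial

variable {m : ℕ}

/-- hypothesis on `φ` -/
def Pres (φ : Mat (m + 2) → Mat (m + 2)) : Prop :=
  ∀ T S, localSpectrum (br (φ T) (φ S)) e0 = localSpectrum (br T S) e0

/-- good matrices -/
def Gd (T : Mat (m + 2)) : Prop := ∃ S, D (br T S) ≠ 0

lemma D_neg_ne_zero {Z : Mat (m + 2)} (h : D Z ≠ 0) : D (-Z) ≠ 0 := by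
  classical
  obtain ⟨h1, h2⟩ := full_of_D_ne_zero Z h
  apply D_ne_zero_of_full (-Z) (Z.charpoly.roots.toFinset.image (fun l => -l))
  · rw [Finset.card_image_of_injective _ neg_injective, h2]
  · intro l hl
    rw [Finset.mem_image] at hl
    obtain ⟨k, hk, rfl⟩ := hl
    rw [localSpectrum_neg, neg_neg, ← h1]
    exact hk

lemma D_br_comm {T S : Mat (m + 2)} (h : D (br T S) ≠ 0) : D (br S T) ≠ 0 := by
  rw [br_neg]
  exact D_neg_ne_zero h

lemma linePoly_D_right (T : Mat (m + 2)) : LinePoly (fun S => D (br T S)) :=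
  D_linePoly.comp_linear (brR T)

lemma linePoly_D_left (S : Mat (m + 2)) : LinePoly (fun T => D (br T S)) :=
  D_linePoly.comp_linear (brL S)

variable {φ : Mat (m + 2) → Mat (m + 2)}

lemma Pres.trace_eq (hφ : Pres φ) {T S : Mat (m + 2)} (h : D (br T S) ≠ 0) :
    (br (φ T) (φ S) * br (φ T) (φ S)).trace = (br T S * br T S).trace :=
  trace_sq_of_localSpectrum_eq _ _ h (hφ T S)

/-- linear factorisation -/
lemma exists_factor {E F G : Type*} [AddCommGroup E] [Module ℂ E] [AddCommGroup F] [Module ℂ F]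
    [AddCommGroup G] [Module ℂ G] (l1 : E →ₗ[ℂ] F) (l2 : E →ₗ[ℂ] G)
    (h : ∀ x, l1 x = 0 → l2 x = 0) : ∃ Ψ : F →ₗ[ℂ] G, ∀ x, Ψ (l1 x) = l2 x := by
  have hker : LinearMap.ker l1 ≤ LinearMap.ker l2 := fun x hx => h x hx
  obtain ⟨Ψ, hΨ⟩ := LinearMap.exists_extend
    (((LinearMap.ker l1).liftQ l2 hker) ∘ₗ
      (l1.quotKerEquivRange.symm : LinearMap.range l1 →ₗ[ℂ] E ⧸ LinearMap.ker l1))
  refine ⟨Ψ, fun x => ?_⟩
  have h1 := LinearMap.congr_fun hΨ ⟨l1 x, x, rfl⟩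
  rw [LinearMap.comp_apply, LinearMap.comp_apply] at h1
  rw [Submodule.subtype_apply] at h1
  rw [h1]
  have h2 : l1.quotKerEquivRange.symm ⟨l1 x, x, rfl⟩ = (LinearMap.ker l1).mkQ x := by
    rw [LinearEquiv.symm_apply_eq]
    rfl
  rw [LinearEquiv.coe_coe, h2]
  simp

lemma exists_Psi (hφ : Pres φ) : ∃ Ψ : LinearMap.BilinForm ℂ (Mat (m + 2)) →ₗ[ℂ]
    LinearMap.BilinForm ℂ (Mat (m + 2)), ∀ S, Gd S → Ψ (bq (φ S)) = bq S := by
  classical
  set l1 : ({S : Mat (m + 2) // Gd S} →₀ ℂ) →ₗ[ℂ] LinearMap.BilinForm ℂ (Mat (m + 2)) :=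
    Finsupp.linearCombination ℂ (fun S => bq (φ S.1)) with hl1
  set l2 : ({S : Mat (m + 2) // Gd S} →₀ ℂ) →ₗ[ℂ] LinearMap.BilinForm ℂ (Mat (m + 2)) :=
    Finsupp.linearCombination ℂ (fun S => bq S.1) with hl2
  have hker : ∀ c, l1 c = 0 → l2 c = 0 := by
    intro c hc
    have hQ : l2 c ∈ Q (m + 2) := by
      rw [hl2, Finsupp.linearCombination_apply]
      apply Submodule.sum_mem
      intro S _
      exact Submodule.smul_mem _ _ (bq_mem _)
    apply Q_eq_zero hQ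
    apply (linePoly_diag (l2 c)).eq_zero_of
      (LinePoly.prod c.support fun S _ => linePoly_D_left S.1)
      (LinePoly.prod_ne_zero c.support (fun S _ => linePoly_D_left S.1) ?_)
    · intro T hT
      have hT' : ∀ S ∈ c.support, D (br T S.1) ≠ 0 := by
        intro S hS h0
        exact hT (Finset.prod_eq_zero hS h0)
      have h1 : l1 c (φ T) (φ T) = 0 := by rw [hc]; rfl
      rw [← h1, hl1, hl2, Finsupp.linearCombination_apply, Finsupp.linearCombination_apply,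
        Finsupp.sum, Finsupp.sum]
      simp only [LinearMap.sum_apply, LinearMap.smul_apply, bq_apply, smul_eq_mul]
      apply Finset.sum_congr rfl
      intro S hS
      rw [hφ.trace_eq (hT' S hS)]
    · intro S _
      obtain ⟨T, hT⟩ := S.2
      exact ⟨T, D_br_comm hT⟩
  obtain ⟨Ψ, hΨ⟩ := exists_factor l1 l2 hker
  refine ⟨Ψ, fun S hS => ?_⟩
  have := hΨ (Finsupp.single ⟨S, hS⟩ 1)
  rw [hl1, hl2, Finsupp.linearCombination_single, Finsupp.linearCombination_single, one_smul,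
    one_smul] at this
  exact this

/-- The forms `bq (φ S)` with `D [T, S] ≠ 0` span `Q`, for every good `T`. -/
lemma span_image_eq {Ψ : LinearMap.BilinForm ℂ (Mat (m + 2)) →ₗ[ℂ]
    LinearMap.BilinForm ℂ (Mat (m + 2))} (hΨ : ∀ S, Gd S → Ψ (bq (φ S)) = bq S)
    {T : Mat (m + 2)} (hT : Gd T) :
    Submodule.span ℂ ((fun S => bq (φ S)) '' {S | D (br T S) ≠ 0}) = Q (m + 2) := by
  have h1 : (Submodule.span ℂ ((fun S => bq (φ S)) '' {S | D (br T S) ≠ 0})).map Ψ =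
      Q (m + 2) := by
    rw [Submodule.map_span, ← span_bq_eq (linePoly_D_right T) hT, Set.image_image]
    congr 1
    apply Set.image_congr
    intro S hS
    exact hΨ S ⟨T, D_br_comm hS⟩
  apply Submodule.eq_of_le_of_finrank_le
  · apply Submodule.span_le.2
    rintro _ ⟨S, _, rfl⟩
    exact bq_mem _
  · calc Module.finrank ℂ (Q (m + 2)) =
        Module.finrank ℂ ((Submodule.span ℂ ((fun S => bq (φ S)) ''
          {S | D (br T S) ≠ 0})).map Ψ) := by rw [h1]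
      _ ≤ _ := Submodule.finrank_map_le _ _

lemma good_Tz : Gd (Tz (m := m)) := ⟨Sz, D_br_Tz_Sz⟩

lemma Psi_mem {Ψ : LinearMap.BilinForm ℂ (Mat (m + 2)) →ₗ[ℂ]
    LinearMap.BilinForm ℂ (Mat (m + 2))} (hΨ : ∀ S, Gd S → Ψ (bq (φ S)) = bq S)
    {b : LinearMap.BilinForm ℂ (Mat (m + 2))} (hb : b ∈ Q (m + 2)) : Ψ b ∈ Q (m + 2) := by
  have h0 := span_image_eq hΨ (good_Tz (m := m))
  have h1 : (Submodule.span ℂ ((fun S => bq (φ S)) '' {S | D (br Tz S) ≠ 0})).map Ψ =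
      Q (m + 2) := by
    rw [Submodule.map_span, ← span_bq_eq (linePoly_D_right Tz) (good_Tz (m := m)),
      Set.image_image]
    congr 1
    apply Set.image_congr
    intro S hS
    exact hΨ S ⟨Tz, D_br_comm hS⟩
  rw [h0] at h1
  rw [← h1]
  exact Submodule.mem_map_of_mem hb

lemma Psi_inj {Ψ : LinearMap.BilinForm ℂ (Mat (m + 2)) →ₗ[ℂ]
    LinearMap.BilinForm ℂ (Mat (m + 2))} (hΨ : ∀ S, Gd S → Ψ (bq (φ S)) = bq S)
    {b : LinearMap.BilinForm ℂ (Mat (m + 2))} (hb : b ∈ Q (m + 2)) (h : Ψ b = 0) : b = 0 := by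
  have h0 := span_image_eq hΨ (good_Tz (m := m))
  have h1 : (Submodule.span ℂ ((fun S => bq (φ S)) '' {S | D (br Tz S) ≠ 0})).map Ψ =
      Q (m + 2) := by
    rw [Submodule.map_span, ← span_bq_eq (linePoly_D_right Tz) (good_Tz (m := m)),
      Set.image_image]
    congr 1
    apply Set.image_congr
    intro S hS
    exact hΨ S ⟨Tz, D_br_comm hS⟩
  rw [h0] at h1
  set f : Q (m + 2) →ₗ[ℂ] Q (m + 2) :=
    (Ψ.domRestrict (Q (m + 2))).codRestrict (Q (m + 2)) (fun b => Psi_mem hΨ b.2) with hf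
  have hsurj : Function.Surjective f := by
    rintro ⟨c, hc⟩
    rw [← h1] at hc
    obtain ⟨b, hb, hbc⟩ := hc
    exact ⟨⟨b, hb⟩, Subtype.ext hbc⟩
  have hfd : FiniteDimensional ℂ (Q (m + 2)) := inferInstance
  have hinj : Function.Injective f :=
    (LinearMap.injective_iff_surjective (K := ℂ) (V := Q (m + 2)) (f := f)).2 hsurj
  have h2 : f ⟨b, hb⟩ = f 0 := by
    apply Subtype.ext
    rw [map_zero]
    exact h
  have h3 := hinj h2
  exact congrArg Subtype.val h3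

/-- the key identity -/
lemma key_identity (hφ : Pres φ) {Ψ : LinearMap.BilinForm ℂ (Mat (m + 2)) →ₗ[ℂ]
    LinearMap.BilinForm ℂ (Mat (m + 2))} (hΨ : ∀ S, Gd S → Ψ (bq (φ S)) = bq S)
    {b : LinearMap.BilinForm ℂ (Mat (m + 2))} (hb : b ∈ Q (m + 2)) {T : Mat (m + 2)}
    (hT : Gd T) : b (φ T) (φ T) = Ψ b T T := by
  rw [← span_image_eq hΨ hT] at hb
  induction hb using Submodule.span_induction with
  | mem x hx =>
    obtain ⟨S, hS, rfl⟩ := hx
    rw [hΨ S ⟨T, D_br_comm hS⟩, bq_apply, bq_apply]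
    exact hφ.trace_eq hS
  | zero => simp
  | add x y _ _ hx hy =>
    rw [LinearMap.add_apply, LinearMap.add_apply, map_add, LinearMap.add_apply,
      LinearMap.add_apply, hx, hy]
  | smul a x _ hx =>
    rw [LinearMap.smul_apply, LinearMap.smul_apply, map_smul, LinearMap.smul_apply,
      LinearMap.smul_apply, hx]

end Pool.Agent.Lib.MP_add2b9_al
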