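import Pool.Agent.Lib.MP_add2b9_al.LocalSpec

/-!
# Functions which are polynomial along every line
-/

namespace Pool.Agent.Lib.MP_add2b9_al

open Matrix Polynomial

section

variable {V W : Type*} [AddCommGroup V] [Module ℂ V] [AddCommGroup W] [Module ℂ W]

/-- `F` restricts to a polynomial function on every affine line. -/
def LinePoly (F : V → ℂ) : Prop :=
  ∀ v w : V, ∃ p : ℂ[X], ∀ t : ℂ, F (v + t • w) = p.eval t

lemma LinePoly.const (c : ℂ) : LinePoly (fun _ : V => c) := fun _ _ => ⟨C c, by simp⟩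

lemma LinePoly.linear (f : V →ₗ[ℂ] ℂ) : LinePoly (fun v => f v) := fun v w =>
  ⟨C (f v) + C (f w) * X, fun t => by
    show f (v + t • w) = _
    rw [map_add, map_smul, eval_add, eval_mul, eval_C, eval_C, eval_X, smul_eq_mul, mul_comm]⟩

lemma LinePoly.add {F G : V → ℂ} (hF : LinePoly F) (hG : LinePoly G) :
    LinePoly (fun v => F v + G v) := fun v w => by
  obtain ⟨p, hp⟩ := hF v w
  obtain ⟨q, hq⟩ := hG v w
  exact ⟨p + q, fun t => by simp [hp, hq]⟩

lemma LinePoly.mul {F G : V → ℂ} (hF : LinePoly F) (hG : LinePoly G) :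
    LinePoly (fun v => F v * G v) := fun v w => by
  obtain ⟨p, hp⟩ := hF v w
  obtain ⟨q, hq⟩ := hG v w
  exact ⟨p * q, fun t => by simp [hp, hq]⟩

lemma LinePoly.neg {F : V → ℂ} (hF : LinePoly F) : LinePoly (fun v => - F v) := fun v w => by
  obtain ⟨p, hp⟩ := hF v w
  exact ⟨-p, fun t => by simp [hp]⟩

lemma LinePoly.sub {F G : V → ℂ} (hF : LinePoly F) (hG : LinePoly G) :
    LinePoly (fun v => F v - G v) := fun v w => by
  obtain ⟨p, hp⟩ := hF v w
  obtain ⟨q, hq⟩ := hG v w
  exact ⟨p - q, fun t => by simp [hp, hq]⟩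

lemma LinePoly.smul {F : V → ℂ} (c : ℂ) (hF : LinePoly F) : LinePoly (fun v => c * F v) :=
  (LinePoly.const c).mul hF

lemma LinePoly.sum {ι : Type*} (s : Finset ι) {F : ι → V → ℂ} (hF : ∀ i ∈ s, LinePoly (F i)) :
    LinePoly (fun v => ∑ i ∈ s, F i v) := by
  classical
  induction s using Finset.induction_on with
  | empty => simpa using LinePoly.const (V := V) 0
  | insert a s ha ih =>
    simp only [Finset.sum_insert ha]
    exact (hF a (by simp)).add (ih fun i hi => hF i (by simp [hi]))

lemma LinePoly.prod {ι : Type*} (s : Finset ι) {F : ι → V → ℂ} (hF : ∀ i ∈ s, LinePoly (F i)) :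
    LinePoly (fun v => ∏ i ∈ s, F i v) := by
  classical
  induction s using Finset.induction_on with
  | empty => simpa using LinePoly.const (V := V) 1
  | insert a s ha ih =>
    simp only [Finset.prod_insert ha]
    exact (hF a (by simp)).mul (ih fun i hi => hF i (by simp [hi]))

/-- composition with an affine map -/
lemma LinePoly.comp {F : W → ℂ} (hF : LinePoly F) (L : V →ₗ[ℂ] W) (w0 : W) :
    LinePoly (fun v => F (w0 + L v)) := fun v w => by
  obtain ⟨p, hp⟩ := hF (w0 + L v) (L w)
  refine ⟨p, fun t => ?_⟩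
  show F (w0 + L (v + t • w)) = _
  rw [← hp, map_add, map_smul, add_assoc]

lemma LinePoly.comp_linear {F : W → ℂ} (hF : LinePoly F) (L : V →ₗ[ℂ] W) :
    LinePoly (fun v => F (L v)) := by
  simpa using hF.comp L 0

/-- the ring of these functions has no zero divisors -/
lemma LinePoly.eq_zero_or {F G : V → ℂ} (hF : LinePoly F) (hG : LinePoly G)
    (h : ∀ v, F v * G v = 0) : (∀ v, F v = 0) ∨ (∀ v, G v = 0) := by
  by_contra hcon
  simp only [not_or, not_forall] at hcon
  obtain ⟨⟨v, hv⟩, ⟨w, hw⟩⟩ := hcon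
  obtain ⟨p, hp⟩ := hF v (w - v)
  obtain ⟨q, hq⟩ := hG v (w - v)
  have hpq : p * q = 0 := by
    apply Polynomial.funext
    intro t
    rw [eval_mul, ← hp, ← hq, h, eval_zero]
  rcases mul_eq_zero.1 hpq with h0 | h0
  · apply hv
    have := hp 0
    rw [h0] at this
    simpa using this
  · apply hw
    have := hq 1
    rw [h0] at this
    simpa using this

/-- a function vanishing where `G ≠ 0` vanishes everywhere -/
lemma LinePoly.eq_zero_of {F G : V → ℂ} (hF : LinePoly F) (hG : LinePoly G)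
    (hne : ∃ v, G v ≠ 0) (h : ∀ v, G v ≠ 0 → F v = 0) (v : V) : F v = 0 := by
  have h1 : ∀ v, F v * G v = 0 := by
    intro v
    by_cases hv : G v = 0
    · rw [hv, mul_zero]
    · rw [h v hv, zero_mul]
  rcases hF.eq_zero_or hG h1 with h2 | h2
  · exact h2 v
  · obtain ⟨w, hw⟩ := hne
    exact absurd (h2 w) hw

lemma LinePoly.prod_ne_zero {ι : Type*} (s : Finset ι) {F : ι → V → ℂ}
    (hF : ∀ i ∈ s, LinePoly (F i)) (hne : ∀ i ∈ s, ∃ v, F i v ≠ 0) :
    ∃ v, ∏ i ∈ s, F i v ≠ 0 := by
  classical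
  induction s using Finset.induction_on with
  | empty => exact ⟨0, by simp⟩
  | insert a s ha ih =>
    by_contra hcon
    simp only [not_exists, not_not] at hcon
    have ih' := ih (fun i hi => hF i (by simp [hi])) (fun i hi => hne i (by simp [hi]))
    have h1 : ∀ v, F a v * ∏ i ∈ s, F i v = 0 := by
      intro v
      have := hcon v
      rwa [Finset.prod_insert ha] at this
    rcases (hF a (by simp)).eq_zero_or
      (LinePoly.prod s fun i hi => hF i (by simp [hi])) h1 with h2 | h2
    · obtain ⟨v, hv⟩ := hne a (by simp)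
      exact hv (h2 v)
    · obtain ⟨v, hv⟩ := ih'
      exact hv (h2 v)

end

/-! ### natural polynomial expressions in matrices -/

variable {n : ℕ}

/-- the matrix `A + X B` over `ℂ[X]` -/
noncomputable def lineMat (A B : Mat n) : Matrix (Fin n) (Fin n) ℂ[X] :=
  A.map C + (X : ℂ[X]) • B.map C

lemma lineMat_map (A B : Mat n) (t : ℂ) :
    (lineMat A B).map (evalRingHom t) = A + t • B := by
  ext i j
  simp [lineMat]
  ring

end Pool.Agent.Lib.MP_add2b9_al
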