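import Pool.Agent.Lib.MP_add2b9_al.Gram

/-!
# `φ` is `± linear + scalar` on the good matrices
-/

namespace Pool.Agent.Lib.MP_add2b9_al

open Matrix Polynomial

variable {m : ℕ}

lemma D_zero : D (0 : Mat (m + 2)) = 0 := by
  unfold D DR
  have : (kry (0 : Mat (m + 2))).det = 0 := by
    apply Matrix.det_eq_zero_of_column_eq_zero 1
    intro i
    simp [kry]
  rw [this, zero_mul]

lemma eq_scalar_of_omij {T : Mat (m + 2)} (h : ∀ i j, omij i j T = 0) : T = (T 0 0) • 1 := by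
  ext i j
  have := h i j
  rw [omij_apply] at this
  rw [Matrix.smul_apply, Matrix.one_apply, smul_eq_mul]
  split_ifs at this ⊢
  · linear_combination this
  · linear_combination this

lemma coeff_extract {k0 k1 k2 k3 k4 : ℂ}
    (h : ∀ t : ℂ, k0 + k1 * t + k2 * t ^ 2 + k3 * t ^ 3 + k4 * t ^ 4 = 0) :
    k1 = 0 ∧ k2 = 0 ∧ k3 = 0 ∧ k4 = 0 := by
  have h0 := h 0
  have h1 := h 1
  have h2 := h (-1)
  have h3 := h 2
  have h4 := h (-2)
  norm_num at h0 h1 h2 h3 h4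
  refine ⟨?_, ?_, ?_, ?_⟩
  · linear_combination (2 / 3 : ℂ) * h1 - (2 / 3 : ℂ) * h2 - (1 / 12 : ℂ) * h3 + (1 / 12 : ℂ) * h4
  · linear_combination (-5 / 4 : ℂ) * h0 + (2 / 3 : ℂ) * h1 + (2 / 3 : ℂ) * h2
      - (1 / 24 : ℂ) * h3 - (1 / 24 : ℂ) * h4
  · linear_combination (-1 / 6 : ℂ) * h1 + (1 / 6 : ℂ) * h2 + (1 / 12 : ℂ) * h3
      - (1 / 12 : ℂ) * h4
  · linear_combination (1 / 4 : ℂ) * h0 - (1 / 6 : ℂ) * h1 - (1 / 6 : ℂ) * h2
      + (1 / 24 : ℂ) * h3 + (1 / 24 : ℂ) * h4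

section

variable {φ : Mat (m + 2) → Mat (m + 2)} (hφ : Pres φ)
  {Ψ : LinearMap.BilinForm ℂ (Mat (m + 2)) →ₗ[ℂ] LinearMap.BilinForm ℂ (Mat (m + 2))}
  (hΨ : ∀ S, Gd S → Ψ (bq (φ S)) = bq S)

include hφ hΨ

lemma G_good {a b : Mat (m + 2) →ₗ[ℂ] ℂ} (ha : a ∈ NN (m + 2)) (hb : b ∈ NN (m + 2))
    {T : Mat (m + 2)} (hT : Gd T) : Ψ (sp a b) T T = 2 * (a (φ T) * b (φ T)) := by
  rw [← key_identity hφ hΨ (sp_mem_Q ha hb) hT, sp_apply]
  ring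

lemma G_symm {a b : Mat (m + 2) →ₗ[ℂ] ℂ} (ha : a ∈ NN (m + 2)) (hb : b ∈ NN (m + 2))
    (T T' : Mat (m + 2)) : Ψ (sp a b) T T' = Ψ (sp a b) T' T :=
  Q_symm (Psi_mem hΨ (sp_mem_Q ha hb)) T T'

lemma G_line {a b : Mat (m + 2) →ₗ[ℂ] ℂ} (ha : a ∈ NN (m + 2)) (hb : b ∈ NN (m + 2))
    (T : Mat (m + 2)) (t : ℂ) : Ψ (sp a b) (Tz + t • T) (Tz + t • T) =
      2 * (a (φ Tz) * b (φ Tz)) + 2 * t * Ψ (sp a b) Tz T + t ^ 2 * Ψ (sp a b) T T := by
  simp only [map_add, LinearMap.add_apply, map_smul, LinearMap.smul_apply, smul_eq_mul]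
  rw [G_good hφ hΨ ha hb good_Tz, G_symm hφ hΨ ha hb T Tz]
  ring

lemma G_prod {a b c d : Mat (m + 2) →ₗ[ℂ] ℂ} (ha : a ∈ NN (m + 2)) (hb : b ∈ NN (m + 2))
    (hc : c ∈ NN (m + 2)) (hd : d ∈ NN (m + 2)) (T : Mat (m + 2)) :
    Ψ (sp a b) T T * Ψ (sp c d) T T - Ψ (sp a c) T T * Ψ (sp b d) T T = 0 := by
  apply LinePoly.eq_zero_of (F := fun T => Ψ (sp a b) T T * Ψ (sp c d) T T -
    Ψ (sp a c) T T * Ψ (sp b d) T T) (G := fun T => D (br T Sz))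
    (((linePoly_diag _).mul (linePoly_diag _)).sub ((linePoly_diag _).mul (linePoly_diag _)))
    (linePoly_D_left Sz) ⟨Tz, D_br_Tz_Sz⟩
  intro T hT
  have hG : Gd T := ⟨Sz, hT⟩
  rw [G_good hφ hΨ ha hb hG, G_good hφ hΨ hc hd hG, G_good hφ hΨ ha hc hG,
    G_good hφ hΨ hb hd hG]
  ring

variable {e : Mat (m + 2) →ₗ[ℂ] ℂ} (he : e ∈ NN (m + 2)) (he1 : e (φ Tz) = 1)

include he he1

/-- coefficient identities for `y` with `y (φ Tz) = 0`. -/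
lemma coeffs {y : Mat (m + 2) →ₗ[ℂ] ℂ} (hy : y ∈ NN (m + 2)) (hy0 : y (φ Tz) = 0)
    (T : Mat (m + 2)) :
    Ψ (sp y y) T T = 2 * (Ψ (sp e y) Tz T) ^ 2 ∧
    Ψ (sp e e) Tz T * Ψ (sp y y) T T = 2 * Ψ (sp e y) Tz T * Ψ (sp e y) T T ∧
    Ψ (sp e e) T T * Ψ (sp y y) T T = (Ψ (sp e y) T T) ^ 2 := by
  have h1 : ∀ t : ℂ, 0 + (4 * Ψ (sp y y) Tz T) * t + (2 * Ψ (sp y y) T T +
      4 * Ψ (sp e e) Tz T * Ψ (sp y y) Tz T - 4 * (Ψ (sp e y) Tz T) ^ 2) * t ^ 2 +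
      (2 * Ψ (sp e e) Tz T * Ψ (sp y y) T T + 2 * Ψ (sp e e) T T * Ψ (sp y y) Tz T
        - 4 * Ψ (sp e y) Tz T * Ψ (sp e y) T T) * t ^ 3 +
      (Ψ (sp e e) T T * Ψ (sp y y) T T - (Ψ (sp e y) T T) ^ 2) * t ^ 4 = 0 := by
    intro t
    have h2 := G_prod hφ hΨ he he hy hy (Tz + t • T)
    rw [G_line hφ hΨ he he, G_line hφ hΨ hy hy, G_line hφ hΨ he hy, he1, hy0] at h2
    linear_combination h2
  obtain ⟨k1, k2, k3, k4⟩ := coeff_extract h1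
  have hB : Ψ (sp y y) Tz T = 0 := by linear_combination (1 / 4 : ℂ) * k1
  rw [hB] at k2 k3
  refine ⟨?_, ?_, ?_⟩
  · linear_combination (1 / 2 : ℂ) * k2
  · linear_combination (1 / 2 : ℂ) * k3
  · linear_combination k4

lemma y_eq_zero {y : Mat (m + 2) →ₗ[ℂ] ℂ} (hy : y ∈ NN (m + 2)) (hy0 : y (φ Tz) = 0)
    (h : ∀ T, Ψ (sp e y) Tz T = 0) : y = 0 := by
  have h1 : Ψ (sp y y) = 0 := by
    apply Q_eq_zero (Psi_mem hΨ (sp_mem_Q hy hy))
    intro T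
    rw [(coeffs hφ hΨ he he1 hy hy0 T).1, h T]
    ring
  have h2 := Psi_inj hΨ (sp_mem_Q hy hy) h1
  ext1 T
  have h3 := congrArg (fun b => b T T) h2
  simp only [sp_apply, LinearMap.zero_apply] at h3
  have h4 : y T * y T = 0 := by linear_combination (1 / 2 : ℂ) * h3
  rw [LinearMap.zero_apply]
  exact mul_self_eq_zero.1 h4

lemma C_ey {y : Mat (m + 2) →ₗ[ℂ] ℂ} (hy : y ∈ NN (m + 2)) (hy0 : y (φ Tz) = 0)
    (T : Mat (m + 2)) : Ψ (sp e y) T T = Ψ (sp e e) Tz T * Ψ (sp e y) Tz T := by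
  have h1 : LinePoly (fun T => Ψ (sp e y) Tz T) := LinePoly.linear (Ψ (sp e y) Tz)
  have h2 : LinePoly (fun T => Ψ (sp e e) Tz T) := LinePoly.linear (Ψ (sp e e) Tz)
  have h3 : ∀ T, Ψ (sp e y) Tz T * (Ψ (sp e e) Tz T * Ψ (sp e y) Tz T - Ψ (sp e y) T T) = 0 := by
    intro T
    obtain ⟨c1, c2, -⟩ := coeffs hφ hΨ he he1 hy hy0 T
    rw [c1] at c2
    linear_combination (1 / 2 : ℂ) * c2
  rcases h1.eq_zero_or ((h2.mul h1).sub (linePoly_diag _)) h3 with h | h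
  · have hy' := y_eq_zero hφ hΨ he he1 hy hy0 h
    have : sp e y = 0 := by rw [hy', sp_comm, sp_zero_left]
    rw [this]
    simp
  · linear_combination -(h T)

omit hφ hΨ he he1 in
lemma exists_y : ∃ y ∈ NN (m + 2), y ≠ 0 ∧ y (φ Tz) = 0 := by
  have h01 : omij (m := m) 0 1 ∈ NN (m + 2) := omij_mem 0 1
  have h10 : omij (m := m) 1 0 ∈ NN (m + 2) := omij_mem 1 0
  have hval01 : omij (m := m) 0 1 (Matrix.of fun i j => if i = 0 ∧ j = 1 then 1 else 0) = 1 := by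
    simp [omij_apply]
  have hval10 : omij (m := m) 1 0 (Matrix.of fun i j => if i = 0 ∧ j = 1 then 1 else 0) = 0 := by
    simp [omij_apply]
  have hval10' : omij (m := m) 1 0 (Matrix.of fun i j => if i = 1 ∧ j = 0 then 1 else 0) = 1 := by
    simp [omij_apply]
  by_cases h : omij (m := m) 0 1 (φ Tz) = 0
  · refine ⟨omij 0 1, h01, ?_, h⟩
    intro h0
    rw [h0] at hval01
    simp at hval01
  · refine ⟨(omij (m := m) 1 0 (φ Tz)) • omij 0 1 - (omij (m := m) 0 1 (φ Tz)) • omij 1 0,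
      Submodule.sub_mem _ (Submodule.smul_mem _ _ h01) (Submodule.smul_mem _ _ h10), ?_, ?_⟩
    · intro h0
      have h1 := LinearMap.congr_fun h0 (Matrix.of fun i j => if i = 1 ∧ j = 0 then 1 else 0)
      have hval01' : omij (m := m) 0 1 (Matrix.of fun i j => if i = 1 ∧ j = 0 then 1 else 0) = 0 := by
        simp [omij_apply]
      rw [LinearMap.sub_apply, LinearMap.smul_apply, LinearMap.smul_apply, hval01', hval10'] at h1
      simp at h1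
      exact h h1
    · rw [LinearMap.sub_apply, LinearMap.smul_apply, LinearMap.smul_apply, smul_eq_mul,
        smul_eq_mul]
      ring

lemma C_ee (T : Mat (m + 2)) : 2 * Ψ (sp e e) T T = (Ψ (sp e e) Tz T) ^ 2 := by
  obtain ⟨y, hy, hyne, hy0⟩ := exists_y (φ := φ)
  have h1 : LinePoly (fun T => Ψ (sp e y) Tz T) := LinePoly.linear (Ψ (sp e y) Tz)
  have h2 : LinePoly (fun T => Ψ (sp e e) Tz T) := LinePoly.linear (Ψ (sp e e) Tz)
  have h3 : ∀ T, (Ψ (sp e y) Tz T * Ψ (sp e y) Tz T) *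
      (2 * Ψ (sp e e) T T - Ψ (sp e e) Tz T * Ψ (sp e e) Tz T) = 0 := by
    intro T
    obtain ⟨c1, -, c3⟩ := coeffs hφ hΨ he he1 hy hy0 T
    rw [c1, C_ey hφ hΨ he he1 hy hy0 T] at c3
    linear_combination c3
  rcases (h1.mul h1).eq_zero_or (((linePoly_diag _).smul 2).sub (h2.mul h2)) h3 with h | h
  · exfalso
    apply hyne
    apply y_eq_zero hφ hΨ he he1 hy hy0
    intro T
    exact mul_self_eq_zero.1 (h T)
  · linear_combination h T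

/-- the linear functional `P_a` -/
noncomputable def Pf (Ψ : LinearMap.BilinForm ℂ (Mat (m + 2)) →ₗ[ℂ]
    LinearMap.BilinForm ℂ (Mat (m + 2))) (φ : Mat (m + 2) → Mat (m + 2))
    (e a : Mat (m + 2) →ₗ[ℂ] ℂ) : Mat (m + 2) →ₗ[ℂ] ℂ :=
  Ψ (sp e a) Tz - (a (φ Tz) / 2) • Ψ (sp e e) Tz

omit hφ hΨ he he1 in
lemma Pf_apply (a : Mat (m + 2) →ₗ[ℂ] ℂ) (T : Mat (m + 2)) :
    Pf Ψ φ e a T = Ψ (sp e a) Tz T - a (φ Tz) / 2 * Ψ (sp e e) Tz T := rfl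

lemma C_general {a b : Mat (m + 2) →ₗ[ℂ] ℂ} (ha : a ∈ NN (m + 2)) (hb : b ∈ NN (m + 2))
    (T : Mat (m + 2)) : Ψ (sp a b) T T = 2 * (Pf Ψ φ e a T * Pf Ψ φ e b T) := by
  set y := a - (a (φ Tz)) • e with hy
  set z := b - (b (φ Tz)) • e with hz
  have hyN : y ∈ NN (m + 2) := Submodule.sub_mem _ ha (Submodule.smul_mem _ _ he)
  have hzN : z ∈ NN (m + 2) := Submodule.sub_mem _ hb (Submodule.smul_mem _ _ he)
  have hy0 : y (φ Tz) = 0 := by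
    rw [hy, LinearMap.sub_apply, LinearMap.smul_apply, he1]; simp
  have hz0 : z (φ Tz) = 0 := by
    rw [hz, LinearMap.sub_apply, LinearMap.smul_apply, he1]; simp
  have ha' : a = (a (φ Tz)) • e + y := by rw [hy]; abel
  have hb' : b = (b (φ Tz)) • e + z := by rw [hz]; abel
  -- C_yz by polarisation
  have hyz : Ψ (sp y z) T T = 2 * (Ψ (sp e y) Tz T * Ψ (sp e z) Tz T) := by
    have h1 := (coeffs hφ hΨ he he1 (Submodule.add_mem _ hyN hzN)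
      (by rw [LinearMap.add_apply, hy0, hz0, add_zero]) T).1
    have h2 := (coeffs hφ hΨ he he1 hyN hy0 T).1
    have h3 := (coeffs hφ hΨ he he1 hzN hz0 T).1
    rw [sp_add_left, sp_add_right, sp_add_right, sp_add_right, sp_comm z y] at h1
    simp only [map_add, LinearMap.add_apply] at h1
    linear_combination (1 / 2 : ℂ) * h1 - (1 / 2 : ℂ) * h2 - (1 / 2 : ℂ) * h3
  have hey := C_ey hφ hΨ he he1 hyN hy0 T
  have hez := C_ey hφ hΨ he he1 hzN hz0 T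
  have hee := C_ee hφ hΨ he he1 T
  have h4 : Ψ (sp a b) T T = a (φ Tz) * b (φ Tz) * Ψ (sp e e) T T + a (φ Tz) * Ψ (sp e z) T T
      + b (φ Tz) * Ψ (sp e y) T T + Ψ (sp y z) T T := by
    conv_lhs => rw [ha', hb']
    rw [sp_add_left, sp_add_right, sp_add_right, sp_smul_left, sp_smul_left, sp_smul_right,
      sp_smul_right, sp_comm y e]
    simp only [map_add, map_smul, LinearMap.add_apply, LinearMap.smul_apply, smul_eq_mul]
    ring
  have h5 : Ψ (sp e a) Tz T = a (φ Tz) * Ψ (sp e e) Tz T + Ψ (sp e y) Tz T := by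
    conv_lhs => rw [ha']
    rw [sp_add_right, sp_smul_right]
    simp only [map_add, map_smul, LinearMap.add_apply, LinearMap.smul_apply, smul_eq_mul]
  have h6 : Ψ (sp e b) Tz T = b (φ Tz) * Ψ (sp e e) Tz T + Ψ (sp e z) Tz T := by
    conv_lhs => rw [hb']
    rw [sp_add_right, sp_smul_right]
    simp only [map_add, map_smul, LinearMap.add_apply, LinearMap.smul_apply, smul_eq_mul]
  rw [h4, Pf_apply, Pf_apply, h5, h6, hyz, hey, hez]
  linear_combination (a (φ Tz) * b (φ Tz) / 2) * hee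

end

end Pool.Agent.Lib.MP_add2b9_al
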