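import Pool.Agent.Lib.MP_add2b9_al.Defs

/-!
# Basic facts on the local spectrum
-/

namespace Pool.Agent.Lib.MP_add2b9_al

open Matrix Polynomial

variable {n : ℕ}

/-- square complex matrices -/
abbrev Mat (n : ℕ) := Matrix (Fin n) (Fin n) ℂ

/-- the commutator -/
def br (T S : Mat n) : Mat n := T * S - S * T

/-- every vector decomposes into generalised eigenvectors -/
lemma exists_decomp (T : Mat n) (x : Fin n → ℂ) : ∃ y : ℂ →₀ (Fin n → ℂ),
    (∀ m : ℂ, ((T - m • (1 : Mat n)) ^ n) *ᵥ (y m) = 0) ∧ (y.sum fun _ v => v) = x := by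
  have htop := Module.End.iSup_maxGenEigenspace_eq_top (Matrix.toLin' T)
  have hx : x ∈ ⨆ m : ℂ, Module.End.maxGenEigenspace (Matrix.toLin' T) m := by
    rw [htop]; trivial
  obtain ⟨y, hy, hs⟩ := (Submodule.mem_iSup_iff_exists_finsupp _ _).1 hx
  refine ⟨y, fun m => ?_, hs⟩
  have h1 := hy m
  rw [Module.End.maxGenEigenspace_eq_genEigenspace_finrank, Module.End.mem_genEigenspace_nat] at h1
  have h2 : Module.finrank ℂ (Fin n → ℂ) = n := by simp
  rw [h2] at h1
  rw [LinearMap.mem_ker] at h1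
  have h3 : (Matrix.toLin' T - m • (1 : Module.End ℂ (Fin n → ℂ))) =
      Matrix.toLin' (T - m • (1 : Mat n)) := by
    rw [map_sub, map_smul, Matrix.toLin'_one]; rfl
  rw [h3, ← Matrix.toLin'_pow, Matrix.toLin'_apply] at h1
  exact h1

lemma aeval_mul_mulVec (T : Mat n) (p q : ℂ[X]) (x : Fin n → ℂ) :
    (aeval T (p * q)) *ᵥ x = (aeval T p) *ᵥ ((aeval T q) *ᵥ x) := by
  rw [map_mul, Matrix.mulVec_mulVec]

/-- if `p` and `q` are coprime and both kill `x` then `x = 0`. -/
lemma eq_zero_of_coprime (T : Mat n) {p q : ℂ[X]} (h : IsCoprime p q) {x : Fin n → ℂ}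
    (hp : (aeval T p) *ᵥ x = 0) (hq : (aeval T q) *ᵥ x = 0) : x = 0 := by
  obtain ⟨a, b, hab⟩ := h
  have h1 : (aeval T (a * p + b * q)) *ᵥ x = 0 := by
    rw [map_add, Matrix.add_mulVec, aeval_mul_mulVec, aeval_mul_mulVec, hp, hq]
    simp
  rw [hab, map_one, Matrix.one_mulVec] at h1
  exact h1

lemma sub_smul_one_pow (T : Mat n) (m : ℂ) (k : ℕ) :
    (T - m • (1 : Mat n)) ^ k = aeval T ((X - C m) ^ k) := by
  rw [map_pow, map_sub, aeval_X, aeval_C, Algebra.algebraMap_eq_smul_one]

lemma finsupp_sum_mulVec (A : Mat n) (y : ℂ →₀ (Fin n → ℂ)) :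
    A *ᵥ (y.sum fun _ v => v) = y.sum fun _ v => A *ᵥ v := by
  have := map_finsuppSum (Matrix.mulVecLin A) y (fun _ v => v)
  simpa using this

/-- components in the generalised eigenspaces are independent -/
lemma decomp_zero (T : Mat n) (y : ℂ →₀ (Fin n → ℂ))
    (hy : ∀ m : ℂ, ((T - m • (1 : Mat n)) ^ n) *ᵥ (y m) = 0)
    (hs : (y.sum fun _ v => v) = 0) (l : ℂ) : y l = 0 := by
  classical
  -- multiply by the product of the other factors
  set q : ℂ[X] := ∏ m ∈ y.support.erase l, (X - C m) ^ n with hq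
  have h1 : (aeval T q) *ᵥ (y.sum fun _ v => v) = (aeval T q) *ᵥ (y l) := by
    rw [finsupp_sum_mulVec, Finsupp.sum]
    by_cases hl : l ∈ y.support
    · rw [← Finset.add_sum_erase _ _ hl, Finset.sum_eq_zero, add_zero]
      intro m hm
      have hdvd : (X - C m) ^ n ∣ q := Finset.dvd_prod_of_mem _ hm
      obtain ⟨r, hr⟩ := hdvd
      rw [hr, mul_comm, aeval_mul_mulVec, ← sub_smul_one_pow, hy m, Matrix.mulVec_zero]
    · have hl0 : y l = 0 := by simpa using hl
      rw [hl0, Matrix.mulVec_zero, Finset.sum_eq_zero]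
      intro m hm
      have hm' : m ∈ y.support.erase l := by
        rw [Finset.mem_erase]
        exact ⟨fun h => hl (h ▸ hm), hm⟩
      have hdvd : (X - C m) ^ n ∣ q := Finset.dvd_prod_of_mem _ hm'
      obtain ⟨r, hr⟩ := hdvd
      rw [hr, mul_comm, aeval_mul_mulVec, ← sub_smul_one_pow, hy m, Matrix.mulVec_zero]
  rw [hs, Matrix.mulVec_zero] at h1
  have hcop : IsCoprime q ((X - C l) ^ n) := by
    rw [hq]
    apply IsCoprime.prod_left
    intro m hm
    apply IsCoprime.pow
    exact Polynomial.isCoprime_X_sub_C_of_isUnit_sub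
      (IsUnit.mk0 _ (sub_ne_zero.2 (Finset.ne_of_mem_erase hm)))
  apply eq_zero_of_coprime T hcop h1.symm
  rw [← sub_smul_one_pow]
  exact hy l

/-- (P0) the local spectrum through annihilating polynomials -/
lemma mem_localSpectrum_iff (T : Mat n) (x : Fin n → ℂ) (l : ℂ) :
    l ∈ localSpectrum T x ↔ ∀ p : ℂ[X], (aeval T p) *ᵥ x = 0 → p.eval l = 0 := by
  classical
  constructor
  · rintro ⟨y, hy, hs, hl⟩ p hp
    by_contra hne
    -- apply p to the decomposition
    have h1 : ((y.mapRange (fun v => (aeval T p) *ᵥ v) (by simp)).sum fun _ v => v) = 0 := by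
      rw [Finsupp.sum_mapRange_index (by simp), ← finsupp_sum_mulVec, hs, hp]
    have h2 := decomp_zero T (y.mapRange (fun v => (aeval T p) *ᵥ v) (by simp)) (by
      intro m
      rw [Finsupp.mapRange_apply, sub_smul_one_pow, ← aeval_mul_mulVec, mul_comm,
        aeval_mul_mulVec, ← sub_smul_one_pow, hy m, Matrix.mulVec_zero]) h1 l
    rw [Finsupp.mapRange_apply] at h2
    apply hl
    have hcop : IsCoprime p ((X - C l) ^ n) := by
      apply IsCoprime.pow_right
      rw [isCoprime_comm]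
      exact (Polynomial.irreducible_X_sub_C l).coprime_iff_not_dvd.2 (by
        rw [Polynomial.dvd_iff_isRoot]; exact hne)
    apply eq_zero_of_coprime T hcop h2
    rw [← sub_smul_one_pow]
    exact hy l
  · intro h
    obtain ⟨y, hy, hs⟩ := exists_decomp T x
    refine ⟨y, hy, hs, fun hl => ?_⟩
    set q : ℂ[X] := ∏ m ∈ y.support, (X - C m) ^ n with hq
    have h1 : (aeval T q) *ᵥ x = 0 := by
      rw [← hs, finsupp_sum_mulVec, Finsupp.sum, Finset.sum_eq_zero]
      intro m hm
      have hdvd : (X - C m) ^ n ∣ q := Finset.dvd_prod_of_mem _ hm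
      obtain ⟨r, hr⟩ := hdvd
      rw [hr, mul_comm, aeval_mul_mulVec, ← sub_smul_one_pow, hy m, Matrix.mulVec_zero]
    have h2 := h q h1
    rw [hq, Polynomial.eval_prod, Finset.prod_eq_zero_iff] at h2
    obtain ⟨m, hm, hm'⟩ := h2
    rw [eval_pow, eval_sub, eval_X, eval_C] at hm'
    have : l = m := sub_eq_zero.1 (eq_zero_of_pow_eq_zero hm')
    subst this
    exact (Finsupp.mem_support_iff.1 hm) hl

/-- (P1) -/
lemma localSpectrum_of_eigen (T : Mat n) {x : Fin n → ℂ} (hx : x ≠ 0) {m : ℂ}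
    (h : T *ᵥ x = m • x) : localSpectrum T x = {m} := by
  have key : ∀ p : ℂ[X], (aeval T p) *ᵥ x = p.eval m • x := by
    intro p
    induction p using Polynomial.induction_on' with
    | add p q hp hq => rw [map_add, Matrix.add_mulVec, hp, hq, eval_add, add_smul]
    | monomial k a =>
      rw [aeval_monomial, eval_monomial, Algebra.algebraMap_eq_smul_one, smul_mul_assoc, one_mul,
        Matrix.smul_mulVec]
      have : ∀ k : ℕ, (T ^ k) *ᵥ x = m ^ k • x := by
        intro k
        induction k with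
        | zero => simp
        | succ k ih => rw [pow_succ', ← Matrix.mulVec_mulVec, ih, Matrix.mulVec_smul, h, smul_smul,
            pow_succ]
      rw [this, smul_smul]
  ext l
  rw [mem_localSpectrum_iff, Set.mem_singleton_iff]
  constructor
  · intro h1
    have h2 := h1 (X - C m) (by rw [key]; simp)
    simp at h2
    exact sub_eq_zero.1 h2
  · rintro rfl p hp
    rw [key] at hp
    exact (smul_eq_zero.1 hp).resolve_right hx

/-- (P2) -/
lemma pow_mulVec_eq_zero (T : Mat n) (x : Fin n → ℂ) (q : ℂ[X])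
    (h : ∀ l ∈ localSpectrum T x, q.eval l = 0) : ((aeval T q) ^ n) *ᵥ x = 0 := by
  obtain ⟨y, hy, hs⟩ := exists_decomp T x
  rw [← hs, finsupp_sum_mulVec, Finsupp.sum, Finset.sum_eq_zero]
  intro m hm
  have h1 : q.eval m = 0 := h m ⟨y, hy, hs, Finsupp.mem_support_iff.1 hm⟩
  obtain ⟨r, hr⟩ := Polynomial.dvd_iff_isRoot.2 h1
  rw [← map_pow, hr, mul_pow, mul_comm, aeval_mul_mulVec, ← sub_smul_one_pow, hy m,
    Matrix.mulVec_zero]

/-- (P3) -/
lemma mem_of_left_eigen (T : Mat n) {x g : Fin n → ℂ} {m : ℂ} (h : g ᵥ* T = m • g)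
    (hg : g ⬝ᵥ x ≠ 0) : m ∈ localSpectrum T x := by
  have key : ∀ p : ℂ[X], g ᵥ* (aeval T p) = p.eval m • g := by
    intro p
    induction p using Polynomial.induction_on' with
    | add p q hp hq => rw [map_add, Matrix.vecMul_add, hp, hq, eval_add, add_smul]
    | monomial k a =>
      rw [aeval_monomial, eval_monomial, Algebra.algebraMap_eq_smul_one, smul_mul_assoc, one_mul,
        Matrix.vecMul_smul]
      have : ∀ k : ℕ, g ᵥ* (T ^ k) = m ^ k • g := by
        intro k
        induction k with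
        | zero => simp
        | succ k ih => rw [pow_succ, ← Matrix.vecMul_vecMul, ih, Matrix.smul_vecMul, h, smul_smul,
            pow_succ]
      rw [this, smul_smul]
  rw [mem_localSpectrum_iff]
  intro p hp
  have h1 : g ⬝ᵥ ((aeval T p) *ᵥ x) = 0 := by rw [hp]; simp
  rw [Matrix.dotProduct_mulVec, key, smul_dotProduct, smul_eq_mul] at h1
  exact (mul_eq_zero.1 h1).resolve_right hg

lemma aeval_conj (B Z : Mat n) (hB : IsUnit B) (p : ℂ[X]) :
    aeval (B * Z * B⁻¹) p = B * aeval Z p * B⁻¹ := by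
  have hdet : IsUnit B.det := (Matrix.isUnit_iff_isUnit_det B).1 hB
  have hpow : ∀ k : ℕ, (B * Z * B⁻¹) ^ k = B * Z ^ k * B⁻¹ := by
    intro k
    induction k with
    | zero => simp [Matrix.mul_nonsing_inv B hdet]
    | succ k ih =>
      rw [pow_succ, ih, pow_succ]
      calc B * Z ^ k * B⁻¹ * (B * Z * B⁻¹) = B * Z ^ k * (B⁻¹ * B) * Z * B⁻¹ := by
            simp only [Matrix.mul_assoc]
        _ = B * (Z ^ k * Z) * B⁻¹ := by
            rw [Matrix.nonsing_inv_mul B hdet]; simp only [Matrix.mul_assoc, Matrix.one_mul]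
  induction p using Polynomial.induction_on' with
  | add p q hp hq => rw [map_add, map_add, hp, hq, Matrix.mul_add, Matrix.add_mul]
  | monomial k a =>
    rw [aeval_monomial, aeval_monomial, Algebra.algebraMap_eq_smul_one, smul_mul_assoc,
      smul_mul_assoc, one_mul, one_mul, hpow, Matrix.mul_smul, Matrix.smul_mul]

/-- (P4) -/
lemma localSpectrum_conj (B Z : Mat n) (hB : IsUnit B) (x : Fin n → ℂ) :
    localSpectrum (B * Z * B⁻¹) (B *ᵥ x) = localSpectrum Z x := by
  have hdet : IsUnit B.det := (Matrix.isUnit_iff_isUnit_det B).1 hB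
  ext l
  rw [mem_localSpectrum_iff, mem_localSpectrum_iff]
  have key : ∀ p : ℂ[X], (aeval (B * Z * B⁻¹) p) *ᵥ (B *ᵥ x) = 0 ↔ (aeval Z p) *ᵥ x = 0 := by
    intro p
    rw [aeval_conj B Z hB, Matrix.mulVec_mulVec, Matrix.mul_assoc, Matrix.nonsing_inv_mul B hdet,
      Matrix.mul_one, ← Matrix.mulVec_mulVec]
    constructor
    · intro h
      have h1 : B⁻¹ *ᵥ (B *ᵥ ((aeval Z p) *ᵥ x)) = 0 := by rw [h]; simp
      rwa [Matrix.mulVec_mulVec, Matrix.nonsing_inv_mul B hdet, Matrix.one_mulVec] at h1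
    · intro h
      rw [h]; simp
  simp only [key]

/-- (P5) -/
lemma eval_charpoly_of_mem (T : Mat n) (x : Fin n → ℂ) {l : ℂ} (h : l ∈ localSpectrum T x) :
    T.charpoly.eval l = 0 := by
  rw [mem_localSpectrum_iff] at h
  apply h
  rw [Matrix.aeval_self_charpoly]
  simp

lemma localSpectrum_neg (T : Mat n) (x : Fin n → ℂ) (l : ℂ) :
    l ∈ localSpectrum (-T) x ↔ -l ∈ localSpectrum T x := by
  rw [mem_localSpectrum_iff, mem_localSpectrum_iff]
  have key : ∀ (S : Mat n) (p : ℂ[X]), aeval (-S) p = aeval S (p.comp (-X)) := by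
    intro S p
    rw [aeval_comp]; simp
  constructor
  · intro h p hp
    have := h (p.comp (-X)) (by rw [← key, neg_neg]; exact hp)
    simpa using this
  · intro h p hp
    rw [key] at hp
    have := h _ hp
    simpa using this

lemma localSpectrum_smul_vec (T : Mat n) (x : Fin n → ℂ) {c : ℂ} (hc : c ≠ 0) :
    localSpectrum T (c • x) = localSpectrum T x := by
  ext l
  rw [mem_localSpectrum_iff, mem_localSpectrum_iff]
  have key : ∀ p : ℂ[X], (aeval T p) *ᵥ (c • x) = 0 ↔ (aeval T p) *ᵥ x = 0 := by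
    intro p
    rw [Matrix.mulVec_smul, smul_eq_zero]
    simp [hc]
  simp only [key]

end Pool.Agent.Lib.MP_add2b9_al
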