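import Pool.Agent.Lib.MP_add2b9_al.Struct2

/-!
# Structure theorem, third part
-/

set_option autoImplicit false

namespace Pool.Agent.Lib.MP_add2b9_al.St

open Matrix

variable {m : ℕ}

lemma br_self (X : Mat (m + 2)) : br X X = 0 := by
  unfold br; rw [sub_self]

lemma br_one_left (Y : Mat (m + 2)) (c : ℂ) : br (c • (1 : Mat (m + 2))) Y = 0 := by
  unfold br
  rw [smul_mul_assoc, mul_smul_comm, one_mul, mul_one, sub_self]

lemma br_E_E {a c : Fin (m + 2)} (h : a ≠ c) : br (E a c) (E c c) = (E a c : Mat (m + 2)) := by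
  ext p q
  rw [br, Matrix.sub_apply, mul_E, mul_E, E_apply, E_apply, E_apply]
  by_cases hq : c = q
  · subst hq
    by_cases hp : a = p
    · subst hp
      simp [Ne.symm h]
    · simp [hp]
      intro _ h2
      exact absurd h2 (Ne.symm h)
  · simp [hq]

/-- If `F` is the identity on `K0` and preserves the curvature form, then
`F (E i 0) = E i 0 + scalar`. -/
lemma ident_of_K0 (F : Mat (m + 2) → Mat (m + 2)) (hF : ∀ Y, K0 Y → F Y = Y)
    (hR : ∀ X Y Z W, (br (F X) (F Y) * br (F Z) (F W)).trace = (br X Y * br Z W).trace)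
    (i : Fin (m + 2)) (hi : i ≠ 0) : ∃ c : ℂ, F (E i 0) = E i 0 + c • 1 := by
  have hone : (1 : Fin (m + 2)) ≠ 0 := by simp
  set D := F (E i 0) - E i 0 with hD
  have hFD : F (E i 0) = E i 0 + D := by rw [hD]; abel
  have h1 : ∀ Y, K0 Y → ∀ a c, c ≠ 0 → a ≠ c → (br D Y) c a = 0 := by
    intro Y hY a c hc hac
    have h := hR (E i 0) Y (E a c) (E c c)
    rw [hF _ hY, hF _ (K0_E hc), hF _ (K0_E hc), br_E_E hac, hFD, br_add_left, add_mul,
      trace_add] at h
    have h2 : (br D Y * (E a c : Mat (m + 2))).trace = 0 := by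
      linear_combination h
    rw [trace_mul_E] at h2
    exact h2
  have h2 : ∀ a c k l : Fin (m + 2), c ≠ 0 → a ≠ c → l ≠ 0 →
      (if l = a then D c k else 0) = (if k = c then D l a else 0) := by
    intro a c k l hc hac hl
    have h := h1 (E k l) (K0_E hl) a c hc hac
    rw [br, Matrix.sub_apply, mul_E, E_mul] at h
    exact sub_eq_zero.mp h
  have hD0 : ∀ l, l ≠ 0 → D l 0 = 0 := by
    intro l hl
    have h := h2 0 1 1 l hone (Ne.symm hone) hl
    rw [if_neg hl, if_pos rfl] at h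
    exact h.symm
  have hDoff : ∀ c k, c ≠ 0 → k ≠ c → D c k = 0 := by
    intro c k hc hk
    by_cases hk0 : k = 0
    · subst hk0; exact hD0 c hc
    · have h := h2 k c k k hc hk hk0
      rw [if_pos rfl, if_neg hk] at h
      exact h
  have hDdiag : ∀ c, c ≠ 0 → D c c = D 1 1 := by
    intro c hc
    by_cases h1c : (1 : Fin (m + 2)) = c
    · subst h1c; rfl
    · have h := h2 1 c c 1 hc h1c hone
      rw [if_pos rfl, if_pos rfl] at h
      exact h
  set δ := D 1 1 with hδ
  set R := D - δ • (1 : Mat (m + 2)) with hRdef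
  have hRrow : ∀ a b, a ≠ 0 → R a b = 0 := by
    intro a b ha
    rw [hRdef, Matrix.sub_apply, Matrix.smul_apply, one_apply]
    by_cases hab : a = b
    · subst hab
      rw [hDdiag a ha, if_pos rfl]; simp
    · rw [hDoff a b ha (Ne.symm hab), if_neg hab]; simp
  have hDR : D = R + δ • (1 : Mat (m + 2)) := by rw [hRdef]; abel
  have hbr : ∀ Y, br (F (E i 0)) Y = br (E i 0) Y + br R Y := by
    intro Y
    rw [hFD, hDR, br_add_left, br_add_left, br_one_left, add_zero]
  have hYR : ∀ Y : Mat (m + 2), K0 Y → Y * R = 0 := by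
    intro Y hY
    ext a b
    rw [mul_apply]
    apply Finset.sum_eq_zero
    intro l _
    by_cases hl : l = 0
    · subst hl; rw [hY, zero_mul]
    · rw [hRrow l b hl, mul_zero]
  have hkey : ∀ Y : Mat (m + 2), K0 Y → (R * Y * Y) 0 i = 0 := by
    intro Y hY
    have h := hR (E i 0) Y (E i 0) Y
    rw [hF _ hY, hbr] at h
    have h3 : br R Y = R * Y := by rw [br, hYR Y hY, sub_zero]
    rw [h3] at h
    have h4 : (br (E i 0) Y + R * Y) * (br (E i 0) Y + R * Y) =
        br (E i 0) Y * br (E i 0) Y + br (E i 0) Y * (R * Y) + (R * Y) * br (E i 0) Y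
          + R * (Y * R) * Y := by
      noncomm_ring
    rw [h4, hYR Y hY, trace_add, trace_add, trace_add, trace_mul_comm (R * Y)] at h
    have h5 : (br (E i 0) Y * (R * Y)).trace = 0 := by
      have : (R * 0 * Y).trace = 0 := by simp
      rw [this] at h
      have h6 : 2 * (br (E i 0) Y * (R * Y)).trace = 0 := by linear_combination h
      simpa using h6
    have h7 : br (E i 0) Y * (R * Y) = E i 0 * (Y * R) * Y - Y * ((E i 0) * (R * Y)) := by
      unfold br; noncomm_ring
    have h8 : (Y * ((E i 0) * (R * Y))).trace = (R * Y * Y) 0 i := by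
      rw [trace_mul_comm Y, mul_assoc (E i 0), trace_mul_comm (E i 0), trace_mul_E]
    rw [h7, hYR Y hY, trace_sub, h8, mul_zero, zero_mul, trace_zero, zero_sub,
      neg_eq_zero] at h5
    exact h5
  have hRi : R 0 i = 0 := by
    have h := hkey (E i i) (K0_E hi)
    rw [mul_E, if_pos rfl, mul_E, if_pos rfl] at h
    exact h
  have hR0 : R = 0 := by
    ext a b
    by_cases ha : a = 0
    · subst ha
      by_cases hb : b = i
      · subst hb; exact hRi
      · have h := hkey (E i i + E b i) ((K0_E hi).add (K0_E hi))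
        rw [mul_add, Matrix.add_apply, mul_E, mul_E, if_pos rfl, if_pos rfl, mul_add,
          Matrix.add_apply, Matrix.add_apply, mul_E, mul_E, mul_E, mul_E, if_pos rfl, if_pos rfl,
          if_neg (Ne.symm hb), if_neg (Ne.symm hb), hRi] at h
        simpa using h
    · exact hRrow a b ha
  refine ⟨δ, ?_⟩
  rw [hFD, hDR, hR0, zero_add]

/-- If moreover `F` is linear and `F 1` is a scalar, then `F T = T + scalar` for all `T`. -/
lemma ident_all (F : Mat (m + 2) →ₗ[ℂ] Mat (m + 2)) (hF : ∀ Y, K0 Y → F Y = Y)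
    (hF1 : ∃ c : ℂ, F 1 = 1 + c • 1)
    (hR : ∀ X Y Z W, (br (F X) (F Y) * br (F Z) (F W)).trace = (br X Y * br Z W).trace)
    (T : Mat (m + 2)) : ∃ c : ℂ, F T = T + c • 1 := by
  have hadd : ∀ p q : Mat (m + 2), (∃ c : ℂ, F p = p + c • 1) → (∃ c : ℂ, F q = q + c • 1) →
      ∃ c : ℂ, F (p + q) = (p + q) + c • 1 := by
    rintro p q ⟨c, hc⟩ ⟨d, hd⟩
    refine ⟨c + d, ?_⟩
    rw [map_add, hc, hd, add_smul]
    abel
  have hsmul : ∀ (x : ℂ) (p : Mat (m + 2)), (∃ c : ℂ, F p = p + c • 1) →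
      ∃ c : ℂ, F (x • p) = x • p + c • 1 := by
    rintro x p ⟨c, hc⟩
    refine ⟨x * c, ?_⟩
    rw [map_smul, hc, smul_add, mul_smul]
  have hbasis : ∀ i k : Fin (m + 2), ∃ c : ℂ, F (E i k) = E i k + c • 1 := by
    intro i k
    by_cases hk : k = 0
    · subst hk
      by_cases hi : i = 0
      · subst hi
        have h1 : (E 0 0 : Mat (m + 2)) = 1 + (-1 : ℂ) • pr := by
          unfold pr
          rw [neg_one_smul]
          abel
        rw [h1]
        exact hadd _ _ hF1 (hsmul _ _ ⟨0, by rw [hF _ K0_pr, zero_smul, add_zero]⟩)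
      · exact ident_of_K0 F hF hR i hi
    · exact ⟨0, by rw [hF _ (K0_E hk), zero_smul, add_zero]⟩
  induction T using Matrix.induction_on' with
  | h_zero => exact ⟨0, by simp⟩
  | h_add p q hp hq => exact hadd p q hp hq
  | h_std_basis i j x =>
    have : Matrix.single i j x = x • (E i j : Mat (m + 2)) := by
      rw [Matrix.smul_single, smul_eq_mul, mul_one]
    rw [this]
    exact hsmul x _ (hbasis i j)

theorem Setup.structure_aux (s : Setup m) :
    ∃ (A : Mat (m + 2)) (j : ℂ), IsUnit A ∧ A *ᵥ e0 = e0 ∧ j ^ 4 = 1 ∧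
      ∀ T, ∃ c : ℂ, s.P T = j • (A * T * A⁻¹) + c • 1 := by
  obtain ⟨κ, j, J, hκ, hκj, hJ0, hJ, hP⟩ := s.exists_B
  have hκκ : κ * κ = 1 := by rw [← sq]; exact hκ
  have hjκ : j * j = κ := by
    have : κ * (κ * j ^ 2) = κ := by rw [hκj, mul_one]
    linear_combination this - j ^ 2 * hκκ
  have hj0 : j ≠ 0 := by
    intro h; rw [h] at hκj; norm_num at hκj
  have hj4 : j ^ 4 = 1 := by
    have : j ^ 4 = (j * j) * (j * j) := by ring
    rw [this, hjκ, hκκ]
  set A : Mat (m + 2) := κ • J + E 0 0 with hA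
  set A' : Mat (m + 2) := E 0 0 + j • pr - (κ * j) • (E 0 0 * J) with hA'
  have hYA' : ∀ Y, K0 Y → Y * A' = j • Y := by
    intro Y hY
    rw [hA', mul_sub, mul_add, hY.mul_E00, zero_add, mul_smul_comm, hY.mul_pr, mul_smul_comm,
      ← mul_assoc, hY.mul_E00, zero_mul, smul_zero, sub_zero]
  have hE00A' : E 0 0 * A' = E 0 0 - (κ * j) • (E 0 0 * J) := by
    rw [hA', mul_sub, mul_add, E00_mul_E00, mul_smul_comm, E00_mul_pr, smul_zero, add_zero,
      mul_smul_comm, ← mul_assoc, E00_mul_E00]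
  have hAA' : A * A' = 1 := by
    have h1 : J - E 0 0 * J = j • pr := by
      nth_rewrite 1 [hJ]
      abel
    have h2 : A * A' = (κ * j) • (J - E 0 0 * J) + E 0 0 := by
      rw [hA, add_mul, smul_mul_assoc, hYA' J hJ0, hE00A', smul_sub, smul_smul]
      abel
    rw [h2, h1, smul_smul, mul_assoc, hjκ, hκκ, one_smul]
    unfold pr
    rw [sub_add_cancel]
  have hA'A : A' * A = 1 := mul_eq_one_comm.mp hAA'
  have hPY : ∀ Y, K0 Y → s.P Y = j • (A * Y * A') := by
    intro Y hY
    rw [hP Y hY, mul_assoc, hYA' Y hY, mul_smul_comm, smul_smul, hjκ, hA, ← smul_mul_assoc,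
      smul_add, smul_smul, hκκ, one_smul]
  have hinv : A⁻¹ = A' := Matrix.inv_eq_right_inv hAA'
  have hAe : ∀ i, A i 0 = if i = 0 then 1 else 0 := by
    intro i
    rw [hA, Matrix.add_apply, Matrix.smul_apply, hJ0, smul_zero, zero_add, E_apply]
    by_cases hi : i = 0
    · subst hi; simp
    · rw [if_neg (by rintro ⟨h, _⟩; exact hi h.symm), if_neg hi]
  clear_value A A'
  -- the normalised map
  let F : Mat (m + 2) →ₗ[ℂ] Mat (m + 2) :=
    { toFun := fun T => j⁻¹ • (A' * s.P T * A)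
      map_add' := by
        intro x y
        rw [map_add, mul_add, add_mul, smul_add]
      map_smul' := by
        intro c x
        rw [map_smul, mul_smul_comm, smul_mul_assoc, smul_comm]
        rfl }
  have hFdef : ∀ T, F T = j⁻¹ • (A' * s.P T * A) := fun T => rfl
  have hconj : ∀ M : Mat (m + 2), A' * (A * M * A') * A = M := by
    intro M
    have : A' * (A * M * A') * A = (A' * A) * M * (A' * A) := by noncomm_ring
    rw [this, hA'A, one_mul, mul_one]
  have hconj' : ∀ M : Mat (m + 2), A * (A' * M * A) * A' = M := by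
    intro M
    have : A * (A' * M * A) * A' = (A * A') * M * (A * A') := by noncomm_ring
    rw [this, hAA', one_mul, mul_one]
  have hFK : ∀ Y, K0 Y → F Y = Y := by
    intro Y hY
    rw [hFdef, hPY Y hY, mul_smul_comm, smul_mul_assoc, hconj, smul_smul, inv_mul_cancel₀ hj0,
      one_smul]
  have hF1 : ∃ c : ℂ, F 1 = 1 + c • 1 := by
    refine ⟨j⁻¹ - 1, ?_⟩
    rw [hFdef, s.h1, mul_one, hA'A, sub_smul, one_smul]
    abel
  have hbrF : ∀ X Y, br (F X) (F Y) = (j⁻¹ * j⁻¹) • (A' * br (s.P X) (s.P Y) * A) := by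
    intro X Y
    rw [hFdef, hFdef, br_smul_left, br_smul_right, smul_smul]
    congr 1
    unfold br
    have h1 : A' * s.P X * A * (A' * s.P Y * A) = A' * s.P X * (A * A') * s.P Y * A := by
      noncomm_ring
    have h2 : A' * s.P Y * A * (A' * s.P X * A) = A' * s.P Y * (A * A') * s.P X * A := by
      noncomm_ring
    rw [h1, h2, hAA', mul_one, mul_one]
    noncomm_ring
  have hFR : ∀ X Y Z W, (br (F X) (F Y) * br (F Z) (F W)).trace = (br X Y * br Z W).trace := by
    intro X Y Z W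
    rw [hbrF, hbrF, smul_mul_assoc, mul_smul_comm, smul_smul, trace_smul]
    have h1 : A' * br (s.P X) (s.P Y) * A * (A' * br (s.P Z) (s.P W) * A) =
        A' * (br (s.P X) (s.P Y) * (A * A') * br (s.P Z) (s.P W)) * A := by
      noncomm_ring
    have h3 : (A' * (br (s.P X) (s.P Y) * br (s.P Z) (s.P W)) * A).trace =
        (br (s.P X) (s.P Y) * br (s.P Z) (s.P W)).trace := by
      rw [trace_mul_comm, ← mul_assoc, hAA', one_mul]
    rw [h1, hAA', mul_one, h3, s.hR]
    have h2 : j⁻¹ * j⁻¹ * (j⁻¹ * j⁻¹) = 1 := by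
      have : j⁻¹ * j⁻¹ * (j⁻¹ * j⁻¹) = (j ^ 4)⁻¹ := by
        rw [← inv_pow]; ring
      rw [this, hj4, inv_one]
    rw [h2, one_smul]
  refine ⟨A, j, ?_, ?_, hj4, ?_⟩
  · exact IsUnit.of_mul_eq_one A' hAA'
  · ext i
    rw [mulVec_e0, hAe]
    unfold e0
    by_cases hi : i = 0
    · subst hi; simp
    · simp [hi]
  · intro T
    obtain ⟨c, hc⟩ := ident_all F hFK hF1 hFR T
    refine ⟨j * c, ?_⟩
    have h1 : s.P T = j • (A * F T * A') := by
      rw [hFdef, mul_smul_comm, smul_mul_assoc, hconj', smul_smul, mul_inv_cancel₀ hj0, one_smul]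
    rw [h1, hc, hinv, mul_add, add_mul, smul_add, mul_smul_comm, mul_one, smul_mul_assoc, hAA',
      smul_smul]

end Pool.Agent.Lib.MP_add2b9_al.St

namespace Pool.Agent.Lib.MP_add2b9_al

open Matrix

/-- **Structure theorem.** -/
theorem structure_thm {m : ℕ} (P : Mat (m + 2) ≃ₗ[ℂ] Mat (m + 2)) (h1 : P 1 = 1)
    (he : ∀ T, P T *ᵥ e0 = T *ᵥ e0)
    (hK : ∀ T S, (br (P T) (P S) * br (P T) (P S)).trace = (br T S * br T S).trace) :
    ∃ (A : Mat (m + 2)) (j : ℂ), IsUnit A ∧ A *ᵥ e0 = e0 ∧ j ^ 4 = 1 ∧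
      ∀ T, ∃ c : ℂ, P T = j • (A * T * A⁻¹) + c • 1 := by
  have he' : ∀ T i, P T i 0 = T i 0 := by
    intro T i
    have h := congrFun (he T) i
    rw [St.mulVec_e0, St.mulVec_e0] at h
    exact h
  have hR : ∀ X Y Z W, (br (P X) (P Y) * br (P Z) (P W)).trace = (br X Y * br Z W).trace := by
    intro X Y Z W
    exact St.curvature_identity (P : Mat (m + 2) →ₗ[ℂ] Mat (m + 2)) hK X Y Z W
  exact St.Setup.structure_aux ⟨P, h1, he', hR⟩

end Pool.Agent.Lib.MP_add2b9_al
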