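import Pool.Agent.Lib.MP_add2b9_al.Normalise
import Pool.Agent.Lib.MP_add2b9_al.Structure

/-!
# Maps preserving the local spectrum of commutators: the main theorem
-/

namespace Pool.Agent.Lib.MP_add2b9_al

open Matrix Polynomial

variable {m : ℕ}

lemma inv_mulVec_e0 {A : Mat (m + 2)} (hA : IsUnit A) (hAe : A *ᵥ (e0 : Fin (m + 2) → ℂ) = e0) :
    A⁻¹ *ᵥ (e0 : Fin (m + 2) → ℂ) = e0 := by
  have hdet : IsUnit A.det := (Matrix.isUnit_iff_isUnit_det A).1 hA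
  conv_lhs => rw [← hAe]
  rw [Matrix.mulVec_mulVec, Matrix.nonsing_inv_mul A hdet, Matrix.one_mulVec]

lemma conj_cancel {n : ℕ} {A : Mat n} (hA : IsUnit A) (T : Mat n) :
    A⁻¹ * (A * T * A⁻¹) * A = T := by
  have hdet : IsUnit A.det := (Matrix.isUnit_iff_isUnit_det A).1 hA
  calc A⁻¹ * (A * T * A⁻¹) * A = (A⁻¹ * A) * T * (A⁻¹ * A) := by
        simp only [Matrix.mul_assoc]
    _ = T := by rw [Matrix.nonsing_inv_mul A hdet, Matrix.one_mul, Matrix.mul_one]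

/-- the case `x₀ = e₀` -/
theorem main_e0 (φ : Mat (m + 2) → Mat (m + 2))
    (hφ : ∀ T S, localSpectrum (br (φ T) (φ S)) (e0 : Fin (m + 2) → ℂ) =
      localSpectrum (br T S) (e0 : Fin (m + 2) → ℂ)) :
    IsStandardForm (e0 : Fin (m + 2) → ℂ) φ := by
  obtain ⟨H, hH, hHe, h6⟩ := step6 (φ := φ) hφ
  obtain ⟨P, hP1, hPe, hPK, δ, hδ, hδne, hPδ⟩ := step7 (Pres.conj (φ := φ) hφ hH hHe) h6
  obtain ⟨A, j, hA, hAe, hj, hPA⟩ := structure_thm P hP1 hPe hPK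
  have hHdet : IsUnit H.det := (Matrix.isUnit_iff_isUnit_det H).1 hH
  have hAdet : IsUnit A.det := (Matrix.isUnit_iff_isUnit_det A).1 hA
  have hAi : IsUnit A⁻¹ := (Matrix.isUnit_nonsing_inv_iff).2 hA
  have hAie := inv_mulVec_e0 hA hAe
  have hAii : A⁻¹⁻¹ = A := Matrix.nonsing_inv_nonsing_inv A hAdet
  -- second conjugation
  set φ2 : Mat (m + 2) → Mat (m + 2) := fun T => A⁻¹ * (H * φ T * H⁻¹) * A⁻¹⁻¹ with hφ2
  have hφ2P : ∀ T S, localSpectrum (br (φ2 T) (φ2 S)) (e0 : Fin (m + 2) → ℂ) =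
      localSpectrum (br T S) (e0 : Fin (m + 2) → ℂ) :=
    (Pres.conj (φ := φ) hφ hH hHe).conj hAi hAie
  have hgen : ∀ S, δ S ≠ 0 → ∃ c : ℂ, φ2 S = j • S + c • 1 := by
    intro S hS
    obtain ⟨c, hc⟩ := hPδ S hS
    obtain ⟨c', hc'⟩ := hPA S
    refine ⟨c' + c, ?_⟩
    show A⁻¹ * (H * φ S * H⁻¹) * A⁻¹⁻¹ = _
    rw [hAii, hc, hc', Matrix.mul_add, Matrix.mul_add, Matrix.add_mul, Matrix.add_mul,
      Matrix.mul_smul, Matrix.smul_mul, conj_cancel hA, Matrix.mul_smul, Matrix.mul_smul,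
      Matrix.mul_one, Matrix.smul_mul, Matrix.smul_mul, Matrix.nonsing_inv_mul A hAdet, add_smul,
      add_assoc]
  have hj0 : j ≠ 0 := by
    rintro rfl
    norm_num at hj
  have hst2 := stage2 φ2 hφ2P j hj δ hδ hδne hgen
  obtain ⟨ξ, η, hξ, hξc, hξη⟩ := stage3 φ2 hφ2P j⁻¹ (inv_ne_zero hj0) hst2
  refine ⟨H⁻¹ * A, η, ξ, ?_, ?_, hξ, hξc, fun T => ?_⟩
  · exact ((Matrix.isUnit_nonsing_inv_iff).2 hH).mul hA
  · rw [← Matrix.mulVec_mulVec, hAe, inv_mulVec_e0 hH hHe]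
  · have h1 := hξη T
    have h2 : φ T = H⁻¹ * (A * φ2 T * A⁻¹) * H := by
      show φ T = H⁻¹ * (A * (A⁻¹ * (H * φ T * H⁻¹) * A⁻¹⁻¹) * A⁻¹) * H
      have h3 := conj_cancel hAi (H * φ T * H⁻¹)
      rw [hAii] at h3 ⊢
      rw [h3, conj_cancel hH]
    have hinv : (H⁻¹ * A)⁻¹ = A⁻¹ * H := by
      rw [Matrix.mul_inv_rev, Matrix.nonsing_inv_nonsing_inv H hHdet]
    rw [h2, h1, hinv]
    simp only [Matrix.mul_add, Matrix.add_mul, Matrix.mul_smul, Matrix.smul_mul, Matrix.mul_one,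
      Matrix.mul_assoc]
    rw [← Matrix.mul_assoc A A⁻¹ H, Matrix.mul_nonsing_inv A hAdet, Matrix.one_mul,
      Matrix.nonsing_inv_mul H hHdet]

/-- **Main theorem.** -/
theorem main (n : ℕ) (x0 : Fin n → ℂ) (hx0 : x0 ≠ 0) (φ : Mat n → Mat n) :
    (∀ T S, localSpectrum (φ T * φ S - φ S * φ T) x0 = localSpectrum (T * S - S * T) x0) ↔
      IsStandardForm x0 φ := by
  constructor
  · intro h
    exact reduction (fun m φ hφ => main_e0 φ hφ) n x0 hx0 φ h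
  · intro h T S
    exact easy_direction x0 hx0 φ h T S

end Pool.Agent.Lib.MP_add2b9_al
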