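import Pool.Agent.Lib.MP_add2b9_al.Reduction

/-!
# Stage 3: the signs
-/

namespace Pool.Agent.Lib.MP_add2b9_al

open Matrix Polynomial

namespace Signs

/-- a matrix with prescribed values on linearly independent vectors -/
lemma exists_mat_of_linearIndependent {n : ℕ} {ι : Type} {v : ι → (Fin n → ℂ)}
    (hv : LinearIndependent ℂ v) (u : ι → (Fin n → ℂ)) :
    ∃ S : Mat n, ∀ i, S *ᵥ v i = u i := by
  classical
  obtain ⟨g, hg⟩ := (Finsupp.linearCombination ℂ u ∘ₗ hv.repr).exists_extend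
  refine ⟨LinearMap.toMatrix' g, fun i => ?_⟩
  rw [LinearMap.toMatrix'_mulVec]
  have h1 := LinearMap.congr_fun hg ⟨v i, Submodule.subset_span ⟨i, rfl⟩⟩
  simp only [LinearMap.comp_apply, Submodule.subtype_apply] at h1
  rw [h1]
  have h2 : hv.repr ⟨v i, Submodule.subset_span ⟨i, rfl⟩⟩ = Finsupp.single i 1 :=
    hv.repr_eq_single i _ rfl
  rw [h2]
  simp

lemma aeval_mulVec_of_sq {n : ℕ} (Z : Mat n) (x w : Fin n → ℂ) (h1 : Z *ᵥ x = w)
    (h2 : Z *ᵥ w = w) (p : ℂ[X]) :
    (aeval Z p) *ᵥ x = p.eval 0 • (x - w) + p.eval 1 • w := by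
  have hk : ∀ k : ℕ, (Z ^ (k + 1)) *ᵥ x = w := by
    intro k
    induction k with
    | zero => simpa using h1
    | succ k ih => rw [pow_succ', ← Matrix.mulVec_mulVec, ih, h2]
  induction p using Polynomial.induction_on' with
  | add p q hp hq => rw [map_add, Matrix.add_mulVec, hp, hq, eval_add, eval_add]; module
  | monomial k a =>
    rw [aeval_monomial, eval_monomial, eval_monomial, Algebra.algebraMap_eq_smul_one,
      smul_mul_assoc, one_mul, Matrix.smul_mulVec]
    cases k with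
    | zero => simp; module
    | succ k => rw [hk]; simp

/-- the local spectrum is `{0, 1}` -/
lemma localSpectrum_zero_one {n : ℕ} (Z : Mat n) (x w : Fin n → ℂ) (h1 : Z *ᵥ x = w)
    (h2 : Z *ᵥ w = w) (hw : w ≠ 0) :
    (1 : ℂ) ∈ localSpectrum Z x ∧ (-1 : ℂ) ∉ localSpectrum Z x := by
  constructor
  · rw [mem_localSpectrum_iff]
    intro p hp
    rw [aeval_mulVec_of_sq Z x w h1 h2] at hp
    -- apply `Z`
    have h3 : Z *ᵥ (p.eval 0 • (x - w) + p.eval 1 • w) = 0 := by rw [hp, Matrix.mulVec_zero]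
    rw [Matrix.mulVec_add, Matrix.mulVec_smul, Matrix.mulVec_smul, Matrix.mulVec_sub, h1, h2,
      sub_self, smul_zero, zero_add] at h3
    exact (smul_eq_zero.1 h3).resolve_right hw
  · intro h
    rw [mem_localSpectrum_iff] at h
    have := h (X * (X - 1)) (by
      rw [aeval_mulVec_of_sq Z x w h1 h2]; simp)
    norm_num at this

/-- if `T (T v)` is a multiple of `T v` for every `v`, then `T * T` is a multiple of `T` -/
lemma exists_sq_eq_smul {n : ℕ} (T : Mat n)
    (h : ∀ v, ¬ LinearIndependent ℂ ![T *ᵥ v, T *ᵥ (T *ᵥ v)])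
    (h' : ∀ v, T *ᵥ v ≠ 0 → T *ᵥ (T *ᵥ v) ≠ 0) (hT : T ≠ 0) :
    ∃ β : ℂ, β ≠ 0 ∧ T * T = β • T := by
  have h1 : ∀ v, ∃ β : ℂ, T *ᵥ (T *ᵥ v) = β • (T *ᵥ v) := by
    intro v
    by_cases hv : T *ᵥ v = 0
    · exact ⟨0, by rw [hv]; simp⟩
    · have h2 := h v
      rw [LinearIndependent.pair_iff' hv] at h2
      push Not at h2
      obtain ⟨a, ha⟩ := h2
      exact ⟨a, ha.symm⟩
  obtain ⟨v0, hv0⟩ : ∃ v0, T *ᵥ v0 ≠ 0 := by
    by_contra hcon
    push Not at hcon
    apply hT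
    ext i j
    have := congrFun (hcon (Pi.single j 1)) i
    simpa using this
  obtain ⟨β, hβ⟩ := h1 v0
  have hβ0 : β ≠ 0 := by
    rintro rfl
    rw [zero_smul] at hβ
    exact h' v0 hv0 hβ
  refine ⟨β, hβ0, ?_⟩
  have key : ∀ v, T *ᵥ (T *ᵥ v) = β • (T *ᵥ v) := by
    intro v
    by_cases hdep : ∃ a : ℂ, a • (T *ᵥ v0) = T *ᵥ v
    · obtain ⟨a, ha⟩ := hdep
      rw [← ha, Matrix.mulVec_smul, hβ, smul_comm]
    · have hli : LinearIndependent ℂ ![T *ᵥ v0, T *ᵥ v] := by
        rw [LinearIndependent.pair_iff' hv0]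
        exact fun a ha => hdep ⟨a, ha⟩
      obtain ⟨b, hb⟩ := h1 v
      obtain ⟨c, hc⟩ := h1 (v0 + v)
      rw [Matrix.mulVec_add, Matrix.mulVec_add, hβ, hb] at hc
      rw [LinearIndependent.pair_iff] at hli
      have h3 := hli (β - c) (b - c) (by
        have : β • T *ᵥ v0 + b • T *ᵥ v - c • (T *ᵥ v0 + T *ᵥ v) = 0 := by rw [hc, sub_self]
        rw [← this]; module)
      have h4 : b = β := by rw [sub_eq_zero.1 h3.2, sub_eq_zero.1 h3.1]
      rw [hb, h4]
  ext i j
  have := congrFun (key (Pi.single j 1)) i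
  rw [Matrix.mulVec_mulVec] at this
  simpa using this

lemma mulVec_e0 {m : ℕ} (T : Mat (m + 2)) (i : Fin (m + 2)) : (T *ᵥ e0) i = T i 0 := by
  simp [e0]

lemma eq_smul_e0 {m : ℕ} {v : Fin (m + 2) → ℂ} (h : ∀ i, i ≠ 0 → v i = 0) : v = v 0 • e0 := by
  ext i
  by_cases hi : i = 0
  · subst hi; simp [e0]
  · rw [h i hi]; simp [e0, hi]

lemma e0_ne_zero {m : ℕ} : (e0 : Fin (m + 2) → ℂ) ≠ 0 := by
  intro h0
  have := congrFun h0 0
  simp [e0] at this

/-- for `T` outside the exceptional set with `T e0 = 0` there is `S` with `S e0 ∉ ℂ e0` such that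
the local spectrum of `[T, S]` contains `1` but not `-1`. -/
lemma exists_asymmetric {m : ℕ} (T : Mat (m + 2)) (hT0 : T *ᵥ e0 = 0) (hT : T ≠ 0)
    (hsq : ∀ β : ℂ, β ≠ 0 → T * T ≠ β • T) :
    ∃ S : Mat (m + 2), (∃ i, i ≠ 0 ∧ S i 0 ≠ 0) ∧
      (1 : ℂ) ∈ localSpectrum (br T S) e0 ∧ (-1 : ℂ) ∉ localSpectrum (br T S) e0 := by
  have hS : ∀ S : Mat (m + 2), T *ᵥ (S *ᵥ e0) ≠ 0 → ∃ i, i ≠ 0 ∧ S i 0 ≠ 0 := by
    intro S hS
    by_contra hcon
    push Not at hcon
    apply hS
    rw [eq_smul_e0 (v := S *ᵥ e0) (fun i hi => by rw [mulVec_e0]; exact hcon i hi),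
      Matrix.mulVec_smul, hT0, smul_zero]
  have hbr : ∀ (S : Mat (m + 2)) (x : Fin (m + 2) → ℂ),
      br T S *ᵥ x = T *ᵥ (S *ᵥ x) - S *ᵥ (T *ᵥ x) := by
    intro S x
    rw [br, Matrix.sub_mulVec, Matrix.mulVec_mulVec, Matrix.mulVec_mulVec]
  by_cases hA : ∃ p, T *ᵥ p = e0
  · obtain ⟨p, hp⟩ := hA
    obtain ⟨S, hSv⟩ := exists_mat_of_linearIndependent (ι := Fin 1)
      (v := ![(e0 : Fin (m + 2) → ℂ)]) (LinearIndependent.of_subsingleton 0 e0_ne_zero) ![p]
    have hS0 : S *ᵥ e0 = p := by simpa using hSv 0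
    refine ⟨S, hS S (by rw [hS0, hp]; exact e0_ne_zero), ?_⟩
    have h1 : br T S *ᵥ e0 = (1 : ℂ) • e0 := by
      rw [hbr, hS0, hp, hT0, Matrix.mulVec_zero, sub_zero, one_smul]
    rw [localSpectrum_of_eigen _ e0_ne_zero h1]
    refine ⟨rfl, ?_⟩
    rw [Set.mem_singleton_iff]
    norm_num
  · push Not at hA
    by_cases hB1 : ∃ v, T *ᵥ v ≠ 0 ∧ T *ᵥ (T *ᵥ v) = 0
    · obtain ⟨v, hv, hv2⟩ := hB1
      have hli : LinearIndependent ℂ ![(e0 : Fin (m + 2) → ℂ), T *ᵥ v] := by
        rw [LinearIndependent.pair_iff]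
        intro s t hst
        by_cases hs : s = 0
        · subst hs
          rw [zero_smul, zero_add] at hst
          exact ⟨rfl, (smul_eq_zero.1 hst).resolve_right hv⟩
        · exfalso
          apply hA (-(s⁻¹ * t) • v)
          rw [Matrix.mulVec_smul]
          have h1 : s⁻¹ • (s • (e0 : Fin (m + 2) → ℂ) + t • T *ᵥ v) = 0 := by
            rw [hst, smul_zero]
          rw [smul_add, smul_smul, smul_smul, inv_mul_cancel₀ hs, one_smul] at h1
          rw [neg_smul]
          exact (eq_neg_of_add_eq_zero_left h1).symm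
      obtain ⟨S, hSv⟩ := exists_mat_of_linearIndependent hli ![v, v]
      have hS0 : S *ᵥ e0 = v := by simpa using hSv 0
      have hS1 : S *ᵥ (T *ᵥ v) = v := by simpa using hSv 1
      refine ⟨S, hS S (by rw [hS0]; exact hv), ?_⟩
      apply localSpectrum_zero_one _ _ (T *ᵥ v) _ _ hv
      · rw [hbr, hS0, hT0, Matrix.mulVec_zero, sub_zero]
      · rw [hbr, hS1, hv2, Matrix.mulVec_zero, sub_zero]
    · push Not at hB1
      by_cases hB2 : ∃ v, LinearIndependent ℂ ![T *ᵥ v, T *ᵥ (T *ᵥ v)]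
      · obtain ⟨v, hv⟩ := hB2
        have hv0 : T *ᵥ v ≠ 0 := by simpa using hv.ne_zero 0
        have hli : LinearIndependent ℂ
            ![(e0 : Fin (m + 2) → ℂ), T *ᵥ v, T *ᵥ (T *ᵥ v)] := by
          rw [LinearIndependent.pair_iff] at hv
          rw [Fintype.linearIndependent_iff]
          intro g hg
          simp only [Fin.sum_univ_three, Matrix.cons_val_zero, Matrix.cons_val_one,
            Matrix.cons_val] at hg
          have hg0 : g 0 = 0 := by
            by_contra hs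
            apply hA (-((g 0)⁻¹ * g 1) • v + -((g 0)⁻¹ * g 2) • (T *ᵥ v))
            rw [Matrix.mulVec_add, Matrix.mulVec_smul, Matrix.mulVec_smul]
            have h1 : (g 0)⁻¹ • (g 0 • (e0 : Fin (m + 2) → ℂ) + g 1 • T *ᵥ v +
                g 2 • T *ᵥ (T *ᵥ v)) = 0 := by
              rw [hg, smul_zero]
            rw [smul_add, smul_add, smul_smul, smul_smul, smul_smul, inv_mul_cancel₀ hs,
              one_smul, add_assoc] at h1
            rw [neg_smul, neg_smul, ← neg_add]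
            exact (eq_neg_of_add_eq_zero_left h1).symm
          rw [hg0, zero_smul, zero_add] at hg
          obtain ⟨h1, h2⟩ := hv _ _ hg
          intro i
          fin_cases i
          · exact hg0
          · exact h1
          · exact h2
        obtain ⟨S, hSv⟩ := exists_mat_of_linearIndependent hli ![v, 0, -(T *ᵥ v)]
        have hS0 : S *ᵥ e0 = v := by simpa using hSv 0
        have hS1 : S *ᵥ (T *ᵥ v) = 0 := by simpa using hSv 1
        have hS2 : S *ᵥ (T *ᵥ (T *ᵥ v)) = -(T *ᵥ v) := by simpa using hSv 2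
        refine ⟨S, hS S (by rw [hS0]; exact hv0), ?_⟩
        apply localSpectrum_zero_one _ _ (T *ᵥ v) _ _ hv0
        · rw [hbr, hS0, hT0, Matrix.mulVec_zero, sub_zero]
        · rw [hbr, hS1, hS2, Matrix.mulVec_zero, zero_sub, neg_neg]
      · push Not at hB2
        obtain ⟨β, hβ, hβ2⟩ := exists_sq_eq_smul T hB2 hB1 hT
        exact absurd hβ2 (hsq β hβ)

lemma sq_sub_half {n : ℕ} (Y : Mat n) (β : ℂ) (h : Y * Y = β • Y) :
    (Y - (β / 2) • (1 : Mat n)) ^ 2 = (β / 2) ^ 2 • (1 : Mat n) := by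
  rw [pow_two, Matrix.sub_mul, Matrix.mul_sub, Matrix.mul_sub, h]
  simp only [Matrix.mul_smul, Matrix.smul_mul, Matrix.mul_one, Matrix.one_mul, smul_smul]
  module

end Signs

open Signs

theorem stage3 {m : ℕ} (φ : Mat (m + 2) → Mat (m + 2))
    (hφ : ∀ T S, localSpectrum (br (φ T) (φ S)) e0 = localSpectrum (br T S) e0)
    (θ0 : ℂ) (h0 : θ0 ≠ 0) (hθ : ∀ T, ∃ θ c : ℂ, (θ = θ0 ∨ θ = -θ0) ∧ φ T = θ • T + c • 1) :
    ∃ ξ η : Mat (m + 2) → ℂ, (∀ T, ξ T = 1 ∨ ξ T = -1) ∧
      (∀ T S, T ∉ exceptional (e0 : Fin (m + 2) → ℂ) → S ∉ exceptional (e0 : Fin (m + 2) → ℂ) →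
        ξ T = ξ S) ∧ ∀ T, φ T = ξ T • T + η T • 1 := by
  choose θ η hθη hform using hθ
  have key : ∀ T S, localSpectrum ((θ T * θ S) • br T S) (e0 : Fin (m + 2) → ℂ) =
      localSpectrum (br T S) e0 := by
    intro T S
    rw [← hφ T S, hform T, hform S, br_smul_add]
  have hsq : ∀ T, θ T * θ T = θ0 * θ0 := by
    intro T
    rcases hθη T with h | h <;> rw [h] <;> ring
  -- a common eigenvector computation
  have heig : ∀ (T S : Mat (m + 2)) (c : ℂ), c ≠ 0 → br T S *ᵥ e0 = c • e0 →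
      θ T * θ S = 1 := by
    intro T S c hc h
    have h1 := key T S
    rw [localSpectrum_of_eigen _ e0_ne_zero h,
      localSpectrum_of_eigen _ e0_ne_zero (m := θ T * θ S * c) (by
        rw [Matrix.smul_mulVec, h, smul_smul])] at h1
    have h2 : θ T * θ S * c = c := Set.singleton_injective h1
    exact mul_right_cancel₀ hc (by rw [h2, one_mul])
  have hN : ∀ (T : Mat (m + 2)) (i : Fin (m + 2)), i ≠ 0 → T i 0 ≠ 0 →
      θ T * θ (Matrix.single 0 i 1) = 1 := by
    intro T i hi hTi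
    apply heig T _ (-(T i 0)) (neg_ne_zero.2 hTi)
    rw [br, Matrix.sub_mulVec, ← Matrix.mulVec_mulVec, ← Matrix.mulVec_mulVec,
      Matrix.single_mulVec_eq, Matrix.single_mulVec_eq, mulVec_e0]
    have : (e0 : Fin (m + 2) → ℂ) i = 0 := by simp [e0, hi]
    rw [this, mul_zero, zero_smul, Matrix.mulVec_zero, zero_sub, one_mul, neg_smul]
    rfl
  set θ1 : ℂ := θ (Matrix.of fun _ _ => 1) with hθ1
  have hconst : ∀ T : Mat (m + 2), (∃ i, i ≠ 0 ∧ T i 0 ≠ 0) → θ T = θ1 := by
    rintro T ⟨i, hi, hTi⟩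
    have h1 := hN T i hi hTi
    have h2 := hN (Matrix.of fun _ _ => 1) i hi (by simp)
    have h3 : θ (Matrix.single 0 i 1) ≠ 0 := by
      intro h4
      rw [h4, mul_zero] at h1
      exact zero_ne_one h1
    exact mul_right_cancel₀ h3 (h1.trans h2.symm)
  have hθ1sq : θ1 * θ1 = 1 := by
    have h1 := heig (Matrix.single 1 0 1) (Matrix.single 1 0 1 + Matrix.single 0 1 1) (-1)
      (by norm_num) (by
        rw [br, Matrix.sub_mulVec, ← Matrix.mulVec_mulVec, ← Matrix.mulVec_mulVec,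
          Matrix.add_mulVec, Matrix.add_mulVec]
        simp only [Matrix.single_mulVec_eq]
        ext i
        simp [e0])
    rw [hconst _ ⟨1, by simp, by simp [Matrix.single]⟩,
      hconst _ ⟨1, by simp, by simp [Matrix.single]⟩] at h1
    exact h1
  have hθ0sq : θ0 * θ0 = 1 := by rw [← hsq (Matrix.of fun _ _ => 1)]; exact hθ1sq
  have hpm : ∀ T, θ T = 1 ∨ θ T = -1 := by
    intro T
    have := hsq T
    rw [hθ0sq] at this
    exact mul_self_eq_one_iff.1 this
  have hmain : ∀ T, T ∉ exceptional (e0 : Fin (m + 2) → ℂ) → θ T = θ1 := by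
    intro T hT
    by_cases hcase : ∃ i, i ≠ 0 ∧ T i 0 ≠ 0
    · exact hconst T hcase
    · push Not at hcase
      have hTe : T *ᵥ e0 = (T 0 0) • (e0 : Fin (m + 2) → ℂ) := by
        have := eq_smul_e0 (v := T *ᵥ e0) (fun i hi => by rw [mulVec_e0]; exact hcase i hi)
        rwa [mulVec_e0] at this
      set T' : Mat (m + 2) := T - (T 0 0) • (1 : Mat (m + 2)) with hT'
      have hT'0 : T' *ᵥ e0 = 0 := by
        rw [hT', Matrix.sub_mulVec, hTe, Matrix.smul_mulVec, Matrix.one_mulVec, sub_self]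
      have hT'ne : T' ≠ 0 := by
        intro h1
        apply hT
        refine ⟨⟨T 0 0, hTe⟩, T 0 0 - 1, 1, one_ne_zero, ?_⟩
        have h2 : T - (T 0 0 - 1) • (1 : Mat (m + 2)) = T' + 1 := by
          rw [hT', sub_smul, one_smul]; abel
        rw [h2, h1]
        simp
      have hT'sq : ∀ β : ℂ, β ≠ 0 → T' * T' ≠ β • T' := by
        intro β hβ h1
        apply hT
        refine ⟨⟨T 0 0, hTe⟩, T 0 0 + β / 2, (β / 2) ^ 2,
          pow_ne_zero _ (div_ne_zero hβ two_ne_zero), ?_⟩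
        have h2 : T - (T 0 0 + β / 2) • (1 : Mat (m + 2)) = T' - (β / 2) • 1 := by
          rw [hT', add_smul]; abel
        rw [h2]
        exact sq_sub_half T' β h1
      obtain ⟨S, hS, h1, h2⟩ := exists_asymmetric T' hT'0 hT'ne hT'sq
      have hbr : br T' S = br T S := by
        simp [br, hT', Matrix.sub_mul, Matrix.mul_sub]
      rw [hbr] at h1 h2
      have hθS := hconst S hS
      have hprod : θ T * θ S = 1 := by
        have : θ T * θ S = 1 ∨ θ T * θ S = -1 := by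
          rcases hpm T with h | h <;> rcases hpm S with h' | h' <;> rw [h, h'] <;> norm_num
        rcases this with h | h
        · exact h
        · exfalso
          have h3 := key T S
          rw [h, neg_one_smul] at h3
          apply h2
          rw [← localSpectrum_neg, h3]
          exact h1
      rw [hθS] at hprod
      have h4 : θ1 ≠ 0 := by
        intro h5
        rw [h5, mul_zero] at hprod
        exact zero_ne_one hprod
      exact mul_right_cancel₀ h4 (hprod.trans hθ1sq.symm)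
  exact ⟨θ, η, hpm, fun T S hT hS => by rw [hmain T hT, hmain S hS], hform⟩

end Pool.Agent.Lib.MP_add2b9_al
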