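import Pool.Agent.Lib.MP_add2b9_al.LinePoly
import Pool.Agent.Lib.MP_add2b9_al.E0

/-!
# Stage 2: from generic matrices to all matrices
-/

set_option autoImplicit false

namespace Pool.Agent.Lib.MP_add2b9_al

namespace St2

open Matrix Polynomial

section matlp

variable {V : Type*} [AddCommGroup V] [Module ℂ V] {n : ℕ}

/-- A matrix valued function which is polynomial along every line. -/
def MatLP (M : V → Mat n) : Prop :=
  ∀ v w : V, ∃ P : Matrix (Fin n) (Fin n) ℂ[X], ∀ t : ℂ, M (v + t • w) = P.map (evalRingHom t)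

lemma MatLP.linear (L : V →ₗ[ℂ] Mat n) : MatLP (fun v => L v) := fun v w =>
  ⟨lineMat (L v) (L w), fun t => by
    show L (v + t • w) = _
    rw [lineMat_map, map_add, map_smul]⟩

lemma MatLP.pow {M : V → Mat n} (hM : MatLP M) (k : ℕ) : MatLP (fun v => M v ^ k) := fun v w => by
  obtain ⟨P, hP⟩ := hM v w
  refine ⟨P ^ k, fun t => ?_⟩
  have h := map_pow (evalRingHom t).mapMatrix P k
  rw [RingHom.mapMatrix_apply, RingHom.mapMatrix_apply] at h
  rw [h]
  simp only [hP]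

lemma MatLP.aeval_charpoly {M N : V → Mat n} (hM : MatLP M) (hN : MatLP N) :
    MatLP (fun v => aeval (M v) (N v).charpoly) := fun v w => by
  obtain ⟨P, hP⟩ := hM v w
  obtain ⟨Q, hQ⟩ := hN v w
  refine ⟨aeval P Q.charpoly, fun t => ?_⟩
  have h := map_aeval_eq_aeval_map (R := ℂ[X]) (S := Matrix (Fin n) (Fin n) ℂ[X]) (T := ℂ)
    (U := Mat n) (φ := evalRingHom t) (ψ := (evalRingHom t).mapMatrix) (by
      ext1
      · ext1 c
        ext i j
        by_cases hij : i = j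
        · subst hij; simp [Matrix.algebraMap_matrix_apply]
        · simp [Matrix.algebraMap_matrix_apply, hij]
      · ext i j
        by_cases hij : i = j
        · subst hij; simp [Matrix.algebraMap_matrix_apply]
        · simp [Matrix.algebraMap_matrix_apply, hij]) Q.charpoly P
  rw [RingHom.mapMatrix_apply, RingHom.mapMatrix_apply, ← Matrix.charpoly_map] at h
  rw [h]
  simp only [hP, hQ]

lemma MatLP.mulVec_apply {M : V → Mat n} (hM : MatLP M) (x : Fin n → ℂ) (i : Fin n) :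
    LinePoly (fun v => (M v *ᵥ x) i) := fun v w => by
  obtain ⟨P, hP⟩ := hM v w
  refine ⟨∑ k, P i k * C (x k), fun t => ?_⟩
  simp only [hP]
  rw [Matrix.mulVec, dotProduct, eval_finsetSum]
  simp

end matlp

variable {n : ℕ}

/-- `S ↦ [T, S]` as a linear map -/
def brL (T : Mat n) : Mat n →ₗ[ℂ] Mat n where
  toFun S := br T S
  map_add' S S' := by unfold br; rw [Matrix.mul_add, Matrix.add_mul]; abel
  map_smul' c S := by
    unfold br
    rw [Matrix.mul_smul, Matrix.smul_mul, smul_sub]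
    rfl

lemma brL_apply (T S : Mat n) : brL T S = br T S := rfl

lemma br_affine (Y S : Mat n) (j c : ℂ) : br Y (j • S + c • 1) = j • br Y S := by
  unfold br
  rw [Matrix.mul_add, Matrix.add_mul, Matrix.mul_smul, Matrix.smul_mul, Matrix.mul_smul,
    Matrix.smul_mul, Matrix.mul_one, Matrix.one_mul, smul_sub]
  abel

/-- a root of a polynomial some power of which kills the local vector -/
lemma eval_eq_zero_of_left (Z : Mat n) {x g : Fin n → ℂ} {m : ℂ} (h : g ᵥ* Z = m • g)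
    (hg : g ⬝ᵥ x ≠ 0) (q : ℂ[X]) (k : ℕ) (hq : ((aeval Z q) ^ k) *ᵥ x = 0) : q.eval m = 0 := by
  have h1 := (mem_localSpectrum_iff Z x m).1 (mem_of_left_eigen Z h hg) (q ^ k) (by
    rw [map_pow]; exact hq)
  rw [eval_pow] at h1
  exact eq_zero_of_pow_eq_zero h1

/-- commutator with a rank one matrix -/
lemma br_vecMulVec (T : Mat n) (u g : Fin n → ℂ) :
    br T (vecMulVec u g) = vecMulVec (T *ᵥ u) g - vecMulVec u (g ᵥ* T) := by
  unfold br
  rw [Matrix.mul_vecMulVec, Matrix.vecMulVec_mul]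

lemma left_eigen (T : Mat n) {u g : Fin n → ℂ} (hgu : g ⬝ᵥ u = 0) :
    g ᵥ* br T (vecMulVec u g) = (g ⬝ᵥ (T *ᵥ u)) • g := by
  rw [br_vecMulVec, Matrix.vecMul_sub, Matrix.vecMul_vecMulVec, Matrix.vecMul_vecMulVec, hgu,
    zero_smul, sub_zero]

/-- the eigenvalues of a commutator with a rank one nilpotent -/
lemma eigen_rank_one (Y : Mat n) {u g : Fin n → ℂ} (hgu : g ⬝ᵥ u = 0) (j m : ℂ)
    (h : (j • br Y (vecMulVec u g)).charpoly.eval m = 0) :
    m = 0 ∨ m = j * (g ⬝ᵥ (Y *ᵥ u)) ∨ m = -(j * (g ⬝ᵥ (Y *ᵥ u))) := by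
  rw [Matrix.eval_charpoly, ← Matrix.exists_mulVec_eq_zero_iff] at h
  obtain ⟨v, hv0, hv⟩ := h
  by_cases hm : m = 0
  · exact Or.inl hm
  right
  set r := g ⬝ᵥ (Y *ᵥ u) with hr
  have hv1 : m • v = (j * (g ⬝ᵥ v)) • (Y *ᵥ u) - (j * ((g ᵥ* Y) ⬝ᵥ v)) • u := by
    rw [Matrix.sub_mulVec, sub_eq_zero, Matrix.smul_mulVec, br_vecMulVec, Matrix.sub_mulVec,
      Matrix.vecMulVec_mulVec, Matrix.vecMulVec_mulVec] at hv
    have h1 : (Matrix.scalar (Fin n)) m *ᵥ v = m • v := by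
      ext i
      simp [Matrix.scalar_apply, Matrix.mulVec_diagonal]
    rw [h1] at hv
    rw [hv]
    ext i
    simp
    ring
  have ha : m * (g ⬝ᵥ v) = j * r * (g ⬝ᵥ v) := by
    have := congrArg (fun w => g ⬝ᵥ w) hv1
    simp only [dotProduct_smul, dotProduct_sub, hgu, smul_eq_mul, mul_zero, sub_zero] at this
    rw [this]
    ring
  by_cases hgv : g ⬝ᵥ v = 0
  · right
    rw [hgv, mul_zero, zero_smul, zero_sub] at hv1
    have hb : m * ((g ᵥ* Y) ⬝ᵥ v) = -(j * r) * ((g ᵥ* Y) ⬝ᵥ v) := by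
      have := congrArg (fun w => (g ᵥ* Y) ⬝ᵥ w) hv1
      simp only [dotProduct_smul, dotProduct_neg, smul_eq_mul, ← Matrix.dotProduct_mulVec] at this
      rw [← hr] at this
      rw [← Matrix.dotProduct_mulVec, this]
      ring
    have hne : (g ᵥ* Y) ⬝ᵥ v ≠ 0 := by
      intro h0
      rw [h0, mul_zero, zero_smul, neg_zero] at hv1
      exact hv0 ((smul_eq_zero.1 hv1).resolve_left hm)
    exact mul_right_cancel₀ hne hb
  · left
    exact mul_right_cancel₀ hgv ha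

section dots

variable {V : Type*} [AddCommGroup V] [Module ℂ V]

lemma linePoly_dot (L M : V →ₗ[ℂ] (Fin n → ℂ)) : LinePoly (fun v => L v ⬝ᵥ M v) := by
  unfold dotProduct
  refine LinePoly.sum Finset.univ (fun i _ => ?_)
  exact (LinePoly.linear ((LinearMap.proj i).comp L)).mul (LinePoly.linear ((LinearMap.proj i).comp M))

end dots

/-- a matrix `B` with `g B u = 0` whenever `g u = 0` is scalar (in a parametrised form) -/
lemma scalar_of_forall (B : Mat n) (i0 : Fin n)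
    (h : ∀ g a b : Fin n → ℂ, (g ⬝ᵥ a) * (g ⬝ᵥ (B *ᵥ b)) - (g ⬝ᵥ b) * (g ⬝ᵥ (B *ᵥ a)) = 0) :
    B = (B i0 i0) • (1 : Mat n) := by
  have hoff : ∀ i k, i ≠ k → B i k = 0 := by
    intro i k hik
    have := h (Pi.single i 1) (Pi.single i 1) (Pi.single k 1)
    simpa [Pi.single_apply, hik] using this
  have hdiag : ∀ i k, B i i = B k k := by
    intro i k
    by_cases hik : i = k
    · rw [hik]
    have h1 := h (Pi.single i 1 + Pi.single k 1) (Pi.single i 1) (Pi.single k 1)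
    have h2 := hoff i k hik
    have h3 := hoff k i (Ne.symm hik)
    simp [add_dotProduct, hik, Ne.symm hik, h2, h3] at h1
    linear_combination -h1
  ext i k
  by_cases hik : i = k
  · subst hik
    simp [hdiag i i0]
  · rw [hoff i k hik]
    simp [hik]

end St2

open Matrix Polynomial St2

/-- **Stage 2.** If `φ S = j S + c` for generic `S` then `φ T = ± j⁻¹ T + c` for all `T`. -/
theorem stage2_gen {n : ℕ} (x0 : Fin n → ℂ) (hx0 : x0 ≠ 0) (φ : Mat n → Mat n)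
    (hφ : ∀ T S, localSpectrum (br (φ T) (φ S)) x0 = localSpectrum (br T S) x0)
    (j : ℂ) (hj : j ≠ 0) (δ : Mat n → ℂ) (hδ : LinePoly δ) (hne : ∃ S, δ S ≠ 0)
    (hgen : ∀ S, δ S ≠ 0 → ∃ c : ℂ, φ S = j • S + c • 1) (T : Mat n) :
    ∃ θ c : ℂ, (θ = j⁻¹ ∨ θ = -j⁻¹) ∧ φ T = θ • T + c • 1 := by
  set Y := φ T with hY
  have hsp : ∀ S, δ S ≠ 0 → localSpectrum (j • br Y S) x0 = localSpectrum (br T S) x0 := by
    intro S hS
    obtain ⟨c, hc⟩ := hgen S hS
    rw [← hφ T S, ← hY, hc, br_affine]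
  -- the two polynomial identities
  have key1 : ∀ S, ((aeval (br T S) (j • br Y S).charpoly) ^ n) *ᵥ x0 = 0 := by
    intro S
    ext i
    have hLP : LinePoly (fun S => (((aeval (br T S) (j • br Y S).charpoly) ^ n) *ᵥ x0) i) :=
      (((MatLP.linear (brL T)).aeval_charpoly (MatLP.linear (j • brL Y))).pow n).mulVec_apply x0 i
    refine hLP.eq_zero_of hδ hne (fun S hS => ?_) S
    have h1 := pow_mulVec_eq_zero (br T S) x0 (j • br Y S).charpoly (fun l hl => by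
      rw [← hsp S hS] at hl
      exact eval_charpoly_of_mem _ _ hl)
    exact congrFun h1 i
  have key2 : ∀ S, ((aeval (j • br Y S) (br T S).charpoly) ^ n) *ᵥ x0 = 0 := by
    intro S
    ext i
    have hLP : LinePoly (fun S => (((aeval (j • br Y S) (br T S).charpoly) ^ n) *ᵥ x0) i) :=
      (((MatLP.linear (j • brL Y)).aeval_charpoly (MatLP.linear (brL T))).pow n).mulVec_apply x0 i
    refine hLP.eq_zero_of hδ hne (fun S hS => ?_) S
    have h1 := pow_mulVec_eq_zero (j • br Y S) x0 (br T S).charpoly (fun l hl => by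
      rw [hsp S hS] at hl
      exact eval_charpoly_of_mem _ _ hl)
    exact congrFun h1 i
  -- rank one test matrices
  have hsq : ∀ u g : Fin n → ℂ, g ⬝ᵥ u = 0 → g ⬝ᵥ x0 ≠ 0 →
      (g ⬝ᵥ (T *ᵥ u)) ^ 2 = (j * (g ⬝ᵥ (Y *ᵥ u))) ^ 2 := by
    intro u g hgu hg
    have hL := left_eigen T hgu
    have hR : g ᵥ* (j • br Y (vecMulVec u g)) = (j * (g ⬝ᵥ (Y *ᵥ u))) • g := by
      rw [Matrix.vecMul_smul, left_eigen Y hgu, smul_smul]
    have e1 := eval_eq_zero_of_left _ hL hg _ n (key1 (vecMulVec u g))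
    have e2 := eval_eq_zero_of_left _ hR hg _ n (key2 (vecMulVec u g))
    have f1 := eigen_rank_one Y hgu j _ e1
    have f2 := eigen_rank_one T hgu 1 (j * (g ⬝ᵥ (Y *ᵥ u))) (by rw [one_smul]; exact e2)
    rw [one_mul] at f2
    rcases f1 with f1 | f1 | f1
    · rcases f2 with f2 | f2 | f2
      · rw [f1, f2]
      · rw [f2]
      · rw [f2]; ring
    · rw [f1]
    · rw [f1]; ring
  -- the two candidate matrices
  set B1 : Mat n := T - j • Y with hB1
  set B2 : Mat n := T + j • Y with hB2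
  let V := (Fin n → ℂ) × (Fin n → ℂ) × (Fin n → ℂ)
  let Lg : V →ₗ[ℂ] (Fin n → ℂ) := LinearMap.fst ℂ _ _
  let La : V →ₗ[ℂ] (Fin n → ℂ) := (LinearMap.fst ℂ _ _).comp (LinearMap.snd ℂ _ _)
  let Lb : V →ₗ[ℂ] (Fin n → ℂ) := (LinearMap.snd ℂ _ _).comp (LinearMap.snd ℂ _ _)
  let F : Mat n → V → ℂ := fun B v =>
    (Lg v ⬝ᵥ La v) * (Lg v ⬝ᵥ ((Matrix.mulVecLin B).comp Lb) v) -
      (Lg v ⬝ᵥ Lb v) * (Lg v ⬝ᵥ ((Matrix.mulVecLin B).comp La) v)
  have hF : ∀ B, LinePoly (F B) := fun B =>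
    ((linePoly_dot Lg La).mul (linePoly_dot Lg ((Matrix.mulVecLin B).comp Lb))).sub
      ((linePoly_dot Lg Lb).mul (linePoly_dot Lg ((Matrix.mulVecLin B).comp La)))
  let x0L : (Fin n → ℂ) →ₗ[ℂ] ℂ :=
    { toFun := fun g => g ⬝ᵥ x0
      map_add' := fun a b => add_dotProduct a b x0
      map_smul' := fun c a => smul_dotProduct c a x0 }
  have hG : LinePoly (fun v : V => x0L (Lg v)) := LinePoly.linear (x0L.comp Lg)
  have hGne : ∃ v : V, x0L (Lg v) ≠ 0 := by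
    obtain ⟨i, hi⟩ := Function.ne_iff.1 hx0
    refine ⟨(Pi.single i 1, 0, 0), ?_⟩
    show (Pi.single i 1 : Fin n → ℂ) ⬝ᵥ x0 ≠ 0
    rw [single_one_dotProduct]
    exact hi
  have hprod : ∀ v : V, F B1 v * F B2 v = 0 := by
    intro v
    refine LinePoly.eq_zero_of (F := fun v => F B1 v * F B2 v) ((hF B1).mul (hF B2)) hG hGne ?_ v
    rintro ⟨g, a, b⟩ hg
    change g ⬝ᵥ x0 ≠ 0 at hg
    change ((g ⬝ᵥ a) * (g ⬝ᵥ (B1 *ᵥ b)) - (g ⬝ᵥ b) * (g ⬝ᵥ (B1 *ᵥ a))) *
      ((g ⬝ᵥ a) * (g ⬝ᵥ (B2 *ᵥ b)) - (g ⬝ᵥ b) * (g ⬝ᵥ (B2 *ᵥ a))) = 0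
    have h1 := hsq ((g ⬝ᵥ a) • b - (g ⬝ᵥ b) • a) g (by
      rw [dotProduct_sub, dotProduct_smul, dotProduct_smul, smul_eq_mul, smul_eq_mul]; ring) hg
    rw [hB1, hB2]
    simp only [Matrix.mulVec_sub, Matrix.mulVec_smul, dotProduct_sub, dotProduct_smul,
      smul_eq_mul, Matrix.sub_mulVec, Matrix.add_mulVec, Matrix.smul_mulVec, dotProduct_add] at h1 ⊢
    linear_combination h1
  obtain ⟨i0, _⟩ := Function.ne_iff.1 hx0
  rcases (hF B1).eq_zero_or (hF B2) hprod with h | h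
  · have h1 := scalar_of_forall B1 i0 (fun g a b => h (g, a, b))
    refine ⟨j⁻¹, -(j⁻¹ * B1 i0 i0), Or.inl rfl, ?_⟩
    have h2 : j • Y = T - (B1 i0 i0) • (1 : Mat n) := by
      rw [← h1, hB1]; abel
    have h3 : Y = j⁻¹ • (j • Y) := by rw [smul_smul, inv_mul_cancel₀ hj, one_smul]
    rw [h3, h2, smul_sub, smul_smul, neg_smul, sub_eq_add_neg]
  · have h1 := scalar_of_forall B2 i0 (fun g a b => h (g, a, b))
    refine ⟨-j⁻¹, j⁻¹ * B2 i0 i0, Or.inr rfl, ?_⟩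
    have h2 : j • Y = (B2 i0 i0) • (1 : Mat n) - T := by
      rw [← h1, hB2]; abel
    have h3 : Y = j⁻¹ • (j • Y) := by rw [smul_smul, inv_mul_cancel₀ hj, one_smul]
    rw [h3, h2, smul_sub, smul_smul, neg_smul]
    abel

/-- JOB E -/
theorem stage2 {m : ℕ} (φ : Mat (m + 2) → Mat (m + 2))
    (hφ : ∀ T S, localSpectrum (br (φ T) (φ S)) e0 = localSpectrum (br T S) e0)
    (j : ℂ) (hj : j ^ 4 = 1) (δ : Mat (m + 2) → ℂ) (hδ : LinePoly δ) (hne : ∃ S, δ S ≠ 0)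
    (hgen : ∀ S, δ S ≠ 0 → ∃ c : ℂ, φ S = j • S + c • 1) (T : Mat (m + 2)) :
    ∃ θ c : ℂ, (θ = j⁻¹ ∨ θ = -j⁻¹) ∧ φ T = θ • T + c • 1 := by
  refine stage2_gen e0 ?_ φ hφ j ?_ δ hδ hne hgen T
  · intro h
    have := congrFun h 0
    simp [e0] at this
  · rintro rfl
    norm_num at hj

end Pool.Agent.Lib.MP_add2b9_al
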