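import Pool.Agent.Lib.MP_add2b9_al.TheoremA
import Pool.Agent.Lib.MP_add2b9_al.FiveLemma
import Pool.Agent.Lib.MP_add2b9_al.Stage2
import Pool.Agent.Lib.MP_add2b9_al.Signs

/-!
# Normalisation: after a conjugation `φ T e₀ = T e₀` modulo `e₀`, and the linear map fixes `T e₀`
-/

namespace Pool.Agent.Lib.MP_add2b9_al

open Matrix Polynomial

variable {m : ℕ}

lemma LinePoly.dichotomy {V : Type*} [AddCommGroup V] [Module ℂ V] {ι κ : Type*}
    {F : ι → V → ℂ} {G : κ → V → ℂ} (hF : ∀ i, LinePoly (F i)) (hG : ∀ j, LinePoly (G j))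
    {δ : V → ℂ} (hδ : LinePoly δ) (hne : ∃ v, δ v ≠ 0)
    (h : ∀ v, δ v ≠ 0 → (∀ i, F i v = 0) ∨ (∀ j, G j v = 0)) :
    (∀ v i, F i v = 0) ∨ (∀ v j, G j v = 0) := by
  by_cases hall : ∀ v i, F i v = 0
  · exact Or.inl hall
  · right
    simp only [not_forall] at hall
    obtain ⟨v0, i, hi⟩ := hall
    intro v j
    have h1 : ∀ v, F i v * G j v = 0 := by
      intro v
      refine LinePoly.eq_zero_of (F := fun v => F i v * G j v) ((hF i).mul (hG j)) hδ hne ?_ v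
      intro v hv
      rcases h v hv with h1 | h1
      · show F i v * G j v = 0
        rw [h1 i, zero_mul]
      · show F i v * G j v = 0
        rw [h1 j, mul_zero]
    rcases (hF i).eq_zero_or (hG j) h1 with h2 | h2
    · exact absurd (h2 v0) hi
    · exact h2 v

/-- the functional `S ↦ f (S e₀)` -/
def fe0 (f : Fin (m + 2) → ℂ) : Mat (m + 2) →ₗ[ℂ] ℂ where
  toFun S := f ⬝ᵥ (S *ᵥ e0)
  map_add' A B := by rw [Matrix.add_mulVec, dotProduct_add]
  map_smul' c A := by rw [Matrix.smul_mulVec, dotProduct_smul, RingHom.id_apply]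

@[simp] lemma fe0_apply (f : Fin (m + 2) → ℂ) (S : Mat (m + 2)) :
    fe0 f S = f ⬝ᵥ (S *ᵥ e0) := rfl

lemma localSpectrum_br_rank_one (f : Fin (m + 2) → ℂ) (hf0 : f ⬝ᵥ (e0 : Fin (m + 2) → ℂ) = 0)
    (c : ℂ) (S : Mat (m + 2)) :
    localSpectrum (br (vecMulVec e0 f + c • 1) S) (e0 : Fin (m + 2) → ℂ) =
      {f ⬝ᵥ (S *ᵥ e0)} := by
  rw [br_add_scalar_left]
  apply localSpectrum_of_eigen _ Five.e0_ne_zero
  unfold br
  rw [Matrix.sub_mulVec, ← Matrix.mulVec_mulVec, ← Matrix.mulVec_mulVec, Five.vecMulVec_mulVec',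
    Five.vecMulVec_mulVec', hf0, zero_smul, Matrix.mulVec_zero, sub_zero]

/-- Step 5 -/
lemma step5 {φ : Mat (m + 2) → Mat (m + 2)} (hφ : Pres φ) (f : Fin (m + 2) → ℂ) (hf : f ≠ 0)
    (hf0 : f ⬝ᵥ (e0 : Fin (m + 2) → ℂ) = 0) :
    ∃ h : Fin (m + 2) → ℂ, h ⬝ᵥ (e0 : Fin (m + 2) → ℂ) = 0 ∧
      ∀ T, h ⬝ᵥ (φ T *ᵥ e0) = f ⬝ᵥ (T *ᵥ e0) := by
  obtain ⟨P, hP1, hP00, hPK, hP⟩ := theoremA hφ
  set N : Mat (m + 2) := vecMulVec e0 f with hN
  set Y := φ N with hY
  have hspec : ∀ S, localSpectrum (br N S) (e0 : Fin (m + 2) → ℂ) = {f ⬝ᵥ (S *ᵥ e0)} := by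
    intro S
    have h1 := localSpectrum_br_rank_one f hf0 0 S
    rwa [zero_smul, add_zero] at h1
  -- linear families
  let L : ℂ → (Mat (m + 2) →ₗ[ℂ] Mat (m + 2)) := fun ε =>
    (brR Y) ∘ₗ (P : Mat (m + 2) →ₗ[ℂ] Mat (m + 2)) - (ε • fe0 f).smulRight (1 : Mat (m + 2))
  have hL : ∀ ε S, L ε S = br Y (P S) - (ε * (f ⬝ᵥ (S *ᵥ e0))) • (1 : Mat (m + 2)) := by
    intro ε S
    simp [L]
  have hLP : ∀ ε i, LinePoly (fun S => ((L ε S) ^ (m + 2) *ᵥ (e0 : Fin (m + 2) → ℂ)) i) :=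
    fun ε i => ((St2.MatLP.linear (L ε)).pow (m + 2)).mulVec_apply e0 i
  have hdich := LinePoly.dichotomy (fun i => hLP 1 i) (fun i => hLP (-1) i)
    (δ := fun S => D (br S Sz)) (linePoly_D_left Sz) ⟨Tz, D_br_Tz_Sz⟩ (by
      intro S hS
      obtain ⟨s, c, hs, hSφ⟩ := hP S ⟨Sz, hS⟩
      have h1 := pow_mulVec_eq_zero (br Y (φ S)) e0 (X - C (f ⬝ᵥ (S *ᵥ e0))) (by
        intro l hl
        rw [hY, hφ, hspec, Set.mem_singleton_iff] at hl
        simp [hl])
      rw [map_sub, aeval_X, aeval_C, Algebra.algebraMap_eq_smul_one, hSφ, br_add_scalar_right,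
        br_smul_right] at h1
      have h2 : s • br Y (P S) - (f ⬝ᵥ (S *ᵥ e0)) • (1 : Mat (m + 2)) = s • L s S := by
        rw [hL, smul_sub, smul_smul, ← mul_assoc]
        have hss : s * s = 1 := by rcases hs with rfl | rfl <;> norm_num
        rw [hss, one_mul]
      rw [h2, _root_.smul_pow, Matrix.smul_mulVec] at h1
      have hsne : s ^ (m + 2) ≠ 0 := by
        apply pow_ne_zero
        rcases hs with rfl | rfl <;> norm_num
      have h3 := (smul_eq_zero.1 h1).resolve_left hsne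
      rcases hs with rfl | rfl
      · left; intro i; exact congrFun h3 i
      · right; intro i; exact congrFun h3 i)
  obtain ⟨ε, hε, hεL⟩ : ∃ ε : ℂ, ε ≠ 0 ∧ ∀ S, (L ε S) ^ (m + 2) *ᵥ (e0 : Fin (m + 2) → ℂ) = 0 := by
    rcases hdich with h | h
    · exact ⟨1, one_ne_zero, fun S => funext (h S)⟩
    · exact ⟨-1, by norm_num, fun S => funext (h S)⟩
  let l : Mat (m + 2) →ₗ[ℂ] ℂ := (ε • fe0 f) ∘ₗ (P.symm : Mat (m + 2) →ₗ[ℂ] Mat (m + 2))
  have hl_apply : ∀ S, l S = ε * (f ⬝ᵥ (P.symm S *ᵥ e0)) := by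
    intro S; simp [l]
  have hlne : l ≠ 0 := by
    intro h0
    obtain ⟨i, hi⟩ := Function.ne_iff.1 hf
    have h1 := hl_apply (P (vecMulVec (Pi.single i 1) e0))
    rw [h0, LinearMap.zero_apply, LinearEquiv.symm_apply_apply, Five.vecMulVec_mulVec',
      Five.e0_dot] at h1
    rw [show (e0 : Fin (m + 2) → ℂ) 0 = 1 by simp [e0], one_smul, dotProduct_single_one] at h1
    rcases mul_eq_zero.1 h1.symm with h2 | h2
    · exact hε h2
    · exact hi h2
  obtain ⟨h, c, hh, hh0, hYh, _⟩ := Five.five (Y := Y) hlne (by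
    intro S
    have h1 := hεL (P.symm S)
    rw [hL, LinearEquiv.apply_symm_apply] at h1
    rw [hl_apply]
    exact h1)
  refine ⟨h, hh0, fun T => ?_⟩
  have h1 := hφ N T
  rw [hspec, ← hY, hYh, localSpectrum_br_rank_one h hh0] at h1
  exact Set.singleton_injective h1

/-- Step 6 -/
lemma step6 {φ : Mat (m + 2) → Mat (m + 2)} (hφ : Pres φ) :
    ∃ H : Mat (m + 2), IsUnit H ∧ H *ᵥ e0 = e0 ∧ ∀ T i, i ≠ 0 → (H * φ T * H⁻¹) i 0 = T i 0 := by
  have h5 : ∀ i : Fin (m + 2), ∃ h : Fin (m + 2) → ℂ, i ≠ 0 → (h ⬝ᵥ (e0 : Fin (m + 2) → ℂ) = 0 ∧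
      ∀ T, h ⬝ᵥ (φ T *ᵥ e0) = T i 0) := by
    intro i
    by_cases hi : i = 0
    · exact ⟨0, fun h => absurd hi h⟩
    · obtain ⟨h, h1, h2⟩ := step5 hφ (Pi.single i 1) (by
        intro h0
        have := congrFun h0 i
        simp at this) (by rw [Five.dot_e0]; simp [Ne.symm hi])
      refine ⟨h, fun _ => ⟨h1, fun T => ?_⟩⟩
      rw [h2, single_one_dotProduct, Five.mulVec_e0]
  choose h hh using h5
  set H : Mat (m + 2) := Matrix.of fun i => if i = 0 then Pi.single 0 1 else h i with hH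
  have hH0 : ∀ v : Fin (m + 2) → ℂ, (H *ᵥ v) 0 = v 0 := by
    intro v
    show (fun j => H 0 j) ⬝ᵥ v = _
    have : (fun j => H 0 j) = Pi.single 0 1 := by
      funext j; simp [hH]
    rw [this, single_one_dotProduct]
  have hHi : ∀ (v : Fin (m + 2) → ℂ) i, i ≠ 0 → (H *ᵥ v) i = h i ⬝ᵥ v := by
    intro v i hi
    show (fun j => H i j) ⬝ᵥ v = _
    have : (fun j => H i j) = h i := by
      funext j; simp [hH, hi]
    rw [this]
  have hHe : H *ᵥ (e0 : Fin (m + 2) → ℂ) = e0 := by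
    ext i
    by_cases hi : i = 0
    · subst hi; rw [hH0]
    · rw [hHi _ i hi, (hh i hi).1]; simp [e0, hi]
  have hunit : IsUnit H := by
    rw [Matrix.isUnit_iff_isUnit_det, isUnit_iff_ne_zero]
    intro hdet
    obtain ⟨v, hv, hvH⟩ := Matrix.exists_vecMul_eq_zero_iff.2 hdet
    have h1 : v 0 = 0 := by
      have h2 : (v ᵥ* H) ⬝ᵥ (e0 : Fin (m + 2) → ℂ) = 0 := by rw [hvH, zero_dotProduct]
      rw [← Matrix.dotProduct_mulVec, hHe, Five.dot_e0] at h2
      exact h2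
    apply hv
    funext k
    by_cases hk : k = 0
    · rw [hk, h1]; rfl
    · have h2 : (v ᵥ* H) ⬝ᵥ (φ (vecMulVec (Pi.single k 1) e0) *ᵥ (e0 : Fin (m + 2) → ℂ)) = 0 := by
        rw [hvH, zero_dotProduct]
      rw [← Matrix.dotProduct_mulVec, dotProduct, Finset.sum_eq_single k] at h2
      · rw [hHi _ k hk, (hh k hk).2, vecMulVec_apply] at h2
        simpa [e0] using h2
      · intro i _ hik
        by_cases hi : i = 0
        · rw [hi, h1, zero_mul]
        · rw [hHi _ i hi, (hh i hi).2, vecMulVec_apply]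
          simp [hik]
      · simp
  have hdet : IsUnit H.det := (Matrix.isUnit_iff_isUnit_det H).1 hunit
  refine ⟨H, hunit, hHe, fun T i hi => ?_⟩
  have hHinv : H⁻¹ *ᵥ (e0 : Fin (m + 2) → ℂ) = e0 := by
    conv_lhs => rw [← hHe]
    rw [Matrix.mulVec_mulVec, Matrix.nonsing_inv_mul H hdet, Matrix.one_mulVec]
  have h1 := Five.mulVec_e0 (H * φ T * H⁻¹) i
  rw [← h1, ← Matrix.mulVec_mulVec, hHinv, ← Matrix.mulVec_mulVec, hHi _ i hi,
    (hh i hi).2]

/-- conjugation keeps the hypothesis -/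
lemma Pres.conj {φ : Mat (m + 2) → Mat (m + 2)} (hφ : Pres φ) {H : Mat (m + 2)} (hH : IsUnit H)
    (hHe : H *ᵥ (e0 : Fin (m + 2) → ℂ) = e0) : Pres (fun T => H * φ T * H⁻¹) := by
  intro T S
  show localSpectrum (br (H * φ T * H⁻¹) (H * φ S * H⁻¹)) e0 = _
  rw [br_conj _ _ _ hH]
  conv_lhs => rw [← hHe]
  rw [localSpectrum_conj H _ hH]
  exact hφ T S

/-- entries of the first column as functionals -/
def en (i : Fin (m + 2)) : Mat (m + 2) →ₗ[ℂ] ℂ where
  toFun T := T i 0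
  map_add' _ _ := rfl
  map_smul' _ _ := rfl

@[simp] lemma en_apply (i : Fin (m + 2)) (T : Mat (m + 2)) : en i T = T i 0 := rfl

/-- Step 7 -/
lemma step7 {φ : Mat (m + 2) → Mat (m + 2)} (hφ : Pres φ)
    (h6 : ∀ T i, i ≠ 0 → φ T i 0 = T i 0) :
    ∃ P : Mat (m + 2) ≃ₗ[ℂ] Mat (m + 2), P 1 = 1 ∧ (∀ T, P T *ᵥ e0 = T *ᵥ e0) ∧
      (∀ T S, (br (P T) (P S) * br (P T) (P S)).trace = (br T S * br T S).trace) ∧
      ∃ δ : Mat (m + 2) → ℂ, LinePoly δ ∧ (∃ S, δ S ≠ 0) ∧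
        ∀ T, δ T ≠ 0 → ∃ c : ℂ, φ T = P T + c • 1 := by
  obtain ⟨P, hP1, hP00, hPK, hP⟩ := theoremA hφ
  let F : ℂ → Fin (m + 2) → (Mat (m + 2) →ₗ[ℂ] ℂ) := fun κ i =>
    if i = 0 then 0 else (en i) ∘ₗ (P : Mat (m + 2) →ₗ[ℂ] Mat (m + 2)) - κ • en i
  have hF : ∀ κ i T, i ≠ 0 → F κ i T = P T i 0 - κ * T i 0 := by
    intro κ i T hi
    simp [F, hi]
  have hF0 : ∀ κ T, F κ 0 T = 0 := by
    intro κ T
    simp [F]
  have hdich := LinePoly.dichotomy (F := fun i => (fun T => F 1 i T))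
    (G := fun i => (fun T => F (-1) i T)) (fun i => LinePoly.linear (F 1 i))
    (fun i => LinePoly.linear (F (-1) i)) (δ := fun S => D (br S Sz)) (linePoly_D_left Sz)
    ⟨Tz, D_br_Tz_Sz⟩ (by
      intro S hS
      obtain ⟨s, c, hs, hSφ⟩ := hP S ⟨Sz, hS⟩
      have h1 : ∀ i, i ≠ 0 → S i 0 = s * P S i 0 := by
        intro i hi
        rw [← h6 S i hi, hSφ]
        simp [hi]
      rcases hs with rfl | rfl
      · left
        intro i
        by_cases hi : i = 0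
        · rw [hi]; exact hF0 _ _
        · show F 1 i S = 0
          rw [hF _ _ _ hi, h1 i hi]; ring
      · right
        intro i
        by_cases hi : i = 0
        · rw [hi]; exact hF0 _ _
        · show F (-1) i S = 0
          rw [hF _ _ _ hi, h1 i hi]; ring)
  obtain ⟨κ, hκ, hκP⟩ : ∃ κ : ℂ, (κ = 1 ∨ κ = -1) ∧ ∀ T i, i ≠ 0 → P T i 0 = κ * T i 0 := by
    rcases hdich with h | h
    · refine ⟨1, Or.inl rfl, fun T i hi => ?_⟩
      have := h T i
      change F 1 i T = 0 at this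
      rw [hF _ _ _ hi] at this
      linear_combination this
    · refine ⟨-1, Or.inr rfl, fun T i hi => ?_⟩
      have := h T i
      change F (-1) i T = 0 at this
      rw [hF _ _ _ hi] at this
      linear_combination this
  have hκκ : κ * κ = 1 := by rcases hκ with rfl | rfl <;> norm_num
  -- the corrected map
  let P1 : Mat (m + 2) →ₗ[ℂ] Mat (m + 2) :=
    κ • (P : Mat (m + 2) →ₗ[ℂ] Mat (m + 2)) + ((1 - κ) • en 0).smulRight (1 : Mat (m + 2))
  have hP1_apply : ∀ T, P1 T = κ • P T + ((1 - κ) * T 0 0) • (1 : Mat (m + 2)) := by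
    intro T
    simp [P1]
  have hinj : Function.Injective P1 := by
    rw [← LinearMap.ker_eq_bot, LinearMap.ker_eq_bot']
    intro T hT
    rw [hP1_apply] at hT
    have h1 : T 0 0 = 0 := by
      have h2 := congrFun (congrFun hT 0) 0
      rw [Matrix.add_apply, Matrix.smul_apply, Matrix.smul_apply, Matrix.one_apply_eq, hP00,
        smul_eq_mul, smul_eq_mul, mul_one, Matrix.zero_apply] at h2
      linear_combination h2
    rw [h1, mul_zero, zero_smul, add_zero] at hT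
    have h3 : P T = 0 := by
      have h4 : κ • (κ • P T) = 0 := by rw [hT, smul_zero]
      rwa [smul_smul, hκκ, one_smul] at h4
    exact (LinearEquiv.map_eq_zero_iff P).1 h3
  have hbr : ∀ T S, br (P1 T) (P1 S) = br (P T) (P S) := by
    intro T S
    rw [hP1_apply, hP1_apply, br_add_scalar_left, br_add_scalar_right, br_smul_left,
      br_smul_right, smul_smul, hκκ, one_smul]
  have hcol : ∀ T, P1 T *ᵥ (e0 : Fin (m + 2) → ℂ) = T *ᵥ e0 := by
    intro T
    ext i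
    rw [Five.mulVec_e0, Five.mulVec_e0, hP1_apply, Matrix.add_apply, Matrix.smul_apply,
      Matrix.smul_apply, smul_eq_mul, smul_eq_mul, Matrix.one_apply]
    by_cases hi : i = 0
    · subst hi
      rw [hP00, if_pos rfl]
      ring
    · rw [hκP T i hi, if_neg hi, ← mul_assoc, hκκ]
      ring
  refine ⟨LinearEquiv.ofInjectiveEndo P1 hinj, ?_, ?_, ?_, fun T => D (br T Sz) * T 1 0, ?_, ?_, ?_⟩
  · show P1 1 = 1
    rw [hP1_apply, hP1, Matrix.one_apply_eq, mul_one, ← add_smul]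
    rw [show κ + (1 - κ) = 1 by ring, one_smul]
  · intro T
    exact hcol T
  · intro T S
    show (br (P1 T) (P1 S) * br (P1 T) (P1 S)).trace = _
    rw [hbr]
    exact hPK T S
  · exact (linePoly_D_left Sz).mul (LinePoly.linear (en 1))
  · by_contra hcon
    simp only [not_exists, not_not] at hcon
    rcases (linePoly_D_left (m := m) Sz).eq_zero_or (LinePoly.linear (en 1)) hcon with h | h
    · exact D_br_Tz_Sz (h Tz)
    · have h1 := h (Matrix.of fun _ _ => 1)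
      simp at h1
  · intro T hT
    have hD : D (br T Sz) ≠ 0 := left_ne_zero_of_mul hT
    have hT1 : T 1 0 ≠ 0 := right_ne_zero_of_mul hT
    obtain ⟨s, c, hs, hTφ⟩ := hP T ⟨Sz, hD⟩
    have hne : (1 : Fin (m + 2)) ≠ 0 := by simp
    have h1 : T 1 0 = s * (κ * T 1 0) := by
      conv_lhs => rw [← h6 T 1 hne, hTφ]
      rw [Matrix.add_apply, Matrix.smul_apply, Matrix.smul_apply, Matrix.one_apply_ne hne,
        smul_eq_mul, smul_eq_mul, mul_zero, add_zero, hκP T 1 hne]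
    have h2 : s = κ := by
      have h3 : (s * κ - 1) * T 1 0 = 0 := by linear_combination -h1
      have h4 := (mul_eq_zero.1 h3).resolve_right hT1
      have h5 : s * κ = 1 := sub_eq_zero.1 h4
      calc s = s * (κ * κ) := by rw [hκκ, mul_one]
        _ = (s * κ) * κ := by ring
        _ = κ := by rw [h5, one_mul]
    refine ⟨c - (1 - κ) * T 0 0, ?_⟩
    show φ T = P1 T + _
    rw [hTφ, h2, hP1_apply, sub_smul]
    abel

end Pool.Agent.Lib.MP_add2b9_al
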