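import Pool.Agent.Lib.MP_add2b9_al.Forms

/-!
# Products of functionals `T ↦ g (T v)` with `g v = 0` lie in the span
-/

namespace Pool.Agent.Lib.MP_add2b9_al

open Matrix Polynomial

variable {m : ℕ}

/-- the functional `T ↦ g (T v)` -/
def om (v g : Fin m → ℂ) : Mat m →ₗ[ℂ] ℂ where
  toFun T := g ⬝ᵥ (T *ᵥ v)
  map_add' A B := by rw [Matrix.add_mulVec, dotProduct_add]
  map_smul' c A := by rw [Matrix.smul_mulVec, dotProduct_smul, RingHom.id_apply]

@[simp] lemma om_apply (v g : Fin m → ℂ) (T : Mat m) : om v g T = g ⬝ᵥ (T *ᵥ v) := rfl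

/-- symmetrised product of two functionals -/
def sp (a b : Mat m →ₗ[ℂ] ℂ) : LinearMap.BilinForm ℂ (Mat m) :=
  LinearMap.mk₂ ℂ (fun T T' => a T * b T' + a T' * b T)
    (fun x y z => by rw [map_add, map_add]; ring)
    (fun c x y => by rw [map_smul, map_smul, smul_eq_mul, smul_eq_mul, smul_eq_mul]; ring)
    (fun x y z => by rw [map_add, map_add]; ring)
    (fun c x y => by rw [map_smul, map_smul, smul_eq_mul, smul_eq_mul, smul_eq_mul]; ring)

@[simp] lemma sp_apply (a b : Mat m →ₗ[ℂ] ℂ) (T T' : Mat m) :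
    sp a b T T' = a T * b T' + a T' * b T := rfl

lemma sp_comm (a b : Mat m →ₗ[ℂ] ℂ) : sp a b = sp b a := by
  ext T T'
  rw [sp_apply, sp_apply]; ring

lemma sp_add_left (a a' b : Mat m →ₗ[ℂ] ℂ) : sp (a + a') b = sp a b + sp a' b := by
  ext T T'
  simp only [sp_apply, LinearMap.add_apply]; ring

lemma sp_smul_left (c : ℂ) (a b : Mat m →ₗ[ℂ] ℂ) : sp (c • a) b = c • sp a b := by
  ext T T'
  simp only [sp_apply, LinearMap.smul_apply, smul_eq_mul]; ring

lemma sp_add_right (a b b' : Mat m →ₗ[ℂ] ℂ) : sp a (b + b') = sp a b + sp a b' := by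
  rw [sp_comm, sp_add_left, sp_comm b a, sp_comm b' a]

lemma sp_smul_right (c : ℂ) (a b : Mat m →ₗ[ℂ] ℂ) : sp a (c • b) = c • sp a b := by
  rw [sp_comm, sp_smul_left, sp_comm b a]

lemma sp_zero_left (b : Mat m →ₗ[ℂ] ℂ) : sp 0 b = 0 := by
  ext T T'
  simp

/-- the rank one formula -/
lemma trace_rank_one (T T' : Mat m) (u v g h : Fin m → ℂ) :
    (br T (vecMulVec u g) * br T' (vecMulVec v h)).trace =
      (g ⬝ᵥ (T' *ᵥ v)) * (h ⬝ᵥ (T *ᵥ u)) - (g ⬝ᵥ v) * (h ⬝ᵥ (T' *ᵥ (T *ᵥ u)))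
        - (g ⬝ᵥ (T *ᵥ (T' *ᵥ v))) * (h ⬝ᵥ u) + (g ⬝ᵥ (T *ᵥ v)) * (h ⬝ᵥ (T' *ᵥ u)) := by
  have e1 : ∀ (A : Mat m) (x y : Fin m → ℂ), A * vecMulVec x y = vecMulVec (A *ᵥ x) y :=
    fun A x y => Matrix.mul_vecMulVec A x y
  have e2 : ∀ (A : Mat m) (x y : Fin m → ℂ), vecMulVec x y * A = vecMulVec x (y ᵥ* A) :=
    fun A x y => Matrix.vecMulVec_mul x y A
  have e3 : ∀ (x y z w : Fin m → ℂ), (vecMulVec x y * vecMulVec z w).trace =
      (y ⬝ᵥ z) * (w ⬝ᵥ x) := by
    intro x y z w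
    rw [Matrix.vecMulVec_mul_vecMulVec, Matrix.trace_vecMulVec]
    simp [dotProduct_comm x w, mul_comm]
  unfold br
  rw [e1, e2, e1, e2, Matrix.sub_mul, Matrix.mul_sub, Matrix.mul_sub, Matrix.trace_sub,
    Matrix.trace_sub, Matrix.trace_sub, e3, e3, e3, e3]
  have e4 : ∀ (y z : Fin m → ℂ) (A : Mat m), (y ᵥ* A) ⬝ᵥ z = y ⬝ᵥ (A *ᵥ z) := by
    intro y z A
    rw [Matrix.dotProduct_mulVec]
  rw [e4, e4, e4, e4]
  ring

lemma sp_om_mem {u v g h : Fin m → ℂ} (h1 : g ⬝ᵥ v = 0) (h2 : h ⬝ᵥ u = 0) :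
    sp (om v g) (om u h) ∈ Q m := by
  have h3 : sp (om v g) (om u h) = (1 / 2 : ℂ) • bp (vecMulVec u g) (vecMulVec v h) := by
    ext T T'
    simp only [sp_apply, om_apply, LinearMap.smul_apply, bp, LinearMap.add_apply, bt_apply,
      trace_rank_one, h1, h2, smul_eq_mul]
    ring
  rw [h3]
  exact Submodule.smul_mem _ _ (bp_mem _ _)

/-- the span of the functionals `T ↦ g (T v)` with `g v = 0` -/
def NN (m : ℕ) : Submodule ℂ (Mat m →ₗ[ℂ] ℂ) :=
  Submodule.span ℂ {a | ∃ v g : Fin m → ℂ, g ⬝ᵥ v = 0 ∧ a = om v g}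

lemma sp_mem_Q {a b : Mat m →ₗ[ℂ] ℂ} (ha : a ∈ NN m) (hb : b ∈ NN m) : sp a b ∈ Q m := by
  induction ha using Submodule.span_induction with
  | mem x hx =>
    obtain ⟨v, g, hvg, rfl⟩ := hx
    induction hb using Submodule.span_induction with
    | mem y hy =>
      obtain ⟨u, h, huh, rfl⟩ := hy
      exact sp_om_mem hvg huh
    | zero => rw [sp_comm, sp_zero_left]; exact Submodule.zero_mem _
    | add x y _ _ hx hy => rw [sp_add_right]; exact Submodule.add_mem _ hx hy
    | smul c x _ hx => rw [sp_smul_right]; exact Submodule.smul_mem _ _ hx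
  | zero => rw [sp_zero_left]; exact Submodule.zero_mem _
  | add x y _ _ hx hy => rw [sp_add_left]; exact Submodule.add_mem _ hx hy
  | smul c x _ hx => rw [sp_smul_left]; exact Submodule.smul_mem _ _ hx

/-- the functional `T ↦ T i j - δ_ij T 0 0` -/
def omij (i j : Fin (m + 2)) : Mat (m + 2) →ₗ[ℂ] ℂ where
  toFun T := T i j - (if i = j then T 0 0 else 0)
  map_add' A B := by simp only [Matrix.add_apply]; split_ifs <;> ring
  map_smul' c A := by
    simp only [Matrix.smul_apply, smul_eq_mul, RingHom.id_apply]; split_ifs <;> ring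

lemma omij_apply (i j : Fin (m + 2)) (T : Mat (m + 2)) :
    omij i j T = T i j - (if i = j then T 0 0 else 0) := rfl

lemma single_dotProduct_mulVec (T : Mat (m + 2)) (i j : Fin (m + 2)) :
    (Pi.single i (1 : ℂ) : Fin (m + 2) → ℂ) ⬝ᵥ (T *ᵥ Pi.single j (1 : ℂ)) = T i j := by
  simp

lemma omij_mem_of_ne {i j : Fin (m + 2)} (hij : i ≠ j) : omij i j ∈ NN (m + 2) := by
  apply Submodule.subset_span
  refine ⟨Pi.single j 1, Pi.single i 1, ?_, ?_⟩
  · simp [Pi.single_apply, hij.symm, hij]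
  · ext T
    simp [omij_apply, hij]

lemma omij_mem (i j : Fin (m + 2)) : omij i j ∈ NN (m + 2) := by
  by_cases hij : i = j
  · subst hij
    by_cases hi : i = 0
    · subst hi
      have : omij (m := m) 0 0 = 0 := by ext T; simp [omij_apply]
      rw [this]; exact Submodule.zero_mem _
    · -- use the vector e_0 + e_i and the functional e_i - e_0
      have h1 : om (Pi.single 0 (1 : ℂ) + Pi.single i 1 : Fin (m + 2) → ℂ)
          (Pi.single i 1 - Pi.single 0 1) ∈ NN (m + 2) := by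
        apply Submodule.subset_span
        refine ⟨_, _, ?_, rfl⟩
        have hi' : (0 : Fin (m + 2)) ≠ i := fun h => hi h.symm
        simp [sub_dotProduct, dotProduct_add, Pi.single_apply, hi, hi']
      have h2 : omij i i = om (Pi.single 0 (1 : ℂ) + Pi.single i 1 : Fin (m + 2) → ℂ)
          (Pi.single i 1 - Pi.single 0 1) - omij i 0 + omij 0 i := by
        have hi' : (0 : Fin (m + 2)) ≠ i := fun h => hi h.symm
        ext T
        simp only [LinearMap.add_apply, LinearMap.sub_apply, omij_apply, om_apply,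
          Matrix.mulVec_add, dotProduct_add, sub_dotProduct, single_dotProduct_mulVec, hi, hi',
          if_true, if_false]
        ring
      rw [h2]
      exact Submodule.add_mem _ (Submodule.sub_mem _ h1 (omij_mem_of_ne hi))
        (omij_mem_of_ne (fun h => hi h.symm))
  · exact omij_mem_of_ne hij

/-- if `tr([T,S]²) = 0` for all `S` then `T` is scalar -/
lemma scalar_of_trace_zero (T : Mat (m + 2)) (h : ∀ S, (br T S * br T S).trace = 0) :
    ∃ c : ℂ, T = c • 1 := by
  have hQ : ∀ b ∈ Q (m + 2), b T T = 0 := by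
    intro b hb
    induction hb using Submodule.span_induction with
    | mem x hx => obtain ⟨S, rfl⟩ := hx; exact h S
    | zero => simp
    | add x y _ _ hx hy => rw [LinearMap.add_apply, LinearMap.add_apply, hx, hy, add_zero]
    | smul a x _ hx => rw [LinearMap.smul_apply, LinearMap.smul_apply, hx, smul_zero]
  refine ⟨T 0 0, ?_⟩
  ext i j
  have h1 := hQ _ (sp_mem_Q (omij_mem i j) (omij_mem i j))
  rw [sp_apply] at h1
  have h2 : omij i j T = 0 := by
    have : omij i j T * omij i j T = 0 := by linear_combination (1 / 2 : ℂ) * h1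
    exact mul_self_eq_zero.1 this
  rw [omij_apply] at h2
  rw [Matrix.smul_apply, Matrix.one_apply, smul_eq_mul]
  split_ifs at h2 ⊢
  · linear_combination h2
  · linear_combination h2

end Pool.Agent.Lib.MP_add2b9_al
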