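import Pool.Agent.Lib.MP_add2b9_al.E0

/-!
# The easy direction and the reduction to the first basis vector
-/

namespace Pool.Agent.Lib.MP_add2b9_al

open Matrix Polynomial

lemma br_conj {n : ℕ} (B T S : Mat n) (hB : IsUnit B) :
    br (B * T * B⁻¹) (B * S * B⁻¹) = B * br T S * B⁻¹ := by
  have hdet : IsUnit B.det := (Matrix.isUnit_iff_isUnit_det B).1 hB
  have h1 : ∀ X Y : Mat n, B * X * B⁻¹ * (B * Y * B⁻¹) = B * (X * Y) * B⁻¹ := by
    intro X Y
    calc B * X * B⁻¹ * (B * Y * B⁻¹) = B * X * (B⁻¹ * B) * Y * B⁻¹ := by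
          simp only [Matrix.mul_assoc]
      _ = B * (X * Y) * B⁻¹ := by
          rw [Matrix.nonsing_inv_mul B hdet]; simp only [Matrix.mul_assoc, Matrix.one_mul]
  rw [br, br, h1, h1, Matrix.mul_sub, Matrix.sub_mul]

lemma br_smul_add {n : ℕ} (a b c d : ℂ) (T S : Mat n) :
    br (a • T + b • (1 : Mat n)) (c • S + d • (1 : Mat n)) = (a * c) • br T S := by
  simp only [br, Matrix.add_mul, Matrix.mul_add, Matrix.smul_mul, Matrix.mul_smul, Matrix.mul_one,
    Matrix.one_mul, smul_add, smul_sub, smul_smul]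
  rw [mul_comm a c, mul_comm d a, mul_comm b c, mul_comm b d]
  abel

lemma br_swap {n : ℕ} (T S : Mat n) : br T S = - br S T := by
  simp [br]

/-- the local spectrum of a commutator with an exceptional matrix is symmetric -/
lemma localSpectrum_symm_of_exceptional {n : ℕ} {x0 : Fin n → ℂ} (hx0 : x0 ≠ 0) {T : Mat n}
    (hT : T ∈ exceptional x0) (S : Mat n) (l : ℂ) :
    l ∈ localSpectrum (-(br T S)) x0 ↔ l ∈ localSpectrum (br T S) x0 := by
  obtain ⟨⟨c, hc⟩, r, s, hs, hrs⟩ := hT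
  set T' : Mat n := T - r • (1 : Mat n) with hT'
  have hsq : T' * T' = s • (1 : Mat n) := by rw [← pow_two]; exact hrs
  have hinv : T' * (s⁻¹ • T') = 1 := by
    rw [Matrix.mul_smul, hsq, smul_smul, inv_mul_cancel₀ hs, one_smul]
  have hunit : IsUnit T' := by
    rw [Matrix.isUnit_iff_isUnit_det]
    exact Matrix.isUnit_det_of_right_inverse hinv
  have hTinv : T'⁻¹ = s⁻¹ • T' := Matrix.inv_eq_right_inv hinv
  have hx : T' *ᵥ x0 = (c - r) • x0 := by
    rw [hT', Matrix.sub_mulVec, hc, Matrix.smul_mulVec, Matrix.one_mulVec, sub_smul]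
  have hcr : c - r ≠ 0 := by
    intro h0
    rw [h0, zero_smul] at hx
    have : (T' * T') *ᵥ x0 = s • x0 := by
      rw [hsq, Matrix.smul_mulVec, Matrix.one_mulVec]
    rw [← Matrix.mulVec_mulVec, hx, Matrix.mulVec_zero] at this
    exact hx0 ((smul_eq_zero.1 this.symm).resolve_left hs)
  have hbr : br T S = br T' S := by
    simp [br, hT', Matrix.sub_mul, Matrix.mul_sub]
  have hconj : T' * br T' S * T'⁻¹ = - br T' S := by
    rw [hTinv, br, Matrix.mul_sub, Matrix.sub_mul, Matrix.mul_smul, Matrix.mul_smul]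
    have e1 : T' * (T' * S) * T' = s • (S * T') := by
      rw [← Matrix.mul_assoc, hsq, Matrix.smul_mul, Matrix.one_mul, Matrix.smul_mul]
    have e2 : T' * (S * T') * T' = s • (T' * S) := by
      rw [Matrix.mul_assoc, Matrix.mul_assoc, hsq, Matrix.mul_smul, Matrix.mul_smul, Matrix.mul_one]
    rw [e1, e2, smul_smul, smul_smul, inv_mul_cancel₀ hs, one_smul, one_smul]
    abel
  rw [hbr, ← hconj]
  have h1 : localSpectrum (T' * br T' S * T'⁻¹) x0 =
      localSpectrum (T' * br T' S * T'⁻¹) (T' *ᵥ x0) := by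
    rw [hx, localSpectrum_smul_vec _ _ hcr]
  rw [h1, localSpectrum_conj T' _ hunit]

/-- every map of standard form preserves the local spectrum of commutators -/
theorem easy_direction {n : ℕ} (x0 : Fin n → ℂ) (hx0 : x0 ≠ 0) (φ : Mat n → Mat n)
    (h : IsStandardForm x0 φ) (T S : Mat n) :
    localSpectrum (br (φ T) (φ S)) x0 = localSpectrum (br T S) x0 := by
  obtain ⟨A, η, ξ, hA, hAx, hξ, hconst, hφ⟩ := h
  have h1 : br (φ T) (φ S) = A * ((ξ T * ξ S) • br T S) * A⁻¹ := by
    rw [hφ T, hφ S, br_smul_add, br_conj _ _ _ hA, Matrix.mul_smul, Matrix.smul_mul]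
  have h2 : localSpectrum (br (φ T) (φ S)) x0 = localSpectrum ((ξ T * ξ S) • br T S) x0 := by
    rw [h1]
    conv_lhs => rw [← hAx]
    rw [localSpectrum_conj A _ hA]
  rw [h2]
  by_cases heq : ξ T = ξ S
  · have : ξ T * ξ S = 1 := by
      rw [← heq]
      rcases hξ T with h | h <;> rw [h] <;> norm_num
    rw [this, one_smul]
  · have hm : ξ T * ξ S = -1 := by
      rcases hξ T with h | h <;> rcases hξ S with h' | h' <;> rw [h, h'] at heq ⊢ <;>
        first | (exact absurd rfl heq) | norm_num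
    rw [hm, neg_one_smul]
    have hex : T ∈ exceptional x0 ∨ S ∈ exceptional x0 := by
      by_contra hcon
      rw [not_or] at hcon
      exact heq (hconst T S hcon.1 hcon.2)
    ext l
    rcases hex with h' | h'
    · exact localSpectrum_symm_of_exceptional hx0 h' S l
    · rw [br_swap T S]
      have h3 := localSpectrum_symm_of_exceptional hx0 h' T
      rw [neg_neg]
      exact (h3 l).symm

/-- reduction to `x0 = e0`, and the case `n = 1` -/
theorem reduction
    (H : ∀ (m : ℕ) (φ : Mat (m + 2) → Mat (m + 2)),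
      (∀ T S, localSpectrum (br (φ T) (φ S)) (e0 : Fin (m + 2) → ℂ) =
        localSpectrum (br T S) (e0 : Fin (m + 2) → ℂ)) →
      IsStandardForm (e0 : Fin (m + 2) → ℂ) φ)
    (n : ℕ) (x0 : Fin n → ℂ) (hx0 : x0 ≠ 0) (φ : Mat n → Mat n)
    (h : ∀ T S, localSpectrum (br (φ T) (φ S)) x0 = localSpectrum (br T S) x0) :
    IsStandardForm x0 φ := by
  match n, x0, hx0, φ, h with
  | 0, x0, hx0, φ, h => exact absurd (Subsingleton.elim x0 0) hx0
  | 1, x0, hx0, φ, h =>
    refine ⟨1, fun T => φ T 0 0 - T 0 0, fun _ => 1, isUnit_one, Matrix.one_mulVec _,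
      fun _ => Or.inl rfl, fun _ _ _ _ => rfl, fun T => ?_⟩
    ext i j
    rw [Subsingleton.elim i 0, Subsingleton.elim j 0]
    simp
  | (m + 2), x0, hx0, φ, h =>
    -- an invertible matrix with `B x0 = e0`
    obtain ⟨B, hB, hBx⟩ : ∃ B : Mat (m + 2), IsUnit B ∧ B *ᵥ x0 = (e0 : Fin (m + 2) → ℂ) := by
      have he : (e0 : Fin (m + 2) → ℂ) ≠ 0 := by
        intro h0
        have := congrFun h0 0
        simp [e0] at this
      obtain ⟨f, hf⟩ := SeparatingDual.exists_continuousLinearEquiv_apply_eq (R := ℂ) hx0 he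
      refine ⟨LinearMap.toMatrix' (f.toLinearEquiv : (Fin (m + 2) → ℂ) →ₗ[ℂ] (Fin (m + 2) → ℂ)),
        ?_, ?_⟩
      · rw [Matrix.isUnit_iff_isUnit_det]
        have h1 := LinearEquiv.isUnit_det f.toLinearEquiv (Pi.basisFun ℂ (Fin (m + 2)))
          (Pi.basisFun ℂ (Fin (m + 2)))
        rwa [LinearMap.toMatrix_eq_toMatrix'] at h1
      · rw [LinearMap.toMatrix'_mulVec]
        exact hf
    have hdet : IsUnit B.det := (Matrix.isUnit_iff_isUnit_det B).1 hB
    have hBi : IsUnit B⁻¹ := by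
      rw [Matrix.isUnit_nonsing_inv_iff]; exact hB
    have hBB : B⁻¹⁻¹ = B := Matrix.nonsing_inv_nonsing_inv B hdet
    have hBx' : B⁻¹ *ᵥ (e0 : Fin (m + 2) → ℂ) = x0 := by
      rw [← hBx, Matrix.mulVec_mulVec, Matrix.nonsing_inv_mul B hdet, Matrix.one_mulVec]
    have hcancel : ∀ T : Mat (m + 2), B⁻¹ * (B * T * B⁻¹) * B = T := by
      intro T
      calc B⁻¹ * (B * T * B⁻¹) * B = (B⁻¹ * B) * T * (B⁻¹ * B) := by
            simp only [Matrix.mul_assoc]
        _ = T := by rw [Matrix.nonsing_inv_mul B hdet, Matrix.one_mul, Matrix.mul_one]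
    set ψ : Mat (m + 2) → Mat (m + 2) := fun T => B * φ (B⁻¹ * T * B) * B⁻¹ with hψ
    have hψprop : ∀ T S, localSpectrum (br (ψ T) (ψ S)) (e0 : Fin (m + 2) → ℂ) =
        localSpectrum (br T S) (e0 : Fin (m + 2) → ℂ) := by
      intro T S
      have h1 := h (B⁻¹ * T * B) (B⁻¹ * S * B)
      have h2 := br_conj B⁻¹ T S hBi
      rw [hBB] at h2
      rw [h2] at h1
      have h3 := localSpectrum_conj B⁻¹ (br T S) hBi (e0 : Fin (m + 2) → ℂ)
      rw [hBB, hBx'] at h3
      rw [h3] at h1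
      rw [hψ]
      simp only
      rw [br_conj B _ _ hB, ← hBx, localSpectrum_conj B _ hB, h1, hBx]
    obtain ⟨A, η, ξ, hA, hAx, hξ, hconst, hform⟩ := H m ψ hψprop
    have hAdet : IsUnit A.det := (Matrix.isUnit_iff_isUnit_det A).1 hA
    refine ⟨B⁻¹ * A * B, fun T => η (B * T * B⁻¹), fun T => ξ (B * T * B⁻¹),
      (hBi.mul hA).mul hB, ?_, fun T => hξ _, ?_, ?_⟩
    · rw [← Matrix.mulVec_mulVec, hBx, ← Matrix.mulVec_mulVec, hAx, hBx']
    · have key : ∀ T : Mat (m + 2), T ∉ exceptional x0 →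
          B * T * B⁻¹ ∉ exceptional (e0 : Fin (m + 2) → ℂ) := by
        intro T hT hT'
        apply hT
        obtain ⟨⟨c, hc⟩, r, s, hs, hrs⟩ := hT'
        refine ⟨⟨c, ?_⟩, r, s, hs, ?_⟩
        · rw [← hcancel T, ← Matrix.mulVec_mulVec, hBx, ← Matrix.mulVec_mulVec, hc,
            Matrix.mulVec_smul, hBx']
        · have h1 : T - r • (1 : Mat (m + 2)) = B⁻¹ * (B * T * B⁻¹ - r • (1 : Mat (m + 2))) * B := by
            rw [Matrix.mul_sub, Matrix.sub_mul, hcancel, Matrix.mul_smul, Matrix.smul_mul,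
              Matrix.mul_one, Matrix.nonsing_inv_mul B hdet]
          rw [h1]
          set Y := B * T * B⁻¹ - r • (1 : Mat (m + 2)) with hY
          calc (B⁻¹ * Y * B) ^ 2 = B⁻¹ * Y * (B * B⁻¹) * Y * B := by
                rw [pow_two]; simp only [Matrix.mul_assoc]
            _ = B⁻¹ * (Y ^ 2) * B := by
                rw [Matrix.mul_nonsing_inv B hdet, Matrix.mul_one, pow_two]
                simp only [Matrix.mul_assoc]
            _ = s • (1 : Mat (m + 2)) := by
                rw [hrs, Matrix.mul_smul, Matrix.smul_mul, Matrix.mul_one,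
                  Matrix.nonsing_inv_mul B hdet]
      intro T S hT hS
      exact hconst _ _ (key T hT) (key S hS)
    · intro T
      have h1 := hform (B * T * B⁻¹)
      rw [hψ] at h1
      simp only [hcancel] at h1
      have h2 : φ T = B⁻¹ * (B * φ T * B⁻¹) * B := (hcancel _).symm
      rw [h2, h1, Matrix.mul_add, Matrix.add_mul, Matrix.mul_smul, Matrix.smul_mul,
        Matrix.mul_smul, Matrix.smul_mul, Matrix.mul_one, Matrix.nonsing_inv_mul B hdet]
      have h3 : (B⁻¹ * A * B)⁻¹ = B⁻¹ * A⁻¹ * B := by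
        rw [Matrix.mul_inv_rev, Matrix.mul_inv_rev, hBB]
        simp only [Matrix.mul_assoc]
      rw [h3]
      congr 2
      calc B⁻¹ * (A * (B * T * B⁻¹) * A⁻¹) * B = B⁻¹ * A * B * T * (B⁻¹ * A⁻¹ * B) := by
            simp only [Matrix.mul_assoc]
        _ = _ := rfl

end Pool.Agent.Lib.MP_add2b9_al
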