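import Pool.Agent.Lib.MP_add2b9_al.Curvature
import Pool.Agent.Lib.MP_add2b9_al.E0

/-!
# Structure theorem for linear maps preserving `tr [T,S]^2` and the action on `e0`
-/

set_option autoImplicit false

namespace Pool.Agent.Lib.MP_add2b9_al.St

open Matrix

variable {m : ℕ}

/-- matrix units -/
abbrev E (i j : Fin (m + 2)) : Mat (m + 2) := Matrix.single i j (1 : ℂ)

lemma E_apply (i j a b : Fin (m + 2)) : E i j a b = if i = a ∧ j = b then 1 else 0 := rfl

lemma mulVec_e0 (T : Mat (m + 2)) (i : Fin (m + 2)) : (T *ᵥ e0) i = T i 0 := by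
  unfold e0
  simp

/-- the rank one matrix `e0 ⊗ f` -/
def N (f : Fin (m + 2) → ℂ) : Mat (m + 2) := Matrix.of fun i j => if i = 0 then f j else 0

lemma N_apply (f : Fin (m + 2) → ℂ) (i j : Fin (m + 2)) : N f i j = if i = 0 then f j else 0 := rfl

/-- `f (U e0)` -/
def cf (f : Fin (m + 2) → ℂ) (U : Mat (m + 2)) : ℂ := ∑ j, f j * U j 0

lemma trace_N_mul (f : Fin (m + 2) → ℂ) (U : Mat (m + 2)) : (N f * U).trace = cf f U := by
  unfold cf Matrix.trace
  simp only [diag_apply, mul_apply, N_apply]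
  rw [Finset.sum_eq_single 0]
  · simp
  · intro i _ hi
    simp [hi]
  · simp

lemma N_mul_apply_zero (f : Fin (m + 2) → ℂ) (U : Mat (m + 2)) (k : Fin (m + 2)) :
    (N f * U) 0 k = ∑ j, f j * U j k := by
  simp [mul_apply, N_apply]

lemma N_mul_mul_N (f : Fin (m + 2) → ℂ) (U : Mat (m + 2)) : N f * U * N f = cf f U • N f := by
  ext i k
  rw [mul_apply, Matrix.smul_apply, N_apply]
  by_cases hi : i = 0
  · subst hi
    rw [Finset.sum_eq_single 0]
    · rw [N_mul_apply_zero, N_apply]
      simp [cf]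
    · intro j _ hj
      rw [N_apply, if_neg hj, mul_zero]
    · simp
  · rw [if_neg hi, smul_zero]
    apply Finset.sum_eq_zero
    intro j _
    have : (N f * U) i j = 0 := by
      rw [mul_apply]
      apply Finset.sum_eq_zero
      intro l _
      rw [N_apply, if_neg hi, zero_mul]
    rw [this, zero_mul]

lemma N_mul_N (f : Fin (m + 2) → ℂ) (hf : f 0 = 0) : N f * N f = 0 := by
  have := N_mul_mul_N f (1 : Mat (m + 2))
  rw [mul_one] at this
  rw [this]
  have h : cf f (1 : Mat (m + 2)) = 0 := by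
    unfold cf
    rw [Finset.sum_eq_single 0]
    · rw [hf, zero_mul]
    · intro j _ hj
      rw [one_apply_ne hj, mul_zero]
    · simp
  rw [h, zero_smul]

lemma trace_br_N (f : Fin (m + 2) → ℂ) (hf : f 0 = 0) (U W : Mat (m + 2)) :
    (br (N f) U * br (N f) W).trace = 2 * cf f U * cf f W := by
  have h1 : br (N f) U * br (N f) W = (N f * U * N f) * W - N f * U * W * N f
      - U * (N f * N f) * W + U * (N f * W * N f) := by
    unfold br
    noncomm_ring
  rw [h1, N_mul_N f hf, N_mul_mul_N, N_mul_mul_N]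
  have h2 : (N f * U * W * N f).trace = 0 := by
    rw [mul_assoc, mul_assoc, trace_mul_comm, mul_assoc, mul_assoc, N_mul_N f hf]
    simp
  rw [trace_add, trace_sub, trace_sub, h2, smul_mul_assoc, trace_smul, trace_N_mul,
    mul_smul_comm, trace_smul, trace_mul_comm U, trace_N_mul]
  simp
  ring

/-- The image of a rank one nilpotent `e0 ⊗ f`. -/
lemma image_N (M : Mat (m + 2)) (f : Fin (m + 2) → ℂ) (hf : f 0 = 0) (hf1 : ∃ l, f l ≠ 0)
    (hM0 : ∀ i, M i 0 = 0)
    (h : ∀ U W : Mat (m + 2), (br M U * br M W).trace = 2 * cf f U * cf f W) :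
    ∃ a : ℂ, a ^ 2 = 1 ∧ M = a • N f := by
  have h1 : ∀ U : Mat (m + 2), br M U * M - M * br M U = (2 * cf f U) • N f := by
    intro U
    rw [ext_iff_trace_mul_right]
    intro W
    rw [← trace_mul_br, h, smul_mul_assoc, trace_smul, trace_N_mul]
    simp
  have h2 : ∀ U : Mat (m + 2), M * U * M + M * U * M - U * M * M - M * M * U =
      (2 * cf f U) • N f := by
    intro U
    rw [← h1 U]
    unfold br
    noncomm_ring
  have hcol : ∀ (A : Mat (m + 2)) (i : Fin (m + 2)), (A * M) i 0 = 0 := by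
    intro A i
    rw [mul_apply]
    apply Finset.sum_eq_zero
    intro j _
    rw [hM0, mul_zero]
  have hMM : M * M = 0 := by
    ext i j
    have h3 := congrFun (congrFun (h2 (E j 0)) i) 0
    simp only [Matrix.sub_apply, Matrix.add_apply, Matrix.smul_apply, hcol, N_apply, hf] at h3
    rw [mul_single_apply_same] at h3
    simp only [Matrix.zero_apply]
    simpa using h3
  have h4 : ∀ U : Mat (m + 2), M * U * M = cf f U • N f := by
    intro U
    have h5 := h2 U
    rw [mul_assoc U, hMM, zero_mul, mul_zero, sub_zero, sub_zero, ← two_smul ℂ (M * U * M),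
      mul_smul] at h5
    have h2' : (2:ℂ) ≠ 0 := two_ne_zero
    exact smul_right_injective _ h2' h5
  have h6 : ∀ i j k l : Fin (m + 2), M i j * M k l = cf f (E j k) * N f i l := by
    intro i j k l
    have h7 := congrFun (congrFun (h4 (E j k)) i) l
    rw [Matrix.smul_apply, smul_eq_mul] at h7
    rw [← h7, mul_apply]
    rw [Finset.sum_eq_single k]
    · rw [mul_single_apply_same, mul_one]
    · intro b _ hb
      rw [mul_single_apply_of_ne _ _ _ _ _ hb, zero_mul]
    · simp
  have hcf : ∀ j, cf f (E j 0) = f j := by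
    intro j
    unfold cf
    rw [Finset.sum_eq_single j]
    · simp
    · intro b _ hb
      rw [E_apply, if_neg (by rintro ⟨h, _⟩; exact hb h.symm), mul_zero]
    · simp
  obtain ⟨l, hl⟩ := hf1
  have h8 : M 0 l * M 0 l = f l * f l := by
    rw [h6 0 l 0 l, hcf, N_apply, if_pos rfl]
  have hM0l : M 0 l ≠ 0 := by
    intro h0
    rw [h0, zero_mul] at h8
    exact hl (by simpa using h8.symm)
  refine ⟨M 0 l / f l, ?_, ?_⟩
  · rw [div_pow]
    rw [div_eq_one_iff_eq (pow_ne_zero 2 hl)]
    rw [sq, sq, h8]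
  · ext i j
    have h9 := h6 i j 0 l
    rw [hcf, N_apply] at h9
    rw [Matrix.smul_apply, N_apply, smul_eq_mul]
    by_cases hi : i = 0
    · rw [if_pos hi] at h9 ⊢
      have h10 : M i j = f j * f l / M 0 l := by
        rw [eq_div_iff hM0l]
        exact h9
      rw [h10]
      field_simp
      linear_combination (-(f j)) * h8
    · rw [if_neg hi, mul_zero] at h9
      rw [if_neg hi, mul_zero]
      rcases mul_eq_zero.mp h9 with h10 | h10
      · exact h10
      · exact absurd h10 hM0l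

/-- Matrices killing `e0`. -/
def K0 (Y : Mat (m + 2)) : Prop := ∀ i, Y i 0 = 0

lemma K0_E {i k : Fin (m + 2)} (hk : k ≠ 0) : K0 (E i k) := by
  intro a
  rw [E_apply, if_neg]
  rintro ⟨_, h⟩
  exact hk h

lemma K0.add {Y Z : Mat (m + 2)} (hY : K0 Y) (hZ : K0 Z) : K0 (Y + Z) := by
  intro i
  rw [Matrix.add_apply, hY, hZ, add_zero]

lemma K0.smul {Y : Mat (m + 2)} (hY : K0 Y) (c : ℂ) : K0 (c • Y) := by
  intro i
  rw [Matrix.smul_apply, hY, smul_zero]

lemma mul_E (A : Mat (m + 2)) (i k a b : Fin (m + 2)) :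
    (A * E i k) a b = if k = b then A a i else 0 := by
  split_ifs with h
  · subst h
    simp
  · exact mul_single_apply_of_ne _ _ _ _ _ (Ne.symm h) _

lemma E_mul (A : Mat (m + 2)) (i k a b : Fin (m + 2)) :
    (E i k * A) a b = if i = a then A k b else 0 := by
  split_ifs with h
  · subst h
    simp
  · exact single_mul_apply_of_ne _ _ _ _ _ (Ne.symm h) _

lemma trace_mul_E (A : Mat (m + 2)) (i k : Fin (m + 2)) : (A * E i k).trace = A k i := by
  rw [trace_mul_single]
  simp

/-- Setup for the structure theorem. -/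
structure Setup (m : ℕ) where
  P : Mat (m + 2) ≃ₗ[ℂ] Mat (m + 2)
  h1 : P 1 = 1
  he : ∀ T i, P T i 0 = T i 0
  hR : ∀ X Y Z W, (br (P X) (P Y) * br (P Z) (P W)).trace = (br X Y * br Z W).trace

namespace Setup

variable (s : Setup m)

lemma K0_P {Y : Mat (m + 2)} (hY : K0 Y) : K0 (s.P Y) := fun i => by rw [s.he, hY]

lemma image_N (f : Fin (m + 2) → ℂ) (hf : f 0 = 0) (hf1 : ∃ l, f l ≠ 0) :
    ∃ a : ℂ, a ^ 2 = 1 ∧ s.P (N f) = a • N f := by
  apply Pool.Agent.Lib.MP_add2b9_al.St.image_N _ f hf hf1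
  · intro i
    rw [s.he, N_apply, hf]
    simp
  · intro U W
    have h := s.hR (N f) (s.P.symm U) (N f) (s.P.symm W)
    rw [LinearEquiv.apply_symm_apply, LinearEquiv.apply_symm_apply, trace_br_N f hf] at h
    rw [h]
    have hc : ∀ V : Mat (m + 2), cf f (s.P.symm V) = cf f V := by
      intro V
      unfold cf
      apply Finset.sum_congr rfl
      intro j _
      rw [← s.he (s.P.symm V) j, LinearEquiv.apply_symm_apply]
    rw [hc, hc]

lemma N_single (k : Fin (m + 2)) : N (Pi.single k 1) = E 0 k := by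
  ext i j
  rw [N_apply, E_apply]
  by_cases hi : i = 0
  · subst hi
    by_cases hj : k = j
    · subst hj; simp
    · simp [hj, Ne.symm hj]
  · rw [if_neg hi, if_neg]
    rintro ⟨h, _⟩
    exact hi h.symm

/-- The common sign `κ`. -/
lemma exists_kappa : ∃ κ : ℂ, κ ^ 2 = 1 ∧ ∀ k : Fin (m + 2), k ≠ 0 → s.P (E 0 k) = κ • E 0 k := by
  have hone : (1 : Fin (m + 2)) ≠ 0 := by simp
  have hex : ∀ k : Fin (m + 2), k ≠ 0 → ∃ a : ℂ, a ^ 2 = 1 ∧ s.P (E 0 k) = a • E 0 k := by
    intro k hk
    obtain ⟨a, ha, h⟩ := s.image_N (Pi.single k 1) (by simp [Ne.symm hk]) ⟨k, by simp⟩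
    rw [N_single] at h
    exact ⟨a, ha, h⟩
  obtain ⟨κ, hκ, h1⟩ := hex 1 hone
  refine ⟨κ, hκ, ?_⟩
  intro k hk
  by_cases hk1 : k = 1
  · rw [hk1]; exact h1
  · obtain ⟨a, ha, h⟩ := hex k hk
    obtain ⟨b, hb, h2⟩ := s.image_N (Pi.single k 1 + Pi.single 1 1)
      (by simp [Ne.symm hk]) ⟨k, by simp [hk1]⟩
    have hN : N (Pi.single k 1 + Pi.single 1 1) = E 0 k + (E 0 1 : Mat (m + 2)) := by
      rw [← N_single, ← N_single]
      ext i j
      simp only [Matrix.add_apply, N_apply, Pi.add_apply]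
      split_ifs <;> simp
    rw [hN, map_add, h, h1] at h2
    have e1 := congrFun (congrFun h2 0) k
    have e2 := congrFun (congrFun h2 0) 1
    simp only [Matrix.add_apply, Matrix.smul_apply, E_apply, smul_eq_mul] at e1 e2
    simp [Ne.symm hk1, hk1] at e1 e2
    rw [h, e1, ← e2]

end Setup

end Pool.Agent.Lib.MP_add2b9_al.St
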