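import Pool.Agent.Lib.MP_add2b9_al.Struct

/-!
# Structure theorem, second part
-/

set_option autoImplicit false

namespace Pool.Agent.Lib.MP_add2b9_al.St

open Matrix

variable {m : ℕ}

lemma tr_aux (i k : Fin (m + 2)) (Y Z W : Mat (m + 2)) (hY : K0 Y) (hZ : K0 Z)
    (hW : ∀ l, W l 0 = if k = l then 1 else 0) :
    (br (E 0 i) Y * br Z W).trace = (Y * Z) i k := by
  have h1 : Y * E 0 i = 0 := by
    ext a b
    rw [mul_E, hY]
    simp
  have h2 : br (E 0 i) Y * br Z W = E 0 i * (Y * br Z W) := by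
    rw [br, h1, sub_zero, mul_assoc]
  rw [h2, trace_mul_comm, trace_mul_E]
  have h3 : Y * br Z W = (Y * Z) * W - (Y * W) * Z := by
    unfold br; noncomm_ring
  rw [h3, Matrix.sub_apply]
  have h4 : ((Y * W) * Z) i 0 = 0 := by
    rw [mul_apply]
    apply Finset.sum_eq_zero
    intro j _
    rw [hZ, mul_zero]
  rw [h4, sub_zero, mul_apply]
  rw [Finset.sum_eq_single k]
  · rw [hW, if_pos rfl, mul_one]
  · intro b _ hb
    rw [hW, if_neg (Ne.symm hb), mul_zero]
  · simp

/-- the projection `1 - E 0 0` -/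
def pr : Mat (m + 2) := 1 - E 0 0

lemma pr_apply (i k : Fin (m + 2)) : (pr : Mat (m + 2)) i k = if i = k ∧ i ≠ 0 then 1 else 0 := by
  unfold pr
  rw [Matrix.sub_apply, E_apply, one_apply]
  by_cases h : i = k
  · subst h
    by_cases h0 : i = 0
    · subst h0; simp
    · simp [h0, Ne.symm h0]
  · rw [if_neg h, if_neg, if_neg]
    · simp
    · rintro ⟨h1, _⟩; exact h h1
    · rintro ⟨h1, h2⟩; exact h (h1 ▸ h2 ▸ rfl)

lemma K0_pr : K0 (pr : Mat (m + 2)) := by
  intro i
  rw [pr_apply, if_neg]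
  rintro ⟨h1, h2⟩
  exact h2 h1

lemma K0.mul_E00 {Y : Mat (m + 2)} (hY : K0 Y) : Y * E 0 0 = 0 := by
  ext a b
  rw [mul_E, hY]
  simp

lemma K0.mul_pr {Y : Mat (m + 2)} (hY : K0 Y) : Y * pr = Y := by
  unfold pr
  rw [mul_sub, mul_one, hY.mul_E00, sub_zero]

lemma E00_mul_E00 : (E 0 0 : Mat (m + 2)) * E 0 0 = E 0 0 := by
  simp

lemma pr_mul_E00 : (pr : Mat (m + 2)) * E 0 0 = 0 := K0_pr.mul_E00

lemma E00_mul_pr : (E 0 0 : Mat (m + 2)) * pr = 0 := by
  unfold pr
  rw [mul_sub, mul_one, E00_mul_E00, sub_self]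

lemma pr_mul_apply (A : Mat (m + 2)) (i k : Fin (m + 2)) :
    ((pr : Mat (m + 2)) * A) i k = if i = 0 then 0 else A i k := by
  unfold pr
  rw [sub_mul, one_mul, Matrix.sub_apply, E_mul]
  by_cases h : i = 0
  · subst h; simp
  · rw [if_neg h, if_neg (Ne.symm h), sub_zero]

namespace Setup

variable (s : Setup m)

lemma star {κ : ℂ} (hP : ∀ k : Fin (m + 2), k ≠ 0 → s.P (E 0 k) = κ • E 0 k)
    {Y Z : Mat (m + 2)} (hY : K0 Y) (hZ : K0 Z) {i : Fin (m + 2)} (hi : i ≠ 0) (k : Fin (m + 2)) :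
    κ * (s.P Y * s.P Z) i k = (Y * Z) i k := by
  have h := s.hR (E 0 i) Y Z (E k 0)
  rw [tr_aux i k Y Z (E k 0) hY hZ (by intro l; rw [E_apply]; simp)] at h
  rw [hP i hi, br_smul_left, smul_mul_assoc, trace_smul,
    tr_aux i k (s.P Y) (s.P Z) (s.P (E k 0)) (s.K0_P hY) (s.K0_P hZ)
      (by intro l; rw [s.he, E_apply]; simp)] at h
  exact h

/-- Structure of `J = P (1 - E 0 0)` and of `P` on `K0`. -/
lemma exists_J : ∃ (κ j : ℂ) (J : Mat (m + 2)), κ ^ 2 = 1 ∧ κ * j ^ 2 = 1 ∧
    (∀ k : Fin (m + 2), k ≠ 0 → s.P (E 0 k) = κ • E 0 k) ∧ J = s.P pr ∧ K0 J ∧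
    (∀ i k, i ≠ 0 → J i k = if i = k then j else 0) ∧
    (∀ Y, K0 Y → ∀ i k, i ≠ 0 → s.P Y i k = j * Y i k) := by
  obtain ⟨κ, hκ, hP⟩ := s.exists_kappa
  have hκ0 : κ ≠ 0 := by
    intro h; rw [h] at hκ; norm_num at hκ
  set J := s.P pr with hJ
  have hJ0 : K0 J := s.K0_P K0_pr
  have hone : (1 : Fin (m + 2)) ≠ 0 := by simp
  -- (0)
  have hJJ : ∀ i k, i ≠ 0 → κ * (J * J) i k = (pr : Mat (m + 2)) i k := by
    intro i k hi
    rw [s.star hP K0_pr K0_pr hi, K0_pr.mul_pr]
  -- (b)
  have hb : ∀ Y, K0 Y → ∀ i k, i ≠ 0 → κ * (J * s.P Y) i k = Y i k := by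
    intro Y hY i k hi
    rw [s.star hP K0_pr hY hi, pr_mul_apply, if_neg hi]
  -- (a)
  have ha : ∀ Y, K0 Y → ∀ i k, i ≠ 0 → κ * (s.P Y * J) i k = Y i k := by
    intro Y hY i k hi
    rw [s.star hP hY K0_pr hi, hY.mul_pr]
  have hκinv : κ * κ = 1 := by rw [← sq]; exact hκ
  have hb2 : ∀ Y, K0 Y → ∀ i k, i ≠ 0 → s.P Y i k = (J * Y) i k := by
    intro Y hY i k hi
    have e1 : (J * (J * s.P Y)) i k = κ * (J * Y) i k := by
      rw [mul_apply, mul_apply, Finset.mul_sum]
      apply Finset.sum_congr rfl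
      intro l _
      by_cases hl : l = 0
      · subst hl; rw [hJ0]; ring
      · rw [← hb Y hY l k hl]
        linear_combination (-(J i l * (J * s.P Y) l k)) * hκinv
    have e2 : ((J * J) * s.P Y) i k = κ * s.P Y i k := by
      rw [mul_apply]
      have : ∀ l, (J * J) i l = κ * (pr : Mat (m + 2)) i l := by
        intro l
        rw [← hJJ i l hi]
        linear_combination (-((J * J) i l)) * hκinv
      simp_rw [this]
      rw [Finset.sum_eq_single i]
      · rw [pr_apply, if_pos ⟨rfl, hi⟩]; ring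
      · intro b _ hbi
        rw [pr_apply, if_neg (by rintro ⟨h, _⟩; exact hbi h.symm)]; ring
      · simp
    rw [← mul_assoc, e2] at e1
    exact mul_left_cancel₀ hκ0 e1
  have ha2 : ∀ Y, K0 Y → ∀ i k, i ≠ 0 → k ≠ 0 → s.P Y i k = (Y * J) i k := by
    intro Y hY i k hi hk
    have e1 : ((s.P Y * J) * J) i k = κ * (Y * J) i k := by
      rw [mul_apply, mul_apply, Finset.mul_sum]
      apply Finset.sum_congr rfl
      intro l _
      rw [← ha Y hY i l hi]
      linear_combination (-((s.P Y * J) i l * J l k)) * hκinv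
    have e2 : (s.P Y * (J * J)) i k = κ * s.P Y i k := by
      rw [mul_apply]
      rw [Finset.sum_eq_single k]
      · have h3 := hJJ k k hk
        rw [pr_apply, if_pos ⟨rfl, hk⟩] at h3
        linear_combination (κ * s.P Y i k) * h3 - (s.P Y i k * (J * J) k k) * hκinv
      · intro b _ hbk
        by_cases hb0 : b = 0
        · subst hb0; rw [s.K0_P hY, zero_mul]
        · have h3 := hJJ b k hb0
          rw [pr_apply, if_neg (by rintro ⟨h, _⟩; exact hbk h)] at h3
          have h4 : (J * J) b k = 0 := by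
            rcases mul_eq_zero.mp h3 with h | h
            · exact absurd h hκ0
            · exact h
          rw [h4, mul_zero]
      · simp
    rw [mul_assoc, e2] at e1
    exact mul_left_cancel₀ hκ0 e1
  have hJent : ∀ i k, i ≠ 0 → J i k = if i = k then J 1 1 else 0 := by
    intro i k hi
    by_cases hk : k = 0
    · subst hk
      rw [hJ0, if_neg hi]
    · -- use Y = E k 1
      have hY : K0 (E k 1 : Mat (m + 2)) := K0_E hone
      have h3 := hb2 _ hY i 1 hi
      have h4 := ha2 _ hY i 1 hi hone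
      rw [h3, mul_E, E_mul, if_pos rfl] at h4
      rw [h4]
      by_cases hik : i = k
      · rw [if_pos hik, if_pos hik.symm]
      · rw [if_neg hik, if_neg (Ne.symm hik)]
  refine ⟨κ, J 1 1, J, hκ, ?_, hP, rfl, hJ0, hJent, ?_⟩
  · have h3 := hJJ 1 1 hone
    rw [pr_apply, if_pos ⟨rfl, hone⟩, mul_apply, Finset.sum_eq_single 1] at h3
    · rw [sq]; exact h3
    · intro b _ hb1
      rw [hJent 1 b hone, if_neg (Ne.symm hb1), zero_mul]
    · simp
  · intro Y hY i k hi
    rw [hb2 Y hY i k hi, mul_apply, Finset.sum_eq_single i]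
    · rw [hJent i i hi, if_pos rfl]
    · intro b _ hbi
      rw [hJent i b hi, if_neg (Ne.symm hbi), zero_mul]
    · simp

/-- `P Y = B Y` on `K0`. -/
lemma exists_B : ∃ (κ j : ℂ) (J : Mat (m + 2)), κ ^ 2 = 1 ∧ κ * j ^ 2 = 1 ∧ K0 J ∧
    J = j • pr + E 0 0 * J ∧ ∀ Y, K0 Y → s.P Y = (J + κ • E 0 0) * Y := by
  obtain ⟨κ, j, J, hκ, hκj, hP, hJ, hJ0, hJe, hPe⟩ := s.exists_J
  have hj0 : j ≠ 0 := by
    intro h; rw [h] at hκj; norm_num at hκj
  have hone : (1 : Fin (m + 2)) ≠ 0 := by simp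
  have hJdec : J = j • pr + E 0 0 * J := by
    ext i k
    rw [Matrix.add_apply, Matrix.smul_apply, pr_apply, E_mul]
    by_cases hi : i = 0
    · subst hi
      simp
    · rw [if_neg (Ne.symm hi), add_zero, hJe i k hi]
      by_cases hik : i = k
      · subst hik; simp [hi]
      · rw [if_neg hik, if_neg (by rintro ⟨h, _⟩; exact hik h)]
        simp
  -- commutation
  have hcomm : ∀ Y, K0 Y → (∀ k, Y 0 k = 0) → s.P Y * J = J * s.P Y := by
    intro Y hY hrow
    have hprY : pr * Y = Y := by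
      ext i k
      rw [pr_mul_apply]
      by_cases hi : i = 0
      · subst hi; rw [if_pos rfl, hrow]
      · rw [if_neg hi]
    have h1 : ∀ Z W, (br (s.P Y) J * br Z W).trace = 0 := by
      intro Z W
      have h := s.hR Y pr (s.P.symm Z) (s.P.symm W)
      rw [LinearEquiv.apply_symm_apply, LinearEquiv.apply_symm_apply, ← hJ] at h
      rw [h]
      have : br Y pr = 0 := by
        rw [br, hY.mul_pr, hprY, sub_self]
      rw [this, zero_mul, trace_zero]
    set C := br (s.P Y) J with hC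
    have h2 : ∀ Z, C * Z = Z * C := by
      intro Z
      have : C * Z - Z * C = 0 := by
        rw [ext_iff_trace_mul_right]
        intro W
        rw [← trace_mul_br, h1, zero_mul, trace_zero]
      exact sub_eq_zero.mp this
    have hC0 : ∀ i, C i 0 = 0 := by
      intro i
      rw [hC, br, Matrix.sub_apply, mul_apply, mul_apply]
      rw [Finset.sum_eq_zero, Finset.sum_eq_zero, sub_zero]
      · intro l _; rw [s.K0_P hY, mul_zero]
      · intro l _; rw [hJ0, mul_zero]
    have h3 : C = 0 := by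
      ext b k
      have h4 := congrFun (congrFun (h2 (E 0 b)) 0) k
      rw [mul_E, E_mul, if_pos rfl, hC0] at h4
      rw [← h4]
      simp
    rw [hC, br] at h3
    exact sub_eq_zero.mp h3
  have hrow0 : ∀ Y, K0 Y → (∀ k, Y 0 k = 0) → s.P Y = J * Y := by
    intro Y hY hrow
    have hc := hcomm Y hY hrow
    ext i k
    by_cases hi : i = 0
    · subst hi
      by_cases hk : k = 0
      · subst hk
        rw [s.K0_P hY, mul_apply, Finset.sum_eq_zero]
        intro l _; rw [hY, mul_zero]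
      · have h1 := congrFun (congrFun hc 0) k
        have e1 : (s.P Y * J) 0 k = j * s.P Y 0 k := by
          rw [mul_apply, Finset.sum_eq_single k]
          · rw [hJe k k hk, if_pos rfl]; ring
          · intro l _ hl
            by_cases hl0 : l = 0
            · subst hl0; rw [s.K0_P hY, zero_mul]
            · rw [hJe l k hl0, if_neg hl, mul_zero]
          · simp
        have e2 : (J * s.P Y) 0 k = j * (J * Y) 0 k := by
          rw [mul_apply, mul_apply, Finset.mul_sum]
          apply Finset.sum_congr rfl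
          intro l _
          by_cases hl0 : l = 0
          · subst hl0; rw [hJ0]; ring
          · rw [hPe Y hY l k hl0]; ring
        rw [e1, e2] at h1
        exact mul_left_cancel₀ hj0 h1
    · rw [hPe Y hY i k hi, mul_apply, Finset.sum_eq_single i]
      · rw [hJe i i hi, if_pos rfl]
      · intro b _ hbi
        rw [hJe i b hi, if_neg (Ne.symm hbi), zero_mul]
      · simp
  refine ⟨κ, j, J, hκ, hκj, hJ0, hJdec, ?_⟩
  intro Y hY
  have hsplit : Y = pr * Y + E 0 0 * Y := by
    rw [← add_mul]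
    unfold pr
    rw [sub_add_cancel, one_mul]
  have hK1 : K0 (pr * Y) := by
    intro i; rw [mul_apply, Finset.sum_eq_zero]; intro l _; rw [hY, mul_zero]
  have hE : E 0 0 * Y = ∑ k, Y 0 k • (E 0 k : Mat (m + 2)) := by
    ext i k
    rw [E_mul, Matrix.sum_apply]
    simp only [Matrix.smul_apply, E_apply, smul_eq_mul]
    by_cases hi : 0 = i
    · subst hi
      simp
    · rw [if_neg hi]
      symm
      apply Finset.sum_eq_zero
      intro l _
      rw [if_neg (by rintro ⟨h, _⟩; exact hi h), mul_zero]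
  have hPE : s.P (E 0 0 * Y) = κ • (E 0 0 * Y) := by
    rw [hE, map_sum, Finset.smul_sum]
    apply Finset.sum_congr rfl
    intro k _
    rw [map_smul]
    by_cases hk : k = 0
    · subst hk; rw [hY]; simp
    · rw [hP k hk, smul_comm]
  have hP1 : s.P (pr * Y) = J * Y := by
    rw [hrow0 (pr * Y) hK1 (by intro k; rw [pr_mul_apply, if_pos rfl]), ← mul_assoc, hJ0.mul_pr]
  conv_lhs => rw [hsplit]
  rw [map_add, hPE, hP1, add_mul, smul_mul_assoc]

end Setup

end Pool.Agent.Lib.MP_add2b9_al.St
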