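import Pool.Agent.Lib.MP_add2b9_al.LinearP

/-!
# Theorem A: the linear bijection behind `φ`
-/

namespace Pool.Agent.Lib.MP_add2b9_al

open Matrix Polynomial

variable {m : ℕ}

/-- trace of the square of a commutator, as a function of the second argument of a linear image -/
lemma linePoly_trace_right (P : Mat (m + 2) →ₗ[ℂ] Mat (m + 2)) (T : Mat (m + 2)) :
    LinePoly (fun S => (br T (P S) * br T (P S)).trace) := by
  have h1 : LinePoly (fun S : Mat (m + 2) => (br T S * br T S).trace) := by
    have h2 := linePoly_diag (bq T)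
    have h3 : ∀ S : Mat (m + 2), (br T S * br T S).trace = bq T S S := by
      intro S
      rw [bq_apply, br_neg S T]
      simp
    simpa only [h3] using h2
  exact h1.comp_linear P

lemma linePoly_trace_left (P : Mat (m + 2) →ₗ[ℂ] Mat (m + 2)) (S : Mat (m + 2)) :
    LinePoly (fun T => (br (P T) S * br (P T) S).trace) := by
  have h2 := (linePoly_diag (bq S)).comp_linear P
  exact h2

theorem theoremA {φ : Mat (m + 2) → Mat (m + 2)} (hφ : Pres φ) :
    ∃ P : Mat (m + 2) ≃ₗ[ℂ] Mat (m + 2), P 1 = 1 ∧ (∀ T, (P T) 0 0 = T 0 0) ∧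
      (∀ T S, (br (P T) (P S) * br (P T) (P S)).trace = (br T S * br T S).trace) ∧
      ∀ T, Gd T → ∃ s c : ℂ, (s = 1 ∨ s = -1) ∧ φ T = s • P T + c • 1 := by
  obtain ⟨Ψ, hΨ⟩ := exists_Psi hφ
  -- a functional not vanishing at `φ Tz`
  obtain ⟨e, he, he1⟩ : ∃ e ∈ NN (m + 2), e (φ Tz) = 1 := by
    by_contra hcon
    simp only [not_exists, not_and] at hcon
    have h1 : ∀ i j, omij i j (φ Tz) = 0 := by
      intro i j
      by_contra h2
      apply hcon ((omij i j (φ Tz))⁻¹ • omij i j) (Submodule.smul_mem _ _ (omij_mem i j))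
      rw [LinearMap.smul_apply, smul_eq_mul, inv_mul_cancel₀ h2]
    have h2 := eq_scalar_of_omij h1
    have h3 : br (φ Tz) (φ Sz) = 0 := by
      rw [h2, br_smul_left, br_one_left, smul_zero]
    have h4 := D_ne_zero_of_localSpectrum_eq _ _ D_br_Tz_Sz (hφ Tz Sz)
    rw [h3] at h4
    exact h4 D_zero
  -- the linear map
  set P0 : Mat (m + 2) →ₗ[ℂ] Mat (m + 2) :=
    { toFun := fun T => Matrix.of fun i j => Pf Ψ φ e (omij i j) T
      map_add' := by
        intro A B
        ext i j
        simp
      map_smul' := by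
        intro c A
        ext i j
        simp } with hP0
  have hP0_apply : ∀ T i j, P0 T i j = Pf Ψ φ e (omij i j) T := fun T i j => rfl
  have hom00 : omij (m := m) 0 0 = 0 := by ext T; simp [omij_apply]
  have hP00 : ∀ T, P0 T 0 0 = 0 := by
    intro T
    rw [hP0_apply, hom00, Pf_apply, sp_comm, sp_zero_left]
    simp
  -- sign on good matrices
  have hsign : ∀ T, Gd T → ∃ s c : ℂ, (s = 1 ∨ s = -1) ∧ φ T = s • P0 T + c • 1 := by
    intro T hT
    have hprod : ∀ i j k l, Pf Ψ φ e (omij i j) T * Pf Ψ φ e (omij k l) T =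
        omij i j (φ T) * omij k l (φ T) := by
      intro i j k l
      have h1 := C_general hφ hΨ he he1 (omij_mem i j) (omij_mem k l) T
      have h2 := G_good hφ hΨ (omij_mem i j) (omij_mem k l) hT
      rw [h2] at h1
      linear_combination (-1 / 2 : ℂ) * h1
    have hex : ∃ s : ℂ, (s = 1 ∨ s = -1) ∧ ∀ i j, omij i j (φ T) = s * Pf Ψ φ e (omij i j) T := by
      by_cases hall : ∀ i j, omij i j (φ T) = 0
      · refine ⟨1, Or.inl rfl, fun i j => ?_⟩
        have h1 := hprod i j i j
        rw [hall i j, mul_zero] at h1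
        rw [hall i j, mul_self_eq_zero.1 h1, mul_zero]
      · simp only [not_forall] at hall
        obtain ⟨i, j, hij⟩ := hall
        have h1 := hprod i j i j
        have hne : Pf Ψ φ e (omij i j) T ≠ 0 := by
          intro h0
          rw [h0, mul_zero] at h1
          exact hij (mul_self_eq_zero.1 h1.symm)
        have h2 : (Pf Ψ φ e (omij i j) T - omij i j (φ T)) *
            (Pf Ψ φ e (omij i j) T + omij i j (φ T)) = 0 := by linear_combination h1
        rcases mul_eq_zero.1 h2 with h3 | h3
        · refine ⟨1, Or.inl rfl, fun k l => ?_⟩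
          have h4 := hprod i j k l
          have h5 : Pf Ψ φ e (omij i j) T = omij i j (φ T) := by linear_combination h3
          rw [h5] at h4
          have h6 := mul_left_cancel₀ hij h4
          rw [h6, one_mul]
        · refine ⟨-1, Or.inr rfl, fun k l => ?_⟩
          have h4 := hprod i j k l
          have h5 : Pf Ψ φ e (omij i j) T = -omij i j (φ T) := by linear_combination h3
          rw [h5] at h4
          have h6 : omij i j (φ T) * (-Pf Ψ φ e (omij k l) T) =
              omij i j (φ T) * omij k l (φ T) := by linear_combination h4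
          have h7 := mul_left_cancel₀ hij h6
          rw [← h7]
          ring
    obtain ⟨s, hs, hs'⟩ := hex
    refine ⟨s, (φ T) 0 0, hs, ?_⟩
    ext i j
    have h1 := hs' i j
    rw [omij_apply] at h1
    rw [Matrix.add_apply, Matrix.smul_apply, Matrix.smul_apply, Matrix.one_apply, hP0_apply,
      smul_eq_mul, smul_eq_mul]
    split_ifs at h1 ⊢
    · linear_combination h1
    · linear_combination h1
  -- invariance of the trace form
  have hK0 : ∀ T S, D (br T S) ≠ 0 →
      (br (P0 T) (P0 S) * br (P0 T) (P0 S)).trace = (br T S * br T S).trace := by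
    intro T S h
    obtain ⟨s, c, hs, hsT⟩ := hsign T ⟨S, h⟩
    obtain ⟨s', c', hs', hsS⟩ := hsign S ⟨T, D_br_comm h⟩
    have h1 := hφ.trace_eq h
    rw [hsT, hsS, br_add_scalar_left, br_add_scalar_right, br_smul_left, br_smul_right,
      smul_smul, Matrix.smul_mul, Matrix.mul_smul, smul_smul, Matrix.trace_smul] at h1
    have h2 : s * s' * (s * s') = 1 := by
      rcases hs with rfl | rfl <;> rcases hs' with rfl | rfl <;> norm_num
    rw [h2, one_smul] at h1
    exact h1
  have hK1 : ∀ T, Gd T → ∀ S,
      (br (P0 T) (P0 S) * br (P0 T) (P0 S)).trace = (br T S * br T S).trace := by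
    intro T hT S
    have h1 := LinePoly.eq_zero_of (F := fun S => (br (P0 T) (P0 S) * br (P0 T) (P0 S)).trace -
      (br T S * br T S).trace) (G := fun S => D (br T S))
      ((linePoly_trace_right P0 (P0 T)).sub (linePoly_trace_right LinearMap.id T))
      (linePoly_D_right T) hT (fun S hS => by
        show _ - _ = _
        rw [hK0 T S hS, sub_self]) S
    exact sub_eq_zero.1 h1
  have hK : ∀ T S,
      (br (P0 T) (P0 S) * br (P0 T) (P0 S)).trace = (br T S * br T S).trace := by
    intro T S
    have h1 := LinePoly.eq_zero_of (F := fun T => (br (P0 T) (P0 S) * br (P0 T) (P0 S)).trace -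
      (br T S * br T S).trace) (G := fun T => D (br T Sz))
      ((linePoly_trace_left P0 (P0 S)).sub (linePoly_trace_left LinearMap.id S))
      (linePoly_D_left Sz) ⟨Tz, D_br_Tz_Sz⟩ (fun T hT => by
        show _ - _ = _
        rw [hK1 T ⟨Sz, hT⟩ S, sub_self]) T
    exact sub_eq_zero.1 h1
  -- `P0 1 = 0`
  have hP01 : P0 1 = 0 := by
    ext i j
    have h1 := C_general hφ hΨ he he1 (omij_mem i j) (omij_mem i j) (1 : Mat (m + 2))
    rw [Q_one (Psi_mem hΨ (sp_mem_Q (omij_mem i j) (omij_mem i j)))] at h1
    rw [hP0_apply, Matrix.zero_apply]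
    have h2 : Pf Ψ φ e (omij i j) 1 * Pf Ψ φ e (omij i j) 1 = 0 := by
      linear_combination (-1 / 2 : ℂ) * h1
    exact mul_self_eq_zero.1 h2
  -- the corrected map
  set P1 : Mat (m + 2) →ₗ[ℂ] Mat (m + 2) :=
    { toFun := fun T => P0 T + (T 0 0) • 1
      map_add' := by
        intro A B
        rw [map_add, Matrix.add_apply, add_smul]
        abel
      map_smul' := by
        intro c A
        rw [map_smul, Matrix.smul_apply, smul_eq_mul, mul_smul, RingHom.id_apply, smul_add] }
    with hP1
  have hP1_apply : ∀ T, P1 T = P0 T + (T 0 0) • 1 := fun T => rfl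
  have hP11 : P1 1 = 1 := by
    rw [hP1_apply, hP01]; simp
  have hP1K : ∀ T S, br (P1 T) (P1 S) = br (P0 T) (P0 S) := by
    intro T S
    rw [hP1_apply, hP1_apply, br_add_scalar_left, br_add_scalar_right]
  have hinj : Function.Injective P1 := by
    rw [← LinearMap.ker_eq_bot, LinearMap.ker_eq_bot']
    intro T hT
    have h1 : ∀ S, (br T S * br T S).trace = 0 := by
      intro S
      rw [← hK T S, ← hP1K, hT]
      simp [br]
    obtain ⟨c, hc⟩ := scalar_of_trace_zero T h1
    rw [hc, map_smul, hP11] at hT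
    have h2 : c = 0 := by
      have := congrFun (congrFun hT 0) 0
      simpa using this
    rw [hc, h2, zero_smul]
  refine ⟨LinearEquiv.ofInjectiveEndo P1 hinj, ?_, ?_, ?_, ?_⟩
  · exact hP11
  · intro T
    show P1 T 0 0 = _
    rw [hP1_apply, Matrix.add_apply, hP00]
    simp
  · intro T S
    show (br (P1 T) (P1 S) * br (P1 T) (P1 S)).trace = _
    rw [hP1K]
    exact hK T S
  · intro T hT
    obtain ⟨s, c, hs, h1⟩ := hsign T hT
    refine ⟨s, c - s * (T 0 0), hs, ?_⟩
    show φ T = s • P1 T + _
    rw [h1, hP1_apply, smul_add, smul_smul, sub_smul]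
    abel

end Pool.Agent.Lib.MP_add2b9_al
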